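import Pool.Agent.H63.VC8.Link8
import Pool.Agent.H63.VC7.Defs

/-!
# Plumbings of annuli: definitions for the asymptotics
-/

namespace Pool.Agent.H63.VC8

open Pool.Agent.H63.VC hiding ext
open Pool.Agent.H63.VC3 Pool.Agent.H63.VC4 Pool.Agent.H63.VC6 Pool.Agent.H63.VC7 Complex

variable {m p : ℕ}

/-! ### The invariant at the root of unity -/

/-- The factor of a slot, a trigonometric polynomial. -/
noncomputable def qcn (n M k : ℕ) (v : ℂ) : ℂ := 1 / M * ∏ i ∈ Finset.range (M + 1 - n - k),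
  (4 * (cos (Real.pi * (v + (i + bt n) / M)) * cos (Real.pi * (v - (i + bt n) / M))))

/-- The function whose derivatives are summed at a node. -/
noncomputable def NT8 (r : ℝ) (n M : ℕ) (A : Finset (Fin m)) (k : Fin m → ℕ) (v : ℂ) : ℂ :=
  exp (2 * Real.pi * I * r * M * v ^ 2) * (2 * sin (2 * Real.pi * v)) * Bn n M v ^ 2 *
    ∏ j ∈ A, qcn n M (k j) v

/-- The factor of a node. -/
noncomputable def DG8 (r : ℝ) (n M : ℕ) (A : Finset (Fin m)) (k : Fin m → ℕ) : ℂ :=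
  ∑ X ∈ Finset.range (M + 2 - n), deriv (NT8 r n M A k) ((vl n M X : ℝ) : ℂ)

/-- The invariant at the root of unity, up to simple factors. -/
noncomputable def JG8 (s t : Fin m → Fin p) (r : Fin p → ℝ) (n g M : ℕ) : ℂ :=
  ∑ k ∈ Fintype.piFinset (fun _ : Fin m => Finset.range (M + 2 - n)),
    (∏ j, Cc n g M (yk n M (k j))) * ∏ i, DG8 (r i) n M (inc s t i) k

/-- The phase of a node with `r` full twists. -/
noncomputable def cG8 (r : ℤ) (n M : ℕ) : ℂ :=
  exp (2 * r * (Real.pi * I * bt n - Real.pi * I * M / 4 - Real.pi * I * (bt n : ℂ) ^ 2 / M))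

/-! ### Kernels -/

/-- The kernel at a node. -/
noncomputable def KG8 (r : ℝ) (n M : ℕ) (A : Finset (Fin m)) (y : Fin m → ℂ) (v : ℂ) : ℂ :=
  exp (2 * Real.pi * I * r * M * v ^ 2) * (2 * sin (2 * Real.pi * v)) *
    Bn n M v ^ (2 - (A.card : ℤ)) * ∏ j ∈ A, Qo n M (some (y j)) v

/-- The contour integral at a node. -/
noncomputable def PG8 (r : ℝ) (n M : ℕ) (A : Finset (Fin m)) (y : Fin m → ℂ) (ρ Y : ℝ) : ℂ :=
  Path (fun v => KG8 r n M A y v * om n M v) ρ Y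

/-- Its flat part. -/
noncomputable def FG8 (r : ℝ) (n M : ℕ) (A : Finset (Fin m)) (y : Fin m → ℂ) (ρ Y : ℝ) : ℂ :=
  ∫ x in (-ρ)..ρ, KG8 r n M A y (x + Y * I) * om n M (x + Y * I)

open Classical in
/-- The approximation of the factor of a node. -/
noncomputable def GD8 (r Y : ℝ) (n M k1 k2 l2 : ℕ) (A : Finset (Fin m)) (k : Fin m → ℕ) : ℂ :=
  if ∀ j ∈ A, k1 ≤ k j ∧ k j ≤ k2 then
    -(4 * Real.pi * I * M ^ 2) *
      FG8 r n M A (fun j => ((yk n M (k j) : ℝ) : ℂ)) (rho n M l2) Y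
  else 0

/-- The integrand for the nodes outside of `B` and the edges outside of `E`. -/
noncomputable def GN8 (s t : Fin m → Fin p) (r : Fin p → ℝ) (n g M : ℕ) (B : Finset (Fin p))
    (E : Finset (Fin m)) (y : Fin m → ℂ) (v : Fin p → ℂ) : ℂ :=
  (∏ j ∈ Eᶜ, Cc n g M (y j)) * ∏ i ∈ Bᶜ, (KG8 (r i) n M (inc s t i) y (v i) * om n M (v i))

/-- The main integral over the flat contours. -/
noncomputable def MG8 (s t : Fin m → Fin p) (r : Fin p → ℝ) (n g M : ℕ) (Y0 : Fin m → ℝ)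
    (Y1 : Fin p → ℝ) (y1 y2 ρ : ℝ) : ℂ :=
  ∫ z in Bx7 m p y1 y2 ρ, GN8 s t r n g M ∅ ∅ (zy7 Y0 z) (zv7 Y1 z)

/-! ### The state sum as a sum over the edges -/

/-- The slot factor for a generic `q`. -/
noncomputable def pw8 (n : ℕ) (q : ℂ) (t X : ℕ) : ℂ :=
  ∏ i ∈ Finset.range t, (br q ((n : ℤ) + X + i - 1) * br q ((X : ℤ) - i))

/-- The weight of an edge for a generic `q`. -/
noncomputable def E8 (n N : ℕ) (q : ℂ) (t : ℕ) : ℂ :=
  (-1) ^ t / ∏ i ∈ Finset.range t, (br q ((i : ℤ) + 1) * br q ((n : ℤ) + i - 1) *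
    (br q ((n : ℤ) + N + i) * br q ((N : ℤ) - i)))

/-- The factor of a node for a generic `q`. -/
noncomputable def NF8 (r : ℤ) (n N : ℕ) (q : ℂ) (A : Finset (Fin m)) (t : Fin m → ℕ) : ℂ :=
  ∑ X ∈ Finset.range (N + 1), q ^ (2 * r * (X * (X + n - 1))) *
    (dimA n q X / dimS n N q) * ∏ j ∈ A, pw8 n q (t j) X

/-- The order of the pole of the weight of an edge at the root of unity `exp (π i / (N + g))`. -/
def lev (n g N t : ℕ) : ℕ :=
  (if N + g + 1 < n + t then 1 else 0) + (if N + 2 * g < n + t then 1 else 0)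

end Pool.Agent.H63.VC8
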