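import Pool.Agent.H63.VC7.QcLL
import Pool.Agent.H63.VC8.Defs8

/-! # The slot factor as an exponential -/

namespace Pool.Agent.H63.VC8

open Pool.Agent.H63.VC hiding ext
open Pool.Agent.H63.VC3 Pool.Agent.H63.VC4 Pool.Agent.H63.VC6 Pool.Agent.H63.VC7 Complex

variable {m p : ℕ}

/-- Splitting the product of `t + u + t` factors. -/
theorem QcLL8_split (f : ℕ → ℂ) (t u : ℕ) :
    ∏ j ∈ Finset.range (u + 2 * t), f j = (∏ j ∈ Finset.range u, f (t + j)) *
      ∏ i ∈ Finset.range t, (f (t + u + i) * f (t - 1 - i)) := by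
  have e : u + 2 * t = t + u + t := by ring
  rw [e, Finset.prod_range_add, Finset.prod_range_add, Finset.prod_mul_distrib,
    Finset.prod_range_reflect f t]
  ring

/-- The factor `Bn` with more factors. -/
theorem QcLL8_Bn (n M t : ℕ) (hn : 2 ≤ n) (v : ℂ) :
    Bn (n + 2 * t) M v = Bn n M v * ∏ i ∈ Finset.range t,
      (4 * (cos (Real.pi * (v + (i + bt n) / M)) * cos (Real.pi * (v - (i + bt n) / M)))) := by
  unfold Bn
  have e : n + 2 * t - 2 = (n - 2) + 2 * t := by omega
  rw [e, QcLL8_split, RTerms_bt]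
  congr 1
  · refine Finset.prod_congr rfl fun j _ => ?_
    congr 3
    congr 1
    push_cast
    ring
  · refine Finset.prod_congr rfl fun i hi => ?_
    rw [Finset.mem_range] at hi
    have hb : (bt n : ℂ) = ((n : ℂ) - 1) / 2 := by
      unfold bt
      push_cast
      ring
    have c1 : Complex.cos (Real.pi * (v + (((t + (n - 2) + i : ℕ) : ℂ) + 1 -
        ((bt n + t : ℝ) : ℂ)) / M)) = cos (Real.pi * (v + (i + bt n) / M)) := by
      congr 3
      rw [Nat.cast_add, Nat.cast_add, Nat.cast_sub hn]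
      push_cast
      rw [hb]
      ring
    have c2 : Complex.cos (Real.pi * (v + (((t - 1 - i : ℕ) : ℂ) + 1 -
        ((bt n + t : ℝ) : ℂ)) / M)) = cos (Real.pi * (v - (i + bt n) / M)) := by
      have h1 : ((t - 1 - i : ℕ) : ℂ) = t - 1 - i := by
        rw [Nat.cast_sub (by omega), Nat.cast_sub (by omega)]
        push_cast
        ring
      rw [h1]
      congr 2
      push_cast
      ring
    rw [c1, c2]
    ring

/-- The case of a single strand colour. -/
theorem QcLL8_two (M k : ℕ) (hk : k < M) (v : ℂ)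
    (hv : |v.re| < yk 2 M k + 1 / (2 * M)) :
    Bn 2 M v * qcn 2 M k v = Qo 2 M (some ((yk 2 M k : ℝ) : ℂ)) v := by
  rw [← qc_eq M k hk v hv]
  have h1 : Bn 2 M v = 1 := by
    unfold Bn
    simp
  rw [h1, one_mul]
  unfold qcn qc
  have e : M + 1 - 2 - k = M - 1 - k := by omega
  rw [e]
  congr 1
  refine Finset.prod_congr rfl fun i _ => ?_
  have hb : (bt 2 : ℂ) = 1 / 2 := by
    unfold bt
    push_cast
    norm_num
  rw [hb]

theorem qcn_eq (n M k : ℕ) (hn : 2 ≤ n) (hk : k + n ≤ M + 1) (v : ℂ)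
    (hv : |v.re| < yk n M k + 1 / (2 * M)) :
    Bn n M v * qcn n M k v = Qo n M (some ((yk n M k : ℝ) : ℂ)) v := by
  rcases Nat.lt_or_ge M 2 with hM | hM
  · have h1 : n = 2 := by omega
    subst h1
    exact QcLL8_two M k (by omega) v hv
  have hM0 : 0 < M := by omega
  have hMc : (M : ℂ) ≠ 0 := by exact_mod_cast hM0.ne'
  have hMr : (0 : ℝ) < M := by exact_mod_cast hM0
  have hvb : (M : ℝ) * |v.re| < k + bt n + 1 - M / 2 := by
    have h1 := mul_lt_mul_of_pos_left hv hMr
    have h2 : (M : ℝ) * (yk n M k + 1 / (2 * M)) = k + bt n + 1 - M / 2 := by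
      unfold yk
      field_simp
      ring
    rwa [h2] at h1
  have hab1 : -((M : ℝ) * |v.re|) ≤ M * v.re := by
    have := neg_abs_le v.re
    nlinarith
  have hab2 : (M : ℝ) * v.re ≤ M * |v.re| := by
    have := le_abs_self v.re
    nlinarith
  have h := RTerms_Bn n M k hn hM hk v (by linarith) (by linarith)
  rw [QcLL8_Bn n M _ hn v] at h
  show Bn n M v * qcn n M k v = exp (-LL M (M * (((yk n M k : ℝ) : ℂ) - v) - 1 / 2) -
    LL M (M * (((yk n M k : ℝ) : ℂ) + v) - 1 / 2))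
  unfold qcn
  have e : Bn n M v * (1 / (M : ℂ) * ∏ i ∈ Finset.range (M + 1 - n - k),
      (4 * (cos (Real.pi * (v + (i + bt n) / M)) * cos (Real.pi * (v - (i + bt n) / M))))) =
      (Bn n M v * ∏ i ∈ Finset.range (M + 1 - n - k),
      (4 * (cos (Real.pi * (v + (i + bt n) / M)) * cos (Real.pi * (v - (i + bt n) / M))))) / M := by
    ring
  rw [e, h, mul_div_cancel_left₀ _ hMc]

theorem qcn_even (n M k : ℕ) (v : ℂ) : qcn n M k (-v) = qcn n M k v := by
  unfold qcn
  congr 1
  refine Finset.prod_congr rfl fun i _ => ?_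
  have c1 : Complex.cos (Real.pi * (-v + ((i : ℂ) + bt n) / M)) =
      Complex.cos (Real.pi * (v - ((i : ℂ) + bt n) / M)) := by
    rw [← Complex.cos_neg]
    congr 1
    ring
  have c2 : Complex.cos (Real.pi * (-v - ((i : ℂ) + bt n) / M)) =
      Complex.cos (Real.pi * (v + ((i : ℂ) + bt n) / M)) := by
    rw [← Complex.cos_neg]
    congr 1
    ring
  rw [c1, c2]
  ring

theorem Bn_even8 (n M : ℕ) (v : ℂ) : Bn n M (-v) = Bn n M v := by
  unfold Bn
  rw [← Finset.prod_range_reflect]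
  refine Finset.prod_congr rfl fun j hj => ?_
  rw [Finset.mem_range] at hj
  congr 1
  rw [← Complex.cos_neg]
  congr 1
  have h1 : ((n - 2 - 1 - j : ℕ) : ℂ) = n - 3 - j := by
    rw [Nat.cast_sub (by omega), Nat.cast_sub (by omega), Nat.cast_sub (by omega)]
    push_cast
    ring
  have hb : (bt n : ℂ) = ((n : ℂ) - 1) / 2 := by
    unfold bt
    push_cast
    ring
  rw [h1, hb]
  ring

theorem qcn_differentiable (n M k : ℕ) : Differentiable ℂ (qcn n M k) := by
  unfold qcn
  refine Differentiable.const_mul ?_ _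
  refine Differentiable.fun_finsetProd fun i _ => ?_
  fun_prop

theorem Bn_differentiable8 (n M : ℕ) : Differentiable ℂ (Bn n M) := by
  unfold Bn
  refine Differentiable.fun_finsetProd fun i _ => ?_
  fun_prop

theorem NT8_differentiable (r : ℝ) (n M : ℕ) (A : Finset (Fin m)) (k : Fin m → ℕ) :
    Differentiable ℂ (NT8 r n M A k) := by
  unfold NT8
  refine Differentiable.mul (Differentiable.mul (by fun_prop)
    ((Bn_differentiable8 n M).pow 2)) ?_
  exact Differentiable.fun_finsetProd fun i _ => qcn_differentiable n M (k i)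

theorem NT8_odd (r : ℝ) (n M : ℕ) (A : Finset (Fin m)) (k : Fin m → ℕ) (v : ℂ) :
    NT8 r n M A k (-v) = -NT8 r n M A k v := by
  unfold NT8
  have h1 : ∏ j ∈ A, qcn n M (k j) (-v) = ∏ j ∈ A, qcn n M (k j) v :=
    Finset.prod_congr rfl fun j _ => qcn_even n M (k j) v
  rw [h1, Bn_even8, neg_sq, mul_neg, Complex.sin_neg]
  ring

theorem NT8_eq_KG8 (r : ℝ) (n M : ℕ) (hn : 2 ≤ n) (A : Finset (Fin m)) (k : Fin m → ℕ) (v : ℂ)
    (hk : ∀ j ∈ A, k j + n ≤ M + 1) (hv : ∀ j ∈ A, |v.re| < yk n M (k j) + 1 / (2 * M))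
    (hB : Bn n M v ≠ 0) :
    NT8 r n M A k v = KG8 r n M A (fun j => ((yk n M (k j) : ℝ) : ℂ)) v := by
  unfold NT8 KG8
  have h1 : ∏ j ∈ A, Qo n M (some ((yk n M (k j) : ℝ) : ℂ)) v =
      Bn n M v ^ A.card * ∏ j ∈ A, qcn n M (k j) v := by
    rw [← Finset.prod_const, ← Finset.prod_mul_distrib]
    exact Finset.prod_congr rfl fun j hj => (qcn_eq n M (k j) hn (hk j hj) v (hv j hj)).symm
  rw [h1, zpow_sub₀ hB, zpow_natCast]
  have hp : Bn n M v ^ A.card ≠ 0 := pow_ne_zero _ hB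
  have h2 : Bn n M v ^ (2 : ℤ) = Bn n M v ^ 2 := by norm_cast
  rw [h2]
  field_simp

end Pool.Agent.H63.VC8
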