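import Pool.Agent.H63.VC8.BnB8
import Pool.Agent.H63.VC8.QcLL8
import Pool.Agent.H63.VC7.GNan

/-! # The integrand: continuity and differentiability -/

namespace Pool.Agent.H63.VC8

open Pool.Agent.H63.VC hiding ext
open Pool.Agent.H63.VC3 Pool.Agent.H63.VC4 Pool.Agent.H63.VC6 Pool.Agent.H63.VC7 Complex

variable {m p : ℕ}

theorem KG8_odd (r : ℝ) (n M : ℕ) (A : Finset (Fin m)) (y : Fin m → ℂ) (v : ℂ) :
    KG8 r n M A y (-v) = -KG8 r n M A y v := by
  unfold KG8
  simp only [KAnN_Qo_neg, Bn_even8]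
  have h1 : 2 * Complex.sin (2 * Real.pi * -v) = -(2 * Complex.sin (2 * Real.pi * v)) := by
    rw [show 2 * (Real.pi : ℂ) * -v = -(2 * Real.pi * v) by ring, Complex.sin_neg]; ring
  have h2 : Complex.exp (2 * Real.pi * I * r * M * (-v) ^ 2) =
      Complex.exp (2 * Real.pi * I * r * M * v ^ 2) := by ring_nf
  rw [h1, h2]; ring

theorem KG8_continuousAt (r : ℝ) (n M : ℕ) (hM : 1000 * (n + 1) ≤ M) (A : Finset (Fin m))
    (y : Fin m → ℂ) (v : ℂ) (hv : |v.re| ≤ 15 / 100) (hok : ∀ j ∈ A, okS v (some (y j))) :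
    ContinuousAt (fun z : (Fin m → ℂ) × ℂ => KG8 r n M A z.1 z.2) (y, v) := by
  have hM0 : 0 < M := by omega
  have hB : Bn n M v ≠ 0 := BnB8_ne n M hM v (by linarith)
  have hBc : ContinuousAt (fun z : (Fin m → ℂ) × ℂ => Bn n M z.2) (y, v) :=
    ContinuousAt.comp (f := fun z : (Fin m → ℂ) × ℂ => z.2) (g := Bn n M) (x := (y, v))
      (Bn_differentiable8 n M).continuous.continuousAt (by fun_prop)
  unfold KG8
  refine ContinuousAt.mul (ContinuousAt.mul (by fun_prop) (hBc.zpow₀ _ (Or.inl hB))) ?_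
  refine tendsto_finsetProd _ fun j hj => ?_
  have h1 := KAnN_Qo_continuousAt n M hM0 (y j) v (hok j hj)
  have h2 : ContinuousAt (fun z : (Fin m → ℂ) × ℂ => (z.1 j, z.2)) (y, v) := by fun_prop
  exact ContinuousAt.comp (f := fun z : (Fin m → ℂ) × ℂ => (z.1 j, z.2))
    (g := fun z : ℂ × ℂ => Qo n M (some z.1) z.2) (x := (y, v)) h1 h2

theorem GN8_continuousAt (s t : Fin m → Fin p) (r : Fin p → ℝ) (n g M : ℕ) (hn : 2 ≤ n)
    (hg : 1 ≤ g) (hgn : g < n) (hM : 1000 * (n + 1) ≤ M)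
    (B : Finset (Fin p)) (E : Finset (Fin m)) (y : Fin m → ℂ) (v : Fin p → ℂ)
    (hy : ∀ j, |(y j).re - 1 / 4| ≤ 55 / 1000) (hv : ∀ i, |(v i).re| ≤ 15 / 100)
    (hw : ∀ i, ww n M (v i) ≠ 1) :
    ContinuousAt (fun z : (Fin m → ℂ) × (Fin p → ℂ) => GN8 s t r n g M B E z.1 z.2) (y, v) := by
  unfold GN8
  refine ContinuousAt.mul ?_ ?_
  · refine tendsto_finsetProd _ fun j _ => ?_
    have h1 := (Cc_differentiableAt n g M hg (by omega) hM (y j) (GNan_re (hy j)).1
      (GNan_re (hy j)).2).continuousAt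
    have h2 : ContinuousAt (fun z : (Fin m → ℂ) × (Fin p → ℂ) => z.1 j) (y, v) := by
      fun_prop
    exact ContinuousAt.comp (f := fun z : (Fin m → ℂ) × (Fin p → ℂ) => z.1 j)
      (g := Cc n g M) (x := (y, v)) h1 h2
  · refine tendsto_finsetProd _ fun i _ => ?_
    have h1 := KG8_continuousAt (r i) n M hM (inc s t i) y (v i) (hv i)
      (fun j _ => GNan_okS (hy j) (hv i))
    have h2 : ContinuousAt (fun z : (Fin m → ℂ) × (Fin p → ℂ) => (z.1, z.2 i)) (y, v) := by
      fun_prop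
    have h3 : ContinuousAt (fun z : (Fin m → ℂ) × (Fin p → ℂ) => om n M (z.2 i)) (y, v) :=
      ContinuousAt.comp (f := fun z : (Fin m → ℂ) × (Fin p → ℂ) => z.2 i)
        (g := om n M) (x := (y, v)) (om_continuousAt n M (v i) (hw i)) (by fun_prop)
    have h4 : ContinuousAt (fun z : (Fin m → ℂ) × (Fin p → ℂ) =>
        KG8 (r i) n M (inc s t i) z.1 (z.2 i)) (y, v) :=
      ContinuousAt.comp (f := fun z : (Fin m → ℂ) × (Fin p → ℂ) => (z.1, z.2 i))
        (g := fun z : (Fin m → ℂ) × ℂ => KG8 (r i) n M (inc s t i) z.1 z.2) (x := (y, v)) h1 h2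
    exact h4.mul h3

theorem GN8_update_differentiable (s t : Fin m → Fin p) (r : Fin p → ℝ) (n g M : ℕ) (hn : 2 ≤ n)
    (hg : 1 ≤ g) (hgn : g < n) (hM : 1000 * (n + 1) ≤ M)
    (B : Finset (Fin p)) (E : Finset (Fin m)) (y : Fin m → ℂ) (v : Fin p → ℂ) (j : Fin m)
    (hy : ∀ j, |(y j).re - 1 / 4| ≤ 55 / 1000) (hv : ∀ i, |(v i).re| ≤ 15 / 100) :
    DifferentiableAt ℂ (fun w => GN8 s t r n g M B E (Function.update y j w) v) (y j) := by
  have hM0 : 0 < M := by omega
  unfold GN8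
  refine DifferentiableAt.mul ?_ ?_
  · refine DifferentiableAt.fun_finsetProd fun i _ => ?_
    by_cases hij : i = j
    · subst hij
      simp only [Function.update_self]
      exact Cc_differentiableAt n g M hg (by omega) hM _ (GNan_re (hy i)).1
        (GNan_re (hy i)).2
    · simp only [Function.update_of_ne hij]
      exact differentiableAt_const _
  · refine DifferentiableAt.fun_finsetProd fun i _ => ?_
    refine DifferentiableAt.mul ?_ (differentiableAt_const _)
    unfold KG8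
    refine DifferentiableAt.mul (differentiableAt_const _) ?_
    refine DifferentiableAt.fun_finsetProd fun l _ => ?_
    by_cases hlj : l = j
    · subst hlj
      simp only [Function.update_self]
      exact KAnN_Qo_differentiable_y n M hM0 (y l) (v i) (GNan_okS (hy l) (hv i))
    · simp only [Function.update_of_ne hlj]
      exact differentiableAt_const _

end Pool.Agent.H63.VC8
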