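import Pool.Agent.H63.VC8.BnB8
import Pool.Agent.H63.VC7.GNb

/-! # Bound of the integrand -/

namespace Pool.Agent.H63.VC8

open Pool.Agent.H63.VC hiding ext
open Pool.Agent.H63.VC3 Pool.Agent.H63.VC4 Pool.Agent.H63.VC6 Pool.Agent.H63.VC7 Complex

variable {m p : ℕ}

/-- Integral powers. -/
theorem GNb8_zpow {c C1 : ℝ} (hc : 0 < c) (hC1 : 0 < C1) (B : ℂ) (h1 : c ≤ ‖B‖) (h2 : ‖B‖ ≤ C1)
    (z : ℤ) : ‖B ^ z‖ ≤ (C1 + c⁻¹) ^ z.natAbs := by
  have hci : 0 < c⁻¹ := inv_pos.2 hc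
  rcases le_total 0 z with hz | hz
  · obtain ⟨k, rfl⟩ := Int.eq_ofNat_of_zero_le hz
    rw [zpow_natCast, norm_pow]
    exact pow_le_pow_left₀ (norm_nonneg _) (by linarith) _
  · obtain ⟨k, hk⟩ := Int.eq_ofNat_of_zero_le (Int.neg_nonneg.2 hz)
    have hz' : z = -(k : ℤ) := by omega
    subst hz'
    rw [zpow_neg, zpow_natCast, norm_inv, norm_pow, ← inv_pow, Int.natAbs_neg, Int.natAbs_natCast]
    refine pow_le_pow_left₀ (by positivity) ?_ _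
    have : ‖B‖⁻¹ ≤ c⁻¹ := inv_anti₀ hc h1
    linarith

/-- The factor of a node. -/
theorem GNb8_node (n : ℕ) (r : ℝ) (A : Finset (Fin m)) (Y : ℝ) (hY : 0 < Y ∧ Y ≤ 1 / 50) :
    ∃ D : ℝ, 0 < D ∧ ∃ M0 : ℕ, ∀ M : ℕ, M0 ≤ M → ∀ (y : Fin m → ℂ) (a : ℝ),
      (∀ j, |(y j).re - 1 / 4| ≤ 55 / 1000 ∧ |(y j).im| ≤ 1 / 50) → |a| ≤ 15 / 100 →
      ‖KG8 r n M A y (a + Y * I) * om n M (a + Y * I)‖ ≤
        D / (M : ℝ) ^ A.card * Real.exp (M * (WG r A y (a + Y * I)).re) := by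
  obtain ⟨C, hC, hQ⟩ := KBN_Qo_bound n
  obtain ⟨c, C1, hc, hC1, hBn⟩ := BnB8_bound n
  obtain ⟨M1, hM1⟩ := exists_nat_ge (1 / (2 * Real.pi * Y))
  refine ⟨4 * (2 * Real.exp (2 * Real.pi * (1 / 10))) * (C1 + c⁻¹) ^ (2 - (A.card : ℤ)).natAbs *
    C ^ A.card, by positivity, M1 + 1 + 1000 * (n + 1), ?_⟩
  intro M hM y a hy ha
  have hM1' : 1 ≤ M := by omega
  have hMp : (0 : ℝ) < M := by exact_mod_cast hM1'
  have hYp := hY.1
  set v : ℂ := a + Y * I with hv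
  have hvre : v.re = a := by simp [hv]
  have hvim : v.im = Y := by simp [hv]
  have h6 : |v.im| ≤ 1 / 10 := by
    rw [hvim, abs_of_pos hY.1]
    exact hY.2.trans (by norm_num)
  have hs : ‖2 * Complex.sin (2 * Real.pi * v)‖ ≤ 2 * Real.exp (2 * Real.pi * (1 / 10)) := by
    rw [norm_mul]
    have h2 : ‖(2 : ℂ)‖ = 2 := by simp
    rw [h2]
    refine mul_le_mul_of_nonneg_left ((KB_norm_sin_le _).trans (Real.exp_le_exp.2 ?_)) (by norm_num)
    have h7 : (2 * (Real.pi : ℂ) * v).im = 2 * Real.pi * v.im := by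
      have : (2 * (Real.pi : ℂ)) = ((2 * Real.pi : ℝ) : ℂ) := by push_cast; ring
      rw [this, Complex.im_ofReal_mul]
    rw [h7, abs_mul, abs_of_pos (by positivity : 0 < 2 * Real.pi)]
    exact mul_le_mul_of_nonneg_left h6 (by positivity)
  have hq : ∀ j ∈ A, ‖Qo n M (some (y j)) v‖ ≤ C / M * Real.exp (M * (po (some (y j)) v).re) := by
    intro j _
    refine hQ M hM1' (some (y j)) v ?_ h6
    intro z hz
    have hz' : z = y j := (Option.mem_some_iff.1 hz).symm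
    subst hz'
    obtain ⟨h1, h2⟩ := hy j
    rw [abs_le] at h1
    have ha' := abs_le.1 ha
    rw [Complex.sub_re, Complex.add_re (y j), hvre]
    refine ⟨by linarith, by linarith, by linarith, by linarith, h2.trans (by norm_num)⟩
  have ho : ‖om n M v‖ ≤ 4 * Real.exp (-(2 * Real.pi * M * v.im)) := by
    refine om_flat n M v ?_
    rw [hvim]
    have h1 : (1 / (2 * Real.pi * Y)) ≤ M :=
      hM1.trans (by exact_mod_cast (by omega : M1 ≤ M))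
    rw [div_le_iff₀ (by positivity)] at h1
    linarith
  have hprod : ‖∏ j ∈ A, Qo n M (some (y j)) v‖ ≤
      C ^ A.card / (M : ℝ) ^ A.card * Real.exp (M * (∑ j ∈ A, po (some (y j)) v).re) := by
    rw [_root_.norm_prod]
    refine (Finset.prod_le_prod (fun _ _ => norm_nonneg _) hq).trans (le_of_eq ?_)
    rw [Finset.prod_mul_distrib, Finset.prod_const, div_pow, ← Real.exp_sum, ← Finset.mul_sum,
      Complex.re_sum]
  have h9 : (2 * Real.pi * I * r * M * v ^ 2 : ℂ) = M * (2 * Real.pi * I * r * v ^ 2) := by ring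
  have hW : (WG r A y v).re = (2 * Real.pi * I * r * v ^ 2).re +
      (∑ j ∈ A, po (some (y j)) v).re - 2 * Real.pi * v.im := by
    have e2 : (2 * Real.pi * I * v).re = -(2 * Real.pi * v.im) := by
      have : 2 * Real.pi * I * v = ((2 * Real.pi : ℝ) : ℂ) * (I * v) := by push_cast; ring
      rw [this, Complex.re_ofReal_mul, Complex.I_mul_re]
      ring
    have e3 : WG r A y v = 2 * Real.pi * I * r * v ^ 2 + 2 * Real.pi * I * v +
        ∑ j ∈ A, po (some (y j)) v := by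
      unfold WG; ring
    rw [e3, Complex.add_re, Complex.add_re, e2]
    ring
  have hexp : Real.exp (M * (WG r A y v).re) = Real.exp (M * (2 * Real.pi * I * r * v ^ 2).re) *
      Real.exp (M * (∑ j ∈ A, po (some (y j)) v).re) * Real.exp (-(2 * Real.pi * M * v.im)) := by
    rw [hW, ← Real.exp_add, ← Real.exp_add]
    congr 1
    ring
  have hB0 : ‖Bn n M v ^ (2 - (A.card : ℤ))‖ ≤ (C1 + c⁻¹) ^ (2 - (A.card : ℤ)).natAbs := by
    have hM2 : 1000 * (n + 1) ≤ M := by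
      have : 1000 * (n + 1) ≤ M1 + 1 + 1000 * (n + 1) := Nat.le_add_left _ _
      exact this.trans hM
    have hv16 : |v.re| ≤ 16 / 100 := by
      rw [hvre]
      exact ha.trans (by norm_num)
    have hb := hBn M v hM2 hv16 h6
    exact GNb8_zpow hc hC1 _ hb.1 hb.2 _
  rw [KG8, norm_mul, norm_mul, norm_mul, norm_mul, Complex.norm_exp, h9, KBN_natCast_mul_re, hexp]
  calc Real.exp (M * (2 * Real.pi * I * r * v ^ 2).re) * ‖2 * Complex.sin (2 * Real.pi * v)‖ *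
        ‖Bn n M v ^ (2 - (A.card : ℤ))‖ * ‖∏ j ∈ A, Qo n M (some (y j)) v‖ * ‖om n M v‖
      ≤ Real.exp (M * (2 * Real.pi * I * r * v ^ 2).re) *
        (2 * Real.exp (2 * Real.pi * (1 / 10))) * (C1 + c⁻¹) ^ (2 - (A.card : ℤ)).natAbs *
        (C ^ A.card / (M : ℝ) ^ A.card * Real.exp (M * (∑ j ∈ A, po (some (y j)) v).re)) *
        (4 * Real.exp (-(2 * Real.pi * M * v.im))) := by
        refine mul_le_mul (mul_le_mul (mul_le_mul (mul_le_mul_of_nonneg_left hs (by positivity))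
          hB0 (norm_nonneg _) (by positivity)) hprod
          (norm_nonneg _) (by positivity)) ho (norm_nonneg _) (by positivity)
    _ = _ := by ring

theorem GN8_bound (s t : Fin m → Fin p) (hst : ∀ j, s j ≠ t j) (r : Fin p → ℝ) (n g : ℕ)
    (hn : 2 ≤ n) (hg : 1 ≤ g) (hgn : g < n)
    (B : Finset (Fin p)) (Y1 : Fin p → ℝ) (hY1 : ∀ i, 0 < Y1 i ∧ Y1 i ≤ 1 / 50) :
    ∃ C : ℝ, 0 < C ∧ ∃ M0 : ℕ, ∀ M : ℕ, M0 ≤ M → ∀ (y : Fin m → ℂ) (a : Fin p → ℝ),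
      (∀ j, |(y j).re - 1 / 4| ≤ 55 / 1000 ∧ |(y j).im| ≤ 1 / 50) → (∀ i, |a i| ≤ 15 / 100) →
      Real.exp (M * ∑ i ∈ Bᶜ, ∑ j ∈ inc s t i ∩ EB s t B, (2 * ff (y j + 1 / 2)).re) *
        ‖GN8 s t r n g M B (EB s t B) y (fun i => a i + Y1 i * I)‖ ≤
      C * Real.exp (M * ∑ i ∈ Bᶜ, Lg (r i) (inc s t i) y (a i + Y1 i * I)) := by
  obtain ⟨C, hC, hCc⟩ := Cc_bound n g hg (by omega)
  choose D hD N0 hDb using fun i : Fin p => GNb8_node n (r i) (inc s t i) (Y1 i) (hY1 i)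
  refine ⟨C ^ (EB s t B)ᶜ.card * ∏ i ∈ Bᶜ, D i, by
    have : 0 < ∏ i ∈ Bᶜ, D i := Finset.prod_pos fun i _ => hD i
    positivity, 1000 * (n + 1) + ∑ i, N0 i, ?_⟩
  intro M hM y a hy ha
  have hM3 : 1000 * (n + 1) ≤ M := by omega
  have hN0 : ∀ i, N0 i ≤ M := by
    intro i
    have := Finset.single_le_sum (f := N0) (fun j _ => Nat.zero_le _) (Finset.mem_univ i)
    omega
  have hM1 : 1 ≤ M := by omega
  have hMp : (0 : ℝ) < M := by exact_mod_cast hM1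
  have hM1r : (1 : ℝ) ≤ M := by exact_mod_cast hM1
  have h1 : ∀ j : Fin m, ‖Cc n g M (y j)‖ ≤ C * (M : ℝ) ^ 2 *
      Real.exp (M * (4 * ff (y j + 1 / 2)).re) := by
    intro j
    obtain ⟨h1, h2⟩ := hy j
    rw [abs_le] at h1
    exact hCc M hM3 (y j) (by linarith) (by linarith) (h2.trans (by norm_num))
  have h2 : ∀ i : Fin p, ‖KG8 (r i) n M (inc s t i) y (a i + Y1 i * I) * om n M (a i + Y1 i * I)‖ ≤
      D i / (M : ℝ) ^ (inc s t i).card *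
        Real.exp (M * (WG (r i) (inc s t i) y (a i + Y1 i * I)).re) :=
    fun i => hDb i M (hN0 i) y (a i) hy (ha i)
  -- the powers of `M`
  have hcard : (EB s t B)ᶜ.card * 2 ≤ ∑ i ∈ Bᶜ, (inc s t i).card := by
    have h := GNb_sum s t hst B (fun _ => (1 : ℕ))
    simp only [Finset.sum_const, smul_eq_mul, mul_one] at h
    have h3 : ∑ i ∈ Bᶜ, (inc s t i \ EB s t B).card ≤ ∑ i ∈ Bᶜ, (inc s t i).card :=
      Finset.sum_le_sum fun i _ => Finset.card_le_card Finset.sdiff_subset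
    omega
  have hpow : (M : ℝ) ^ ((EB s t B)ᶜ.card * 2) / (M : ℝ) ^ (∑ i ∈ Bᶜ, (inc s t i).card) ≤ 1 :=
    div_le_one_of_le₀ (pow_le_pow_right₀ hM1r hcard) (by positivity)
  have hP1 : ‖∏ j ∈ (EB s t B)ᶜ, Cc n g M (y j)‖ ≤ C ^ (EB s t B)ᶜ.card *
      (M : ℝ) ^ ((EB s t B)ᶜ.card * 2) *
      Real.exp (M * ∑ j ∈ (EB s t B)ᶜ, (4 * ff (y j + 1 / 2)).re) := by
    rw [_root_.norm_prod]
    refine (Finset.prod_le_prod (fun _ _ => norm_nonneg _) fun j _ => h1 j).trans (le_of_eq ?_)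
    rw [Finset.prod_mul_distrib, Finset.prod_const, mul_pow, ← pow_mul, ← Real.exp_sum,
      ← Finset.mul_sum, mul_comm 2 (EB s t B)ᶜ.card]
  have hP2 : ‖∏ i ∈ Bᶜ, (KG8 (r i) n M (inc s t i) y (a i + Y1 i * I) *
      om n M (a i + Y1 i * I))‖ ≤ (∏ i ∈ Bᶜ, D i) / (M : ℝ) ^ (∑ i ∈ Bᶜ, (inc s t i).card) *
      Real.exp (M * ∑ i ∈ Bᶜ, (WG (r i) (inc s t i) y (a i + Y1 i * I)).re) := by
    rw [_root_.norm_prod]
    refine (Finset.prod_le_prod (fun _ _ => norm_nonneg _) fun i _ => h2 i).trans (le_of_eq ?_)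
    rw [Finset.prod_mul_distrib, Finset.prod_div_distrib, ← Real.exp_sum, ← Finset.mul_sum,
      Finset.prod_pow_eq_pow_sum]
  have hDp : 0 < ∏ i ∈ Bᶜ, D i := Finset.prod_pos fun i _ => hD i
  rw [GN8, norm_mul]
  calc Real.exp (M * ∑ i ∈ Bᶜ, ∑ j ∈ inc s t i ∩ EB s t B, (2 * ff (y j + 1 / 2)).re) *
        (‖∏ j ∈ (EB s t B)ᶜ, Cc n g M (y j)‖ *
        ‖∏ i ∈ Bᶜ, (KG8 (r i) n M (inc s t i) y (a i + Y1 i * I) * om n M (a i + Y1 i * I))‖)
      ≤ Real.exp (M * ∑ i ∈ Bᶜ, ∑ j ∈ inc s t i ∩ EB s t B, (2 * ff (y j + 1 / 2)).re) *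
        ((C ^ (EB s t B)ᶜ.card * (M : ℝ) ^ ((EB s t B)ᶜ.card * 2) *
          Real.exp (M * ∑ j ∈ (EB s t B)ᶜ, (4 * ff (y j + 1 / 2)).re)) *
        ((∏ i ∈ Bᶜ, D i) / (M : ℝ) ^ (∑ i ∈ Bᶜ, (inc s t i).card) *
          Real.exp (M * ∑ i ∈ Bᶜ, (WG (r i) (inc s t i) y (a i + Y1 i * I)).re))) := by
        refine mul_le_mul_of_nonneg_left ?_ (Real.exp_pos _).le
        exact mul_le_mul hP1 hP2 (norm_nonneg _) (by positivity)
    _ = (C ^ (EB s t B)ᶜ.card * ∏ i ∈ Bᶜ, D i) *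
        ((M : ℝ) ^ ((EB s t B)ᶜ.card * 2) / (M : ℝ) ^ (∑ i ∈ Bᶜ, (inc s t i).card)) *
        Real.exp (M * ∑ i ∈ Bᶜ, Lg (r i) (inc s t i) y (a i + Y1 i * I)) := by
        rw [← GNb_exponent s t hst r B y (fun i => a i + Y1 i * I), mul_add, mul_add,
          Real.exp_add, Real.exp_add]
        ring
    _ ≤ (C ^ (EB s t B)ᶜ.card * ∏ i ∈ Bᶜ, D i) * 1 *
        Real.exp (M * ∑ i ∈ Bᶜ, Lg (r i) (inc s t i) y (a i + Y1 i * I)) := by
        refine mul_le_mul_of_nonneg_right ?_ (Real.exp_pos _).le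
        exact mul_le_mul_of_nonneg_left hpow (by positivity)
    _ = _ := by rw [mul_one]


end Pool.Agent.H63.VC8
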