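import Pool.Agent.H63.VC8.BnB8
import Pool.Agent.H63.VC7.GNl

/-! # The pointwise limit of the integrand -/

namespace Pool.Agent.H63.VC8

open Pool.Agent.H63.VC hiding ext
open Pool.Agent.H63.VC3 Pool.Agent.H63.VC4 Pool.Agent.H63.VC6 Pool.Agent.H63.VC7 Complex

variable {m p : ℕ}

theorem GNl8_Qo (n : ℕ) (y : Fin m → ℂ) (v : ℂ) (j : Fin m) (Y : ℕ → Fin m → ℂ) (V : ℕ → ℂ)
    (hY : ∀ j, Filter.Tendsto (fun M => Y M j) Filter.atTop (nhds (y j)))
    (hV : Filter.Tendsto V Filter.atTop (nhds v)) (hok : okS v (some (y j))) :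
    Filter.Tendsto (fun M : ℕ => (M : ℂ) * Qo n M (some (Y M j)) (V M) *
      exp (-M * po (some (Y M j)) (V M))) Filter.atTop (nhds 1) := by
  have h := KBN_Qo_lim n j.castSucc.succ y v Y V hY hV (by rw [ext_mid]; exact hok)
  simp only [ext_mid] at h
  exact h

theorem GNl8_fac (r : ℝ) (n M : ℕ) (A : Finset (Fin m)) (y : Fin m → ℂ) (v : ℂ) :
    (-1 : ℂ) ^ (M + n + 1) * (KG8 r n M A y v * om n M v) * (∏ _j ∈ A, (M : ℂ)) *
      exp (-M * WG r A y v) =
    2 * sin (2 * Real.pi * v) * Bn n M v ^ (2 - (A.card : ℤ)) *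
      (∏ j ∈ A, ((M : ℂ) * Qo n M (some (y j)) v *
      exp (-M * po (some (y j)) v))) * (1 / (1 - ww n M v) ^ 2) := by
  have ho := KBN_om n M v
  have hW : exp (-M * WG r A y v) = exp (-(2 * Real.pi * I * r * M * v ^ 2)) *
      exp (-M * (2 * Real.pi * I * v)) * ∏ j ∈ A, exp (-M * po (some (y j)) v) := by
    rw [← Complex.exp_sum, ← Complex.exp_add, ← Complex.exp_add]
    congr 1
    unfold WG
    rw [← Finset.mul_sum]
    ring
  have hsq : ((-1 : ℂ) ^ (M + n + 1)) * (-1) ^ (M + n + 1) = 1 := by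
    rw [← pow_add, ← two_mul, pow_mul]
    simp
  have hee : exp (2 * Real.pi * I * r * M * v ^ 2) *
      exp (-(2 * Real.pi * I * r * M * v ^ 2)) = 1 := by
    rw [← Complex.exp_add, add_neg_cancel, Complex.exp_zero]
  have hP : (∏ j ∈ A, ((M : ℂ) * Qo n M (some (y j)) v * exp (-M * po (some (y j)) v))) =
      (∏ _j ∈ A, (M : ℂ)) * (∏ j ∈ A, Qo n M (some (y j)) v) *
        ∏ j ∈ A, exp (-M * po (some (y j)) v) := by
    rw [Finset.prod_mul_distrib, Finset.prod_mul_distrib]
  rw [hW, hP]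
  unfold KG8
  generalize (∏ j ∈ A, Qo n M (some (y j)) v) = q at *
  generalize (∏ _j ∈ A, (M : ℂ)) = mm at *
  generalize (∏ j ∈ A, exp (-M * po (some (y j)) v)) = pp at *
  generalize exp (2 * Real.pi * I * r * M * v ^ 2) = a1 at *
  generalize exp (-(2 * Real.pi * I * r * M * v ^ 2)) = a2 at *
  generalize exp (-M * (2 * Real.pi * I * v)) = b at *
  generalize om n M v = o at *
  generalize 1 / (1 - ww n M v) ^ 2 = w at *
  generalize ((-1 : ℂ)) ^ (M + n + 1) = s at *
  generalize sin (2 * Real.pi * v) = sn at *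
  generalize Bn n M v ^ (2 - (A.card : ℤ)) = bb at *
  have e : s * (a1 * (2 * sn) * bb * q * o) * mm * (a2 * b * pp) =
      (a1 * a2) * (s * (o * b)) * (2 * sn * bb * (mm * q * pp)) := by ring
  rw [e, hee, ho]
  have e2 : s * (s * w) = w := by rw [← mul_assoc, hsq, one_mul]
  rw [e2]
  ring

/-- The pointwise limit of the integrand. -/
theorem GN8_lim (s t : Fin m → Fin p) (hst : ∀ j, s j ≠ t j) (r : Fin p → ℝ) (n g : ℕ)
    (hn : 2 ≤ n) (hg : 1 ≤ g) (hgn : g < n)
    (y : Fin m → ℂ) (v : Fin p → ℂ) (hy : ∀ j, |(y j).re - 1 / 4| ≤ 55 / 1000)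
    (hv : ∀ i, |(v i).re| ≤ 15 / 100) (him : ∀ i, 0 < (v i).im) :
    ∃ L : ℂ, L ≠ 0 ∧ ∀ (Y : ℕ → Fin m → ℂ) (V : ℕ → Fin p → ℂ),
      (∀ j, Filter.Tendsto (fun M => Y M j) Filter.atTop (nhds (y j))) →
      (∀ i, Filter.Tendsto (fun M => V M i) Filter.atTop (nhds (v i))) →
      (∀ M i, (V M i).im = (v i).im) →
      Filter.Tendsto (fun M : ℕ => ((-1 : ℂ) ^ (M + n + 1)) ^ p *
        GN8 s t r n g M ∅ ∅ (Y M) (V M) *
        exp (-M * VG s t r (Y M) (V M))) Filter.atTop (nhds L) := by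
  have hcos : ∀ i, (2 * cos (Real.pi * v i)) ≠ 0 := by
    intro i h0
    have h1 : Complex.cos (Real.pi * v i) = 0 := by
      rcases mul_eq_zero.1 h0 with h | h
      · norm_num at h
      · exact h
    rw [Complex.cos_eq_zero_iff] at h1
    obtain ⟨k, hk⟩ := h1
    have hpi : (Real.pi : ℂ) ≠ 0 := by exact_mod_cast Real.pi_ne_zero
    have h2 : v i = (((2 * (k : ℝ) + 1) / 2 : ℝ) : ℂ) := by
      apply mul_left_cancel₀ hpi
      rw [hk]
      push_cast
      ring
    have := him i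
    rw [h2, Complex.ofReal_im] at this
    exact lt_irrefl _ this
  refine ⟨(∏ j, exp (-2 * hh (y j + 1 / 2))) * ∏ i : Fin p, (2 * sin (2 * Real.pi * v i) *
    ((2 * cos (Real.pi * v i)) ^ (n - 2)) ^ (2 - ((inc s t i).card : ℤ))),
    ?_, ?_⟩
  · refine mul_ne_zero (Finset.prod_ne_zero_iff.2 fun j _ => Complex.exp_ne_zero _)
      (Finset.prod_ne_zero_iff.2 fun i _ => ?_)
    have hnr : ∀ x : ℝ, v i ≠ x := by
      intro x hx
      have := him i
      rw [hx, Complex.ofReal_im] at this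
      exact lt_irrefl _ this
    have hpi : (Real.pi : ℂ) ≠ 0 := by exact_mod_cast Real.pi_ne_zero
    refine mul_ne_zero (mul_ne_zero two_ne_zero ?_) (zpow_ne_zero _ (pow_ne_zero _ (hcos i)))
    intro h0
    rw [Complex.sin_eq_zero_iff] at h0
    obtain ⟨k, hk⟩ := h0
    refine hnr (k / 2) ?_
    have h1 : (Real.pi : ℂ) * (2 * v i) = Real.pi * k := by
      rw [mul_comm (Real.pi : ℂ) (k : ℂ), ← hk]; ring
    have h2 := mul_left_cancel₀ hpi h1
    have h3 : v i = k / 2 := by rw [← h2]; ring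
    rw [h3]
    push_cast
    ring
  · intro Y V hY hV hVim
    have hCc : Filter.Tendsto (fun M : ℕ => ∏ j : Fin m, (Cc n g M (Y M j) / (M : ℂ) ^ 2 *
        exp (-M * (4 * ff (Y M j + 1 / 2))))) Filter.atTop
        (nhds (∏ j, exp (-2 * hh (y j + 1 / 2)))) := by
      refine tendsto_finsetProd _ fun j _ => ?_
      have h1 := abs_le.1 (hy j)
      exact Cc_lim n g hg (by omega) (y j) (fun M => Y M j) (hY j) (by linarith [h1.1])
        (by linarith [h1.2])
    have hK : Filter.Tendsto (fun M : ℕ => ∏ i : Fin p, (2 * sin (2 * Real.pi * V M i) *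
        Bn n M (V M i) ^ (2 - ((inc s t i).card : ℤ)) *
        (∏ j ∈ inc s t i, ((M : ℂ) * Qo n M (some (Y M j)) (V M i) *
          exp (-M * po (some (Y M j)) (V M i)))) * (1 / (1 - ww n M (V M i)) ^ 2)))
        Filter.atTop (nhds (∏ i : Fin p, (2 * sin (2 * Real.pi * v i) *
          ((2 * cos (Real.pi * v i)) ^ (n - 2)) ^ (2 - ((inc s t i).card : ℤ))))) := by
      refine tendsto_finsetProd _ fun i _ => ?_
      have hs : Filter.Tendsto (fun M : ℕ => 2 * sin (2 * Real.pi * V M i)) Filter.atTop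
          (nhds (2 * sin (2 * Real.pi * v i))) := by
        have hcont : Continuous (fun w : ℂ => 2 * Complex.sin (2 * Real.pi * w)) := by fun_prop
        exact (hcont.tendsto (v i)).comp (hV i)
      have hb : Filter.Tendsto (fun M : ℕ => Bn n M (V M i) ^ (2 - ((inc s t i).card : ℤ)))
          Filter.atTop (nhds (((2 * cos (Real.pi * v i)) ^ (n - 2)) ^
            (2 - ((inc s t i).card : ℤ)))) :=
        (BnB8_lim n (v i) (fun M => V M i) (hV i)).zpow₀ _
          (Or.inl (pow_ne_zero _ (hcos i)))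
      have hq : Filter.Tendsto (fun M : ℕ => ∏ j ∈ inc s t i, ((M : ℂ) *
          Qo n M (some (Y M j)) (V M i) * exp (-M * po (some (Y M j)) (V M i)))) Filter.atTop
          (nhds (∏ _j ∈ inc s t i, (1 : ℂ))) := by
        refine tendsto_finsetProd _ fun j _ => ?_
        refine GNl8_Qo n y (v i) j Y (fun M => V M i) hY (hV i) ?_
        intro z hz
        have hz' : y j = z := Option.some.inj hz
        subst hz'
        have h1 := abs_le.1 (hy j)
        have h2 := abs_le.1 (hv i)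
        rw [Complex.sub_re, Complex.add_re]
        refine ⟨by linarith [h1.1, h2.2], by linarith [h1.2, h2.1], by linarith [h1.1, h2.1],
          by linarith [h1.2, h2.2]⟩
      rw [Finset.prod_const_one] at hq
      have hA := Om_tendsto n (fun M => V M i) (v i).im (him i) (fun M => hVim M i)
      have h1 : Filter.Tendsto (fun M : ℕ => (1 - ww n M (V M i)) ^ 2) Filter.atTop
          (nhds ((1 - 0) ^ 2)) := (tendsto_const_nhds.sub hA).pow 2
      rw [sub_zero, one_pow] at h1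
      have h2 := h1.inv₀ one_ne_zero
      rw [inv_one] at h2
      have h3 : Filter.Tendsto (fun M : ℕ => 1 / (1 - ww n M (V M i)) ^ 2) Filter.atTop
          (nhds 1) := h2.congr fun M => by rw [one_div]
      have h4 := ((hs.mul hb).mul hq).mul h3
      rw [mul_one, mul_one] at h4
      exact h4
    refine (hCc.mul hK).congr' ?_
    filter_upwards [Filter.eventually_ge_atTop 1] with M hM
    have hM0 : (M : ℂ) ≠ 0 := by
      have : M ≠ 0 := by omega
      exact_mod_cast this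
    have hVG : exp (-M * VG s t r (Y M) (V M)) =
        (∏ j, exp (-M * (4 * ff (Y M j + 1 / 2)))) *
        ∏ i : Fin p, exp (-M * WG (r i) (inc s t i) (Y M) (V M i)) := by
      rw [← Complex.exp_sum, ← Complex.exp_sum, ← Complex.exp_add]
      congr 1
      unfold VG
      rw [mul_add, Finset.mul_sum, Finset.mul_sum]
    have hP1 : (∏ j : Fin m, (Cc n g M (Y M j) / (M : ℂ) ^ 2 *
        exp (-M * (4 * ff (Y M j + 1 / 2))))) = (∏ j, Cc n g M (Y M j)) / (M : ℂ) ^ (2 * m) *
        ∏ j, exp (-M * (4 * ff (Y M j + 1 / 2))) := by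
      rw [Finset.prod_mul_distrib, Finset.prod_div_distrib, Finset.prod_const, Finset.card_univ,
        Fintype.card_fin, ← pow_mul]
    have hMM : ∏ i, ∏ _j ∈ inc s t i, (M : ℂ) = (M : ℂ) ^ (2 * m) := by
      rw [prod_inc s t hst (fun _ _ => (M : ℂ)), Finset.prod_const, Finset.card_univ,
        Fintype.card_fin, ← pow_two, ← pow_mul]
    have hP2 : (∏ i : Fin p, (2 * sin (2 * Real.pi * V M i) *
        Bn n M (V M i) ^ (2 - ((inc s t i).card : ℤ)) *
        (∏ j ∈ inc s t i, ((M : ℂ) * Qo n M (some (Y M j)) (V M i) *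
          exp (-M * po (some (Y M j)) (V M i)))) * (1 / (1 - ww n M (V M i)) ^ 2))) =
        ((-1 : ℂ) ^ (M + n + 1)) ^ p * (∏ i : Fin p, (KG8 (r i) n M (inc s t i) (Y M) (V M i) *
          om n M (V M i))) * (M : ℂ) ^ (2 * m) *
        ∏ i : Fin p, exp (-M * WG (r i) (inc s t i) (Y M) (V M i)) := by
      rw [← hMM]
      have hc : ((-1 : ℂ) ^ (M + n + 1)) ^ p = ∏ _i : Fin p, (-1 : ℂ) ^ (M + n + 1) := by
        rw [Finset.prod_const, Finset.card_univ, Fintype.card_fin]
      rw [hc, ← Finset.prod_mul_distrib, ← Finset.prod_mul_distrib, ← Finset.prod_mul_distrib]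
      exact Finset.prod_congr rfl fun i _ =>
        (GNl8_fac (r i) n M (inc s t i) (Y M) (V M i)).symm
    rw [hP1, hP2, hVG]
    unfold GN8
    rw [Finset.compl_empty, Finset.compl_empty]
    have hMp : (M : ℂ) ^ (2 * m) ≠ 0 := pow_ne_zero _ hM0
    generalize (∏ j, Cc n g M (Y M j)) = a1
    generalize (∏ j : Fin m, exp (-M * (4 * ff (Y M j + 1 / 2)))) = a2
    generalize (∏ i : Fin p, (KG8 (r i) n M (inc s t i) (Y M) (V M i) * om n M (V M i))) = a3
    generalize (∏ i : Fin p, exp (-M * WG (r i) (inc s t i) (Y M) (V M i))) = a4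
    generalize ((-1 : ℂ) ^ (M + n + 1)) ^ p = a5
    generalize (M : ℂ) ^ (2 * m) = a6 at hMp ⊢
    field_simp

end Pool.Agent.H63.VC8
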