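import Pool.Agent.H63.VC8.JGmain8
import Pool.Agent.H63.VC8.MainG8
import Pool.Agent.H63.VC7.JGlim
import Pool.Agent.H63.VC3.JNlim

/-! # The asymptotics of the invariant -/

namespace Pool.Agent.H63.VC8

open Pool.Agent.H63.VC hiding ext
open Pool.Agent.H63.VC3 Pool.Agent.H63.VC4 Pool.Agent.H63.VC6 Pool.Agent.H63.VC7 Complex Filter Topology

variable {m p : ℕ}

/-- The product of the prefactors of the nodes. -/
theorem JGlim8_cG (r : Fin p → ℤ) (n g M : ℕ) :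
    ∏ i, (-(-1) ^ (n + g) * cG8 (r i) n M / (4 * Real.pi * (Dg n g M : ℂ))) =
      (-(-1) ^ (n + g)) ^ p * exp ((∑ i, (r i : ℂ)) * (2 * (Real.pi * I * bt n -
        Real.pi * I * M / 4 - Real.pi * I * (bt n : ℂ) ^ 2 / M))) /
        ((4 * Real.pi) ^ p * (Dg n g M : ℂ) ^ p) := by
  rw [Finset.prod_div_distrib, Finset.prod_mul_distrib, Finset.prod_const, Finset.prod_const,
    Finset.card_univ, Fintype.card_fin, Finset.sum_mul, Complex.exp_sum, mul_pow]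
  congr 2
  refine Finset.prod_congr rfl fun i _ => ?_
  unfold cG8
  congr 1
  ring

/-- The phase at infinity. -/
theorem JGlim8_c (A : ℂ) :
    Tendsto (fun M : ℕ => exp (-(A / (M : ℂ)))) atTop (𝓝 1) := by
  have h1 : Tendsto (fun M : ℕ => ((M : ℂ))⁻¹) atTop (𝓝 0) :=
    tendsto_inv_atTop_nhds_zero_nat (𝕜 := ℂ)
  have h2 : Tendsto (fun M : ℕ => -A * ((M : ℂ))⁻¹) atTop (𝓝 0) := by
    simpa using h1.const_mul (-A)
  have h3 := (Complex.continuous_exp.tendsto 0).comp h2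
  rw [exp_zero] at h3
  refine h3.congr fun M => ?_
  simp only [Function.comp_apply]
  congr 1
  rw [div_eq_mul_inv]
  ring

/-- The powers of `M`. -/
theorem JGlim8_powR (m p n M : ℕ) (hn : 2 ≤ n) (hM : 0 < M) :
    ((M : ℝ) ^ (2 * n - 4)) ^ p / ((M : ℝ) ^ (2 * n - 4)) ^ m / (M : ℝ) ^ (2 * m) /
      (M : ℝ) ^ ((2 * (n : ℝ) - 5 / 2) * ((p : ℝ) - m)) =
    (M : ℝ) ^ (-(3 / 2 * (p : ℝ) + 1 / 2 * m)) := by
  have hMp : (0 : ℝ) < M := by exact_mod_cast hM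
  rw [← pow_mul, ← pow_mul, ← Real.rpow_natCast (M : ℝ) ((2 * n - 4) * p),
    ← Real.rpow_natCast (M : ℝ) ((2 * n - 4) * m),
    ← Real.rpow_natCast (M : ℝ) (2 * m), ← Real.rpow_sub hMp,
    ← Real.rpow_sub hMp, ← Real.rpow_sub hMp]
  congr 1
  rw [Nat.cast_mul, Nat.cast_mul, Nat.cast_mul, Nat.cast_sub (by omega)]
  push_cast
  ring

theorem JGlim8_pow (m p n M : ℕ) (hn : 2 ≤ n) (hM : 0 < M) :
    (M : ℂ) ^ (2 * p) * (M : ℂ) ^ m * (((M : ℂ) ^ (2 * n - 4)) ^ p /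
      ((M : ℂ) ^ (2 * n - 4)) ^ m / (M : ℂ) ^ (2 * m) /
      (((M : ℝ) ^ ((2 * (n : ℝ) - 5 / 2) * ((p : ℝ) - m)) : ℝ) : ℂ)) =
    (((M : ℝ) ^ (((m : ℝ) + p) / 2) : ℝ) : ℂ) := by
  have hMp : (0 : ℝ) < M := by exact_mod_cast hM
  have h : (M : ℝ) ^ (2 * p) * (M : ℝ) ^ m * (((M : ℝ) ^ (2 * n - 4)) ^ p /
      ((M : ℝ) ^ (2 * n - 4)) ^ m / (M : ℝ) ^ (2 * m) /
      (M : ℝ) ^ ((2 * (n : ℝ) - 5 / 2) * ((p : ℝ) - m))) = (M : ℝ) ^ (((m : ℝ) + p) / 2) := by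
    rw [JGlim8_powR m p n M hn hM, ← Real.rpow_natCast (M : ℝ) (2 * p),
      ← Real.rpow_natCast (M : ℝ) m, ← Real.rpow_add hMp, ← Real.rpow_add hMp]
    congr 1
    push_cast
    ring
  have h' := congrArg (fun x : ℝ => (x : ℂ)) h
  push_cast at h' ⊢
  exact h'

theorem JG8_lim (s t : Fin m → Fin p) (r : Fin p → ℤ) (y : Fin m → ℂ) (v : Fin p → ℂ)
    (n g : ℕ) (hn : 2 ≤ n) (hg : 1 ≤ g) (hgn : g < n)
    (hc : CritG s t (fun i => (r i : ℝ)) y v) :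
    ∃ κ : ℂ, κ ≠ 0 ∧ Tendsto (fun M : ℕ =>
      ((∏ i, (-(-1) ^ (n + g) * cG8 (r i) n M / (4 * Real.pi * (Dg n g M : ℂ)))) *
        ((Dg n g M : ℂ) / (M : ℂ) ^ 2) ^ m * JG8 s t (fun i => (r i : ℝ)) n g M) /
      ((((M : ℝ) ^ ((2 * (n : ℝ) - 5 / 2) * ((p : ℝ) - m)) : ℝ) : ℂ) *
        exp (M * (VG s t (fun i => (r i : ℝ)) y v - Real.pi * I / 2 * (∑ i, (r i : ℂ)) +
          Real.pi * I * p)))) atTop (𝓝 κ) := by
  obtain ⟨k1, k2, l1, l2, hwin⟩ := win_exists n hn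
  obtain ⟨K, hK, hKlim⟩ := main_limG8 s t (fun i => (r i : ℝ)) y v n g hn hg hgn hc k1 k2 l1 l2
    hwin
  obtain ⟨C, hC, D, M0, hmain⟩ := JG8_main n g hn hg hgn hc
  obtain ⟨mi, hmi⟩ : ∃ mi : ℕ → ℂ, ∀ M, mi M = MG8 s t (fun i => (r i : ℝ)) n g M
      (fun j => (y j).im) (fun i => (v i).im) ((k1 M + bt n) / M - 1 / 2)
      ((k2 M + 1 + bt n) / M - 1 / 2) (rho n M (l2 M)) := ⟨_, fun _ => rfl⟩
  simp only [← hmi] at hKlim
  obtain ⟨J, hJ⟩ : ∃ J : ℕ → ℂ, ∀ M, J M = JG8 s t (fun i => (r i : ℝ)) n g M :=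
    ⟨_, fun _ => rfl⟩
  obtain ⟨V, hV⟩ : ∃ V, V = VG s t (fun i => (r i : ℝ)) y v := ⟨_, rfl⟩
  have herr : ∀ᶠ M : ℕ in atTop, ‖J M - (-(4 * Real.pi * I * M ^ 2)) ^ p *
      ((M : ℂ) ^ m * mi M)‖ ≤ C * (M : ℝ) ^ D * Real.exp (M * (V.re - 1 / 500)) := by
    filter_upwards [hwin, eventually_ge_atTop M0] with M hw hM0
    rw [hJ, hmi, hV]
    exact hmain M (k1 M) (k2 M) (l1 M) (l2 M) hM0 hw
  rw [← hV] at hKlim
  simp only [← hJ, ← hV, JGlim8_cG]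
  clear hmi hmain hJ hV
  obtain ⟨R, hR⟩ : ∃ R : ℝ, R = ∑ i, (r i : ℝ) := ⟨_, rfl⟩
  have hRC : ∑ i, (r i : ℂ) = (R : ℂ) := by rw [hR]; push_cast; rfl
  rw [hRC]
  clear hR hRC
  -- the constants
  have hDlim : Tendsto (fun M : ℕ => Dg n g M * (M : ℝ) ^ (2 * n - 4)) atTop
      (𝓝 (((2 * Real.pi) ^ (g - 1) * (Nat.factorial (g - 1) : ℝ)) *
        ((2 * Real.pi) ^ (n - g - 1) * (Nat.factorial (n - g - 1) : ℝ)) *
        ((2 * Real.pi) ^ (n - 2) * (Nat.factorial (n - 2) : ℝ)))) := by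
    refine (((S_lim (g - 1)).mul (S_lim (n - g - 1))).mul (S_lim (n - 2))).congr fun M => ?_
    unfold Dg
    have e : 2 * n - 4 = (g - 1) + (n - g - 1) + (n - 2) := by omega
    rw [e, pow_add, pow_add]
    ring
  obtain ⟨c, hcd⟩ : ∃ c, c = ((2 * Real.pi) ^ (g - 1) * (Nat.factorial (g - 1) : ℝ)) *
        ((2 * Real.pi) ^ (n - g - 1) * (Nat.factorial (n - g - 1) : ℝ)) *
        ((2 * Real.pi) ^ (n - 2) * (Nat.factorial (n - 2) : ℝ)) := ⟨_, rfl⟩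
  rw [← hcd] at hDlim
  have hc0 : 0 < c := by
    rw [hcd]
    positivity
  clear hcd
  obtain ⟨X, hX⟩ : ∃ X : ℕ → ℝ, ∀ M, X M = Dg n g M * (M : ℝ) ^ (2 * n - 4) := ⟨_, fun _ => rfl⟩
  simp only [← hX] at hDlim
  obtain ⟨Z, hZ⟩ : ∃ Z : ℕ → ℂ, ∀ M, Z M = ((X M ^ m / X M ^ p : ℝ) : ℂ) := ⟨_, fun _ => rfl⟩
  have hZlim : Tendsto Z atTop (𝓝 ((c ^ m / c ^ p : ℝ) : ℂ)) := by
    have h1 := (hDlim.pow m).div (hDlim.pow p) (pow_ne_zero p hc0.ne')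
    have h2 := (Complex.continuous_ofReal.tendsto _).comp h1
    refine h2.congr fun M => ?_
    rw [hZ]
    rfl
  -- the prefactor
  obtain ⟨P, hP⟩ : ∃ P : ℕ → ℂ, ∀ M, P M =
      (-(-1) ^ (n + g)) ^ p * exp ((R : ℂ) * (2 * (Real.pi * I * bt n -
        Real.pi * I * M / 4 - Real.pi * I * (bt n : ℂ) ^ 2 / M))) /
        ((4 * Real.pi) ^ p * (Dg n g M : ℂ) ^ p) * ((Dg n g M : ℂ) / (M : ℂ) ^ 2) ^ m /
        ((((M : ℝ) ^ ((2 * (n : ℝ) - 5 / 2) * ((p : ℝ) - m)) : ℝ) : ℂ) *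
        exp (M * (V - Real.pi * I / 2 * R + Real.pi * I * p))) := ⟨_, fun _ => rfl⟩
  have h4 : (4 * Real.pi : ℂ) ≠ 0 := by
    have : (Real.pi : ℂ) ≠ 0 := by exact_mod_cast Real.pi_ne_zero
    exact mul_ne_zero (by norm_num) this
  obtain ⟨A, hA⟩ : ∃ A : ℂ, A = R * (2 * (Real.pi * I * (bt n : ℂ) ^ 2)) := ⟨_, rfl⟩
  obtain ⟨Y, hY⟩ : ∃ Y : ℂ, Y = (-(-1) ^ (n + g)) ^ p * exp (R * (2 * (Real.pi * I * bt n))) *
    (-I * (-1) ^ (n + 1)) ^ p := ⟨_, rfl⟩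
  have hY0 : Y ≠ 0 := by
    rw [hY]
    refine mul_ne_zero (mul_ne_zero (pow_ne_zero _ (neg_ne_zero.2 (pow_ne_zero _ (by norm_num))))
      (exp_ne_zero _)) (pow_ne_zero _ (mul_ne_zero (neg_ne_zero.2 I_ne_zero)
        (pow_ne_zero _ (by norm_num))))
  refine ⟨Y * (((c ^ m / c ^ p : ℝ) : ℂ) * (1 * K)), mul_ne_zero hY0 (mul_ne_zero ?_
    (by rwa [one_mul])), ?_⟩
  · exact_mod_cast (div_pos (pow_pos hc0 _) (pow_pos hc0 _)).ne'
  have hmainlim := (hZlim.mul ((JGlim8_c A).mul hKlim)).const_mul Y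
  -- the powers
  have hDX : ∀ M : ℕ, n ≤ M → (Dg n g M : ℂ) ^ m / (Dg n g M : ℂ) ^ p / (M : ℂ) ^ (2 * m) /
      (((M : ℝ) ^ ((2 * (n : ℝ) - 5 / 2) * ((p : ℝ) - m)) : ℝ) : ℂ) = Z M *
      (((M : ℂ) ^ (2 * n - 4)) ^ p / ((M : ℂ) ^ (2 * n - 4)) ^ m / (M : ℂ) ^ (2 * m) /
      (((M : ℝ) ^ ((2 * (n : ℝ) - 5 / 2) * ((p : ℝ) - m)) : ℝ) : ℂ)) := by
    intro M hM
    have hMc : (M : ℂ) ≠ 0 := by
      have : M ≠ 0 := by omega
      exact_mod_cast this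
    obtain ⟨hDg, -⟩ := Reduce_Dg n g M hn hg (by omega) hM
    have hDC : (Dg n g M : ℂ) ≠ 0 := by exact_mod_cast hDg.ne'
    rw [hZ, hX]
    push_cast
    have hpn : (M : ℂ) ^ (2 * n - 4) ≠ 0 := pow_ne_zero _ hMc
    generalize (M : ℂ) ^ (2 * n - 4) = x at hpn ⊢
    generalize (Dg n g M : ℂ) = d at hDC ⊢
    generalize ((((M : ℝ) ^ ((2 * (n : ℝ) - 5 / 2) * ((p : ℝ) - m)) : ℝ) : ℂ)) = w
    rw [mul_pow, mul_pow, ← mul_div_assoc, ← mul_div_assoc]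
    congr 2
    field_simp
  -- the main part
  have hmainP : ∀ M : ℕ, n ≤ M → P M * ((-(4 * Real.pi * I * M ^ 2)) ^ p *
      ((M : ℂ) ^ m * mi M)) = Y * (Z M * (exp (-(A / (M : ℂ))) *
      ((((M : ℝ) ^ (((m : ℝ) + p) / 2) : ℝ) : ℂ) *
      ((-1 : ℂ) ^ (M + n + 1)) ^ p * exp (-M * V) * mi M))) := by
    intro M hM
    have hM0 : 0 < M := by omega
    rw [hP, ← JGlim8_pow m p n M hn hM0]
    have hx := hDX M hM
    have e1 : exp ((R : ℂ) * (2 * (Real.pi * I * bt n - Real.pi * I * M / 4 -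
        Real.pi * I * (bt n : ℂ) ^ 2 / M))) =
        exp (R * (2 * (Real.pi * I * bt n))) * exp (-(A / (M : ℂ))) *
        exp (-(M * (Real.pi * I / 2 * R))) := by
      rw [← exp_add, ← exp_add]
      congr 1
      rw [hA]
      ring
    have e2 : (exp (M * (V - Real.pi * I / 2 * R + Real.pi * I * p)))⁻¹ =
        exp (-M * V) * exp (M * (Real.pi * I / 2 * R)) * ((-1 : ℂ) ^ M) ^ p := by
      have h := JGlim_exp M p
      have h2 := JGlim_sq M p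
      have h3 : exp (M * (V - Real.pi * I / 2 * R + Real.pi * I * p)) =
          exp (M * V - M * (Real.pi * I / 2 * R)) * ((-1 : ℂ) ^ M) ^ p := by
        rw [← h, ← exp_add]
        congr 1
        ring
      rw [h3, mul_inv, ← exp_neg]
      have h5 : (((-1 : ℂ) ^ M) ^ p)⁻¹ = ((-1 : ℂ) ^ M) ^ p := by
        rw [inv_eq_of_mul_eq_one_left h2]
      rw [h5, ← exp_add]
      congr 2
      ring
    have e3 : (-(4 * Real.pi * I * M ^ 2) : ℂ) ^ p =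
        (4 * Real.pi) ^ p * (-I) ^ p * (M : ℂ) ^ (2 * p) := by
      rw [pow_mul, ← mul_pow, ← mul_pow]
      congr 1
      ring
    have e4 : (-I : ℂ) ^ p * ((-1 : ℂ) ^ M) ^ p =
        (-I * (-1) ^ (n + 1)) ^ p * ((-1 : ℂ) ^ (M + n + 1)) ^ p := by
      rw [← mul_pow, ← mul_pow]
      congr 1
      rw [show M + n + 1 = (n + 1) + M by ring, pow_add (-1 : ℂ) (n + 1) M]
      have : ((-1 : ℂ) ^ (n + 1)) * (-1) ^ (n + 1) = 1 := by
        rw [← mul_pow]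
        simp
      linear_combination (I * (-1) ^ M) * this
    have e5 : exp (-(M * (Real.pi * I / 2 * R))) * exp (M * (Real.pi * I / 2 * R)) = 1 := by
      rw [← exp_add, neg_add_cancel, exp_zero]
    have h6 : ((4 * Real.pi : ℂ) ^ p)⁻¹ * (4 * Real.pi : ℂ) ^ p = 1 :=
      inv_mul_cancel₀ (pow_ne_zero _ h4)
    have e6 : (-(-1) ^ (n + g)) ^ p * exp ((R : ℂ) * (2 * (Real.pi * I * bt n -
        Real.pi * I * M / 4 - Real.pi * I * (bt n : ℂ) ^ 2 / M))) /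
        ((4 * Real.pi) ^ p * (Dg n g M : ℂ) ^ p) * ((Dg n g M : ℂ) / (M : ℂ) ^ 2) ^ m /
        ((((M : ℝ) ^ ((2 * (n : ℝ) - 5 / 2) * ((p : ℝ) - m)) : ℝ) : ℂ) *
        exp (M * (V - Real.pi * I / 2 * R + Real.pi * I * p))) =
        (-(-1) ^ (n + g)) ^ p * exp ((R : ℂ) * (2 * (Real.pi * I * bt n -
        Real.pi * I * M / 4 - Real.pi * I * (bt n : ℂ) ^ 2 / M))) *
        ((4 * Real.pi : ℂ) ^ p)⁻¹ * (exp (M * (V - Real.pi * I / 2 * R + Real.pi * I * p)))⁻¹ *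
        ((Dg n g M : ℂ) ^ m / (Dg n g M : ℂ) ^ p / (M : ℂ) ^ (2 * m) /
      (((M : ℝ) ^ ((2 * (n : ℝ) - 5 / 2) * ((p : ℝ) - m)) : ℝ) : ℂ)) := by
      rw [div_pow, pow_mul]
      simp only [div_eq_mul_inv, mul_inv]
      ring
    rw [e6, hx, e1, e2, e3, hY]
    clear e6 e3 e2 e1 hx
    revert e4 e5 h6
    generalize exp ((R : ℂ) * (2 * (Real.pi * I * bt n))) = x1
    generalize exp (-(A / (M : ℂ))) = x2
    generalize exp (-((M : ℂ) * (Real.pi * I / 2 * R))) = x3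
    generalize exp ((M : ℂ) * (Real.pi * I / 2 * R)) = x4
    generalize exp (-(M : ℂ) * V) = x5
    generalize ((4 * Real.pi : ℂ) ^ p)⁻¹ = x6
    generalize (4 * Real.pi : ℂ) ^ p = x7
    generalize ((M : ℂ) ^ (2 * n - 4)) ^ p / ((M : ℂ) ^ (2 * n - 4)) ^ m / (M : ℂ) ^ (2 * m) /
      (((M : ℝ) ^ ((2 * (n : ℝ) - 5 / 2) * ((p : ℝ) - m)) : ℝ) : ℂ) = x8
    generalize ((-1 : ℂ) ^ M) ^ p = x10
    generalize ((-1 : ℂ) ^ (M + n + 1)) ^ p = x11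
    generalize (-I : ℂ) ^ p = x12
    generalize (-I * (-1 : ℂ) ^ (n + 1)) ^ p = x13
    generalize (M : ℂ) ^ (2 * p) = x14
    generalize (M : ℂ) ^ m = x15
    generalize (-(-1 : ℂ) ^ (n + g)) ^ p = x16
    intro e4 e5 h6
    linear_combination (x16 * x1 * x2 * x5 * x8 * x14 * x15 * mi M * Z M) *
      (x12 * x10 * x3 * x4 * h6 + x12 * x10 * e5 + e4)
  -- the error
  have hcomp : ∀ᶠ M : ℕ in atTop, ‖P M * J M - Y * (Z M * (exp (-(A / (M : ℂ))) *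
      ((((M : ℝ) ^ (((m : ℝ) + p) / 2) : ℝ) : ℂ) *
      ((-1 : ℂ) ^ (M + n + 1)) ^ p * exp (-M * V) * mi M)))‖ ≤
      ‖Z M‖ * (C * (M : ℝ) ^ D * Real.exp (-(M / 500))) := by
    filter_upwards [herr, eventually_ge_atTop n] with M h1 hM
    have hM0 : 0 < M := by omega
    have hMr : (1 : ℝ) ≤ M := by exact_mod_cast hM0
    have hMp : (0 : ℝ) < M := by linarith
    rw [← hmainP M hM, ← mul_sub, norm_mul]
    have hPn : ‖P M‖ ≤ ‖Z M‖ * Real.exp (-(M * V.re)) := by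
      have e6 : (-(-1) ^ (n + g)) ^ p * exp ((R : ℂ) * (2 * (Real.pi * I * bt n -
        Real.pi * I * M / 4 - Real.pi * I * (bt n : ℂ) ^ 2 / M))) /
        ((4 * Real.pi) ^ p * (Dg n g M : ℂ) ^ p) * ((Dg n g M : ℂ) / (M : ℂ) ^ 2) ^ m /
        ((((M : ℝ) ^ ((2 * (n : ℝ) - 5 / 2) * ((p : ℝ) - m)) : ℝ) : ℂ) *
        exp (M * (V - Real.pi * I / 2 * R + Real.pi * I * p))) =
        (-(-1) ^ (n + g)) ^ p * exp ((R : ℂ) * (2 * (Real.pi * I * bt n -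
        Real.pi * I * M / 4 - Real.pi * I * (bt n : ℂ) ^ 2 / M))) *
        ((4 * Real.pi : ℂ) ^ p)⁻¹ * (exp (M * (V - Real.pi * I / 2 * R + Real.pi * I * p)))⁻¹ *
        ((Dg n g M : ℂ) ^ m / (Dg n g M : ℂ) ^ p / (M : ℂ) ^ (2 * m) /
      (((M : ℝ) ^ ((2 * (n : ℝ) - 5 / 2) * ((p : ℝ) - m)) : ℝ) : ℂ)) := by
        rw [div_pow, pow_mul]
        simp only [div_eq_mul_inv, mul_inv]
        ring
      rw [hP, e6, hDX M hM]
      clear e6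
      have n0 : ‖(-(-1 : ℂ) ^ (n + g)) ^ p‖ = 1 := by simp
      have n1 : ‖exp ((R : ℂ) * (2 * (Real.pi * I * bt n - Real.pi * I * M / 4 -
          Real.pi * I * (bt n : ℂ) ^ 2 / M)))‖ = 1 := by
        have : ((R : ℂ) * (2 * (Real.pi * I * bt n - Real.pi * I * M / 4 -
          Real.pi * I * (bt n : ℂ) ^ 2 / M))) =
          ((R * (2 * (Real.pi * bt n - Real.pi * M / 4 - Real.pi * bt n ^ 2 / M)) : ℝ) : ℂ) *
            I := by
          push_cast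
          ring
        rw [this, Complex.norm_exp_ofReal_mul_I]
      have n2 : (1 : ℝ) ≤ ‖(4 * Real.pi : ℂ) ^ p‖ := by
        rw [norm_pow]
        apply one_le_pow₀
        have : (4 * Real.pi : ℂ) = ((4 * Real.pi : ℝ) : ℂ) := by push_cast; ring
        rw [this, Complex.norm_real, Real.norm_of_nonneg (by positivity)]
        have := Real.pi_gt_three
        linarith
      have n7 : ‖((4 * Real.pi : ℂ) ^ p)⁻¹‖ ≤ 1 := by
        rw [norm_inv]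
        exact inv_le_one_of_one_le₀ n2
      have n5 : ‖(exp (M * (V - Real.pi * I / 2 * R + Real.pi * I * p)))⁻¹‖ =
          Real.exp (-(M * V.re)) := by
        rw [← exp_neg, Complex.norm_exp]
        congr 1
        have : (-(M * (V - Real.pi * I / 2 * R + Real.pi * I * p)) : ℂ) =
          ((-M : ℝ) : ℂ) * V + ((-(M * (Real.pi * p - Real.pi / 2 * R)) : ℝ) : ℂ) * I := by
          push_cast
          ring
        rw [this, Complex.add_re, Complex.re_ofReal_mul, Complex.re_ofReal_mul, Complex.I_re]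
        ring
      have n8 : ‖(((M : ℂ) ^ (2 * n - 4)) ^ p / ((M : ℂ) ^ (2 * n - 4)) ^ m /
          (M : ℂ) ^ (2 * m) /
          (((M : ℝ) ^ ((2 * (n : ℝ) - 5 / 2) * ((p : ℝ) - m)) : ℝ) : ℂ))‖ ≤ 1 := by
        have h := JGlim8_powR m p n M hn hM0
        have h' := congrArg (fun x : ℝ => (x : ℂ)) h
        push_cast at h'
        have h2 : (((M : ℂ) ^ (2 * n - 4)) ^ p / ((M : ℂ) ^ (2 * n - 4)) ^ m /
          (M : ℂ) ^ (2 * m) /
          (((M : ℝ) ^ ((2 * (n : ℝ) - 5 / 2) * ((p : ℝ) - m)) : ℝ) : ℂ)) =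
          (((M : ℝ) ^ (-(3 / 2 * (p : ℝ) + 1 / 2 * m)) : ℝ) : ℂ) := by
          exact h'
        rw [h2, Complex.norm_real, Real.norm_of_nonneg (by positivity)]
        apply Real.rpow_le_one_of_one_le_of_nonpos hMr
        have h1 : (0 : ℝ) ≤ p := Nat.cast_nonneg p
        have h2 : (0 : ℝ) ≤ m := Nat.cast_nonneg m
        linarith
      rw [norm_mul, norm_mul, norm_mul, norm_mul, norm_mul, n0, n1, n5, one_mul, one_mul]
      calc ‖((4 * Real.pi : ℂ) ^ p)⁻¹‖ * Real.exp (-(M * V.re)) * (‖Z M‖ *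
            ‖(((M : ℂ) ^ (2 * n - 4)) ^ p / ((M : ℂ) ^ (2 * n - 4)) ^ m /
          (M : ℂ) ^ (2 * m) /
          (((M : ℝ) ^ ((2 * (n : ℝ) - 5 / 2) * ((p : ℝ) - m)) : ℝ) : ℂ))‖)
          ≤ 1 * Real.exp (-(M * V.re)) * (‖Z M‖ * 1) := by
            gcongr
        _ = ‖Z M‖ * Real.exp (-(M * V.re)) := by ring
    calc ‖P M‖ * ‖J M - (-(4 * Real.pi * I * M ^ 2)) ^ p * ((M : ℂ) ^ m * mi M)‖
        ≤ (‖Z M‖ * Real.exp (-(M * V.re))) *
          (C * (M : ℝ) ^ D * Real.exp (M * (V.re - 1 / 500))) :=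
          mul_le_mul hPn h1 (norm_nonneg _) (by positivity)
      _ = ‖Z M‖ * (C * (M : ℝ) ^ D * (Real.exp (-(M * V.re)) *
          Real.exp (M * (V.re - 1 / 500)))) := by
          ring
      _ = ‖Z M‖ * (C * (M : ℝ) ^ D * Real.exp (-(M / 500))) := by
          rw [← Real.exp_add]
          congr 3
          ring
  have herr0 := hZlim.norm.mul (JGlim_err C D)
  rw [mul_zero] at herr0
  have hdiff := squeeze_zero_norm' hcomp herr0
  have hsum := hdiff.add hmainlim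
  rw [zero_add] at hsum
  refine hsum.congr fun M => ?_
  rw [sub_add_cancel, hP, mul_comm _ (J M), mul_div_assoc']
  congr 1
  ring

end Pool.Agent.H63.VC8
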