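import Pool.Agent.H63.VC7.Link

/-!
# Plumbings of annuli: colored `SU(n)` invariants

A tree with `p` nodes and `m` edges, the edge `j` joining the nodes `s j` and `t j`, and integers
`r i` describe oriented links: the node `i` is an annulus with `r i` full twists (a twist region with
`2 |r i|` crossings of antiparallel strands), the annuli of adjacent nodes are plumbed together, and
the link is the boundary of the resulting surface.
-/

namespace Pool.Agent.H63.VC8

open Pool.Agent.H63.VC Pool.Agent.H63.VC7 Complex

variable {m p : ℕ}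

/-- The quantum dimension of the component of color `X` of the tensor product of the `N`-th symmetric
power of the fundamental representation of `SU(n)` and its dual. -/
noncomputable def dimA (n : ℕ) (q : ℂ) (X : ℕ) : ℂ :=
  br q ((n : ℤ) + 2 * X - 1) / br q ((n : ℤ) - 1) *
    ∏ i ∈ Finset.range X, (br q ((n : ℤ) + i - 1) / br q ((i : ℤ) + 1)) ^ 2

/-- The quantum dimension of the `N`-th symmetric power. -/
noncomputable def dimS (n N : ℕ) (q : ℂ) : ℂ :=
  ∏ i ∈ Finset.range N, br q ((n : ℤ) + i) / br q ((i : ℤ) + 1)

/-- The normalized quantum 6j-symbol (Racah matrix) for two antiparallel channels. -/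
noncomputable def sixn (n : ℕ) (q : ℂ) (N k l : ℕ) : ℂ :=
  ∑ t ∈ Finset.range (N + 1), (-1) ^ t * ∏ i ∈ Finset.range t,
    (br q ((n : ℤ) + k + i - 1) * br q ((k : ℤ) - i) *
      (br q ((n : ℤ) + l + i - 1) * br q ((l : ℤ) - i))) /
    (br q ((i : ℤ) + 1) * br q ((n : ℤ) + i - 1) * (br q ((n : ℤ) + N + i) * br q ((N : ℤ) - i)))

/-- The state sum for the reduced colored `SU(n)` invariants (color: the `N`-th symmetric power). -/
noncomputable def suTree (s t : Fin m → Fin p) (r : Fin p → ℤ) (n N : ℕ) (q : ℂ) : ℂ :=
  ∑ X ∈ Fintype.piFinset (fun _ : Fin p => Finset.range (N + 1)),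
    (∏ i, q ^ (2 * r i * (X i * (X i + n - 1))) * (dimA n q (X i) / dimS n N q)) *
      ∏ j, sixn n q N (X (s j)) (X (t j))

end Pool.Agent.H63.VC8
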