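import Pool.Agent.H63.VC7.RootLim
import Pool.Agent.H63.VC8.Link8

/-! # Quantum dimensions as trigonometric polynomials -/

namespace Pool.Agent.H63.VC8

open Pool.Agent.H63.VC hiding ext
open Pool.Agent.H63.VC3 Pool.Agent.H63.VC4 Pool.Agent.H63.VC6 Pool.Agent.H63.VC7 Complex Filter Topology

variable {m p : ℕ}

private theorem DimA8_tel (n : ℕ) (hn : 2 ≤ n) (q : ℂ) (X : ℕ)
    (hq : ∀ i : ℕ, 1 ≤ i → i ≤ X + n → br q i ≠ 0) :
    ∏ i ∈ Finset.range X, (br q ((n : ℤ) + i - 1) / br q ((i : ℤ) + 1)) =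
      ∏ u ∈ Finset.range (n - 2), (br q ((X : ℤ) + u + 1) / br q ((u : ℤ) + 1)) := by
  have hq' : ∀ a : ℤ, 1 ≤ a → a ≤ X + n → br q a ≠ 0 := by
    intro a h1 h2
    have h3 := hq a.toNat (by omega) (by omega)
    rwa [show ((a.toNat : ℕ) : ℤ) = a by omega] at h3
  induction X with
  | zero =>
    rw [Finset.prod_range_zero]
    symm
    refine Finset.prod_eq_one fun u hu => ?_
    rw [Finset.mem_range] at hu
    have h1 : br q ((u : ℤ) + 1) ≠ 0 := hq' _ (by omega) (by push_cast; omega)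
    rw [Nat.cast_zero, zero_add, div_self h1]
  | succ X ih =>
    rw [Finset.prod_range_succ, ih (fun i h1 h2 => hq i h1 (by omega))
      (fun a h1 h2 => hq' a h1 (by push_cast; omega)), Finset.prod_div_distrib,
      Finset.prod_div_distrib]
    have hD : ∏ u ∈ Finset.range (n - 2), br q ((u : ℤ) + 1) ≠ 0 := by
      refine Finset.prod_ne_zero_iff.2 fun u hu => ?_
      rw [Finset.mem_range] at hu
      exact hq' _ (by omega) (by push_cast; omega)
    have h1 : br q ((X : ℤ) + 1) ≠ 0 := hq' _ (by omega) (by push_cast; omega)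
    have e : (∏ u ∈ Finset.range (n - 2), br q ((X : ℤ) + u + 1)) * br q ((n : ℤ) + X - 1) =
        br q ((X : ℤ) + 1) * ∏ u ∈ Finset.range (n - 2), br q (((X + 1 : ℕ) : ℤ) + u + 1) := by
      have h2 := Finset.prod_range_succ (fun u : ℕ => br q ((X : ℤ) + u + 1)) (n - 2)
      have h3 := Finset.prod_range_succ' (fun u : ℕ => br q ((X : ℤ) + u + 1)) (n - 2)
      have h4 : br q ((X : ℤ) + ((n - 2 : ℕ) : ℤ) + 1) = br q ((n : ℤ) + X - 1) := by
        congr 1
        omega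
      have h5 : ∏ u ∈ Finset.range (n - 2), br q ((X : ℤ) + ((u + 1 : ℕ) : ℤ) + 1) =
          ∏ u ∈ Finset.range (n - 2), br q (((X + 1 : ℕ) : ℤ) + u + 1) := by
        refine Finset.prod_congr rfl fun u _ => ?_
        congr 1
        push_cast
        ring
      simp only [h4] at h2
      simp only [h5] at h3
      rw [← h2, h3, mul_comm]
      congr 1
    rw [div_mul_div_comm, div_eq_div_iff (mul_ne_zero hD h1) hD, e]
    ring

/-- The quantum dimensions as trigonometric polynomials. -/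
theorem dimA_eq (n : ℕ) (hn : 2 ≤ n) (q : ℂ) (X : ℕ) (hq : ∀ i : ℕ, 1 ≤ i → i ≤ X + n → br q i ≠ 0) :
    dimA n q X = br q ((n : ℤ) + 2 * X - 1) / br q ((n : ℤ) - 1) *
      ∏ u ∈ Finset.range (n - 2), (br q ((X : ℤ) + u + 1) / br q ((u : ℤ) + 1)) ^ 2 := by
  unfold dimA
  rw [Finset.prod_pow, Finset.prod_pow, DimA8_tel n hn q X hq]

private theorem DimA8_br (M k : ℕ) (a : ℤ) (ha : a = k) :
    br (exp (Real.pi * I / (M : ℂ))) a = I * ((sg M k : ℝ) : ℂ) := by
  subst ha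
  rw [RootLim_br, sg]
  push_cast
  ring

private theorem DimA8_S (M k : ℕ) : S M k = ∏ i ∈ Finset.range k, sg M (i + 1) := by
  unfold S
  rw [Finset.prod_Ico_eq_prod_range]
  refine Finset.prod_congr (by simp) fun i _ => ?_
  rw [add_comm]

private theorem DimA8_ne (M : ℕ) (hM : 0 < M) (x : ℂ) (hx : x ≠ 0) :
    ∀ᶠ q in 𝓝[≠] x, br q (M : ℤ) ≠ 0 := by
  have hfin : Set.Finite {q : ℂ | q ^ (2 * M) = 1} := by
    have h1 : (Polynomial.X ^ (2 * M) - Polynomial.C (1 : ℂ)) ≠ 0 :=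
      Polynomial.X_pow_sub_C_ne_zero (by omega) 1
    refine (Polynomial.finite_setOfPred_isRoot h1).subset fun q hq => ?_
    have hq' : q ^ (2 * M) = 1 := hq
    simp [Polynomial.IsRoot, hq']
  have h2 : ∀ᶠ q in 𝓝 x, q ∉ {q : ℂ | q ^ (2 * M) = 1} \ {x} :=
    (hfin.subset Set.sdiff_subset).isClosed.isOpen_compl.mem_nhds (by simp)
  have h3 : ∀ᶠ q in 𝓝 x, q ≠ 0 := isOpen_ne.mem_nhds hx
  filter_upwards [nhdsWithin_le_nhds h2, nhdsWithin_le_nhds h3, self_mem_nhdsWithin]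
    with q hq1 hq2 hq3 hq4
  refine hq1 ⟨?_, hq3⟩
  unfold br at hq4
  rw [zpow_neg, zpow_natCast, sub_eq_zero] at hq4
  change q ^ (2 * M) = 1
  rw [two_mul, pow_add]
  nth_rw 1 [hq4]
  exact inv_mul_cancel₀ (pow_ne_zero _ hq2)

/-- The zero of the quantum dimension of the symmetric power. -/
theorem dimS_lim (n g N : ℕ) (hn : 2 ≤ n) (hg : 1 ≤ g) (hgn : g < n) (hN : n ≤ N) :
    Tendsto (fun q => dimS n N q / br q ((N : ℤ) + g))
      (𝓝[≠] exp (Real.pi * I / ((N + g : ℕ) : ℂ)))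
      (𝓝 (I * (-1) ^ (n + g) * (S (N + g) (n - g - 1) : ℂ) * (S (N + g) (g - 1) : ℂ) /
        (S (N + g) (n - 1) : ℂ))) := by
  obtain ⟨a, ha⟩ : ∃ a, N + g = n + a := ⟨N + g - n, by omega⟩
  obtain ⟨c, hc⟩ : ∃ c, n = g + c + 1 := ⟨n - g - 1, by omega⟩
  have hNac : N = a + (c + 1) := by omega
  have hcc : n - g - 1 = c := by omega
  rw [hcc]
  set M := N + g with hM
  have hM0 : 0 < M := by omega
  set ξ : ℂ := exp (Real.pi * I / (M : ℂ)) with hξ
  have hξ0 : ξ ≠ 0 := exp_ne_zero _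
  -- the factorization
  have hfac : ∀ q : ℂ, dimS n N q =
      ((∏ i ∈ Finset.range a, br q ((n : ℤ) + i)) *
        ((∏ i ∈ Finset.range c, br q ((M : ℤ) + 1 + i)) * br q (M : ℤ))) /
          ∏ i ∈ Finset.range N, br q ((i : ℤ) + 1) := by
    intro q
    unfold dimS
    rw [Finset.prod_div_distrib]
    congr 1
    have h1 := Finset.prod_range_add (fun i : ℕ => br q ((n : ℤ) + i)) a (c + 1)
    rw [← hNac] at h1
    rw [h1, Finset.prod_range_succ']
    have h2 : br q ((n : ℤ) + ((a + 0 : ℕ) : ℤ)) = br q (M : ℤ) := by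
      congr 1
      omega
    have h3 : ∏ i ∈ Finset.range c, br q ((n : ℤ) + ((a + (i + 1) : ℕ) : ℤ)) =
        ∏ i ∈ Finset.range c, br q ((M : ℤ) + 1 + i) := by
      refine Finset.prod_congr rfl fun i _ => ?_
      congr 1
      omega
    rw [h2, h3]
  have hev : (fun q => dimS n N q / br q ((N : ℤ) + g)) =ᶠ[𝓝[≠] ξ] fun q =>
      ((∏ i ∈ Finset.range a, br q ((n : ℤ) + i)) *
        (∏ i ∈ Finset.range c, br q ((M : ℤ) + 1 + i))) /
          ∏ i ∈ Finset.range N, br q ((i : ℤ) + 1) := by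
    filter_upwards [DimA8_ne M hM0 ξ hξ0] with q hq
    have h1 : br q ((N : ℤ) + g) = br q (M : ℤ) := by
      congr 1
    rw [h1, hfac q, ← mul_assoc, div_div, mul_div_mul_right _ _ hq]
  refine Tendsto.congr' hev.symm ?_
  -- the values at the root of unity
  have hcont : ∀ b : ℤ, Tendsto (fun q => br q b) (𝓝 ξ) (𝓝 (br ξ b)) := fun b =>
    RootLim_br_cont ξ hξ0 b
  have hS0 : ∀ k, k < M → ((S M k : ℝ) : ℂ) ≠ 0 := fun k hk => by
    exact_mod_cast (S_pos (M := M) (k := k) hk).ne'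
  have v1 : ∏ i ∈ Finset.range a, br ξ ((n : ℤ) + i) =
      I ^ a * ((∏ i ∈ Finset.range a, sg M (n + i) : ℝ) : ℂ) := by
    rw [Finset.prod_congr rfl fun i _ => DimA8_br M (n + i) ((n : ℤ) + i) (by push_cast; rfl),
      Finset.prod_mul_distrib, Finset.prod_const, Finset.card_range, ofReal_prod]
  have v2 : ∏ i ∈ Finset.range c, br ξ ((M : ℤ) + 1 + i) = (-1) ^ c * I ^ c * ((S M c : ℝ) : ℂ) := by
    have h1 : ∀ i ∈ Finset.range c, br ξ ((M : ℤ) + 1 + i) =
        (-I) * ((sg M (i + 1) : ℝ) : ℂ) := by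
      intro i _
      rw [DimA8_br M (M + 1 + i) ((M : ℤ) + 1 + i) (by push_cast; rfl)]
      have h2 : sg M (M + 1 + i) = -sg M (i + 1) := by
        unfold sg
        have hM' : (M : ℝ) ≠ 0 := by exact_mod_cast hM0.ne'
        have e : Real.pi * ((M + 1 + i : ℕ) : ℝ) / M =
            Real.pi * ((i + 1 : ℕ) : ℝ) / M + Real.pi := by
          push_cast
          field_simp
          ring
        rw [e, Real.sin_add_pi]
        ring
      rw [h2]
      push_cast
      ring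
    rw [Finset.prod_congr rfl h1, Finset.prod_mul_distrib, Finset.prod_const, Finset.card_range,
      DimA8_S, ofReal_prod, neg_pow]
  have v3 : ∏ i ∈ Finset.range N, br ξ ((i : ℤ) + 1) = I ^ N * ((S M N : ℝ) : ℂ) := by
    rw [Finset.prod_congr rfl fun i _ => DimA8_br M (i + 1) ((i : ℤ) + 1) (by push_cast; rfl),
      Finset.prod_mul_distrib, Finset.prod_const, Finset.card_range, DimA8_S, ofReal_prod]
  have hN0 : ((S M N : ℝ) : ℂ) ≠ 0 := hS0 N (by omega)
  have hn0 : ((S M (n - 1) : ℝ) : ℂ) ≠ 0 := hS0 (n - 1) (by omega)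
  have hlim : Tendsto (fun q => ((∏ i ∈ Finset.range a, br q ((n : ℤ) + i)) *
        (∏ i ∈ Finset.range c, br q ((M : ℤ) + 1 + i))) /
          ∏ i ∈ Finset.range N, br q ((i : ℤ) + 1)) (𝓝 ξ)
      (𝓝 (((∏ i ∈ Finset.range a, br ξ ((n : ℤ) + i)) *
        (∏ i ∈ Finset.range c, br ξ ((M : ℤ) + 1 + i))) /
          ∏ i ∈ Finset.range N, br ξ ((i : ℤ) + 1))) := by
    refine ((tendsto_finsetProd _ fun i _ => hcont _).mul
      (tendsto_finsetProd _ fun i _ => hcont _)).div (tendsto_finsetProd _ fun i _ => hcont _) ?_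
    rw [v3]
    exact mul_ne_zero (pow_ne_zero _ I_ne_zero) hN0
  have hval : ((∏ i ∈ Finset.range a, br ξ ((n : ℤ) + i)) *
        (∏ i ∈ Finset.range c, br ξ ((M : ℤ) + 1 + i))) /
          ∏ i ∈ Finset.range N, br ξ ((i : ℤ) + 1) =
      I * (-1) ^ (n + g) * ((S M c : ℝ) : ℂ) * ((S M (g - 1) : ℝ) : ℂ) /
        ((S M (n - 1) : ℝ) : ℂ) := by
    rw [v1, v2, v3]
    have h1 : S M (n - 1) * ∏ i ∈ Finset.range a, sg M (n + i) = M := by
      have h2 := S_split (M := M) (k := n - 1) (l := M - 1) (by omega)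
      rw [S_full M hM0, show n - 1 + 1 = n by omega, show M - 1 + 1 = M by omega,
        Finset.prod_Ico_eq_prod_range, show M - n = a by omega] at h2
      exact h2.symm
    have h3 : S M (g - 1) * S M N = M := by
      have h4 := S_mul (M := M) (k := g - 1) (by omega)
      rwa [show M - 1 - (g - 1) = N by omega] at h4
    have h5 : ((S M (n - 1) : ℝ) : ℂ) * ((∏ i ∈ Finset.range a, sg M (n + i) : ℝ) : ℂ) =
        ((S M (g - 1) : ℝ) : ℂ) * ((S M N : ℝ) : ℂ) := by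
      rw [← ofReal_mul, ← ofReal_mul, h1, h3]
    have h6 : ((-1 : ℂ)) ^ (n + g) = (-1) ^ (c + 1) := by
      rw [show n + g = 2 * g + (c + 1) by omega, pow_add, pow_mul]
      norm_num
    rw [div_eq_div_iff (mul_ne_zero (pow_ne_zero _ I_ne_zero) hN0) hn0, h6]
    have h7 : (I : ℂ) ^ N = I ^ a * I ^ c * I := by
      rw [hNac, pow_add, pow_succ, mul_assoc]
    rw [h7, pow_succ (-1 : ℂ) c]
    linear_combination (I ^ a * ((-1) ^ c * I ^ c * ((S M c : ℝ) : ℂ))) * h5 +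
      ((-1) ^ c * ((S M c : ℝ) : ℂ) * ((S M (g - 1) : ℝ) : ℂ) * (I ^ a * I ^ c) *
        ((S M N : ℝ) : ℂ)) * I_mul_I
  rw [← hval]
  exact hlim.mono_left nhdsWithin_le_nhds

end Pool.Agent.H63.VC8
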