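import Pool.Agent.H63.VC8.Defs8
import Pool.Agent.H63.VC8.DimA8

/-! # The limit of the factor of a node -/

namespace Pool.Agent.H63.VC8

open Pool.Agent.H63.VC hiding ext
open Pool.Agent.H63.VC3 Pool.Agent.H63.VC4 Pool.Agent.H63.VC6 Pool.Agent.H63.VC7 Complex Filter Topology

variable {m p : ℕ}

/-- A parametrization near the root of unity. -/
noncomputable def NodeL08_Q (M : ℕ) (e : ℂ) : ℂ :=
  exp (Real.pi * I * (1 + e) / (M : ℂ))

/-- The phase of a term. -/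
noncomputable def NodeL08_W (r : ℤ) (n M X : ℕ) (e : ℂ) : ℂ :=
  exp (2 * r * (X * (X + n - 1)) * (Real.pi * I * (1 + e) / (M : ℂ)))

/-- The amplitude of a term, as a function of two variables. -/
noncomputable def NodeL08_T (n M : ℕ) (A : Finset (Fin m)) (t : Fin m → ℕ) (w : ℂ × ℂ) : ℂ :=
  sin (2 * Real.pi * w.2) *
    (∏ u ∈ Finset.range (n - 2),
      (-4 * sin (Real.pi * (w.2 + ((u : ℂ) + 1 - bt n) * (1 + w.1) / (M : ℂ))) ^ 2)) *
    ∏ j ∈ A, ∏ i ∈ Finset.range (t j),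
    (-4 * (sin (Real.pi * (w.2 + (i + bt n) * (1 + w.1) / (M : ℂ))) *
      sin (Real.pi * (w.2 - (i + bt n) * (1 + w.1) / (M : ℂ)))))

/-- The position of a term. -/
noncomputable def NodeL08_z (n M X : ℕ) (e : ℂ) : ℂ := (1 + e) * (X + bt n) / (M : ℂ)

/-- A term of the sum. -/
noncomputable def NodeL08_f (r : ℤ) (n M : ℕ) (A : Finset (Fin m)) (t : Fin m → ℕ) (X : ℕ)
    (e : ℂ) : ℂ :=
  NodeL08_Q M e ^ (2 * r * ((X : ℤ) * (X + n - 1))) *
    br (NodeL08_Q M e) ((n : ℤ) + 2 * X - 1) *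
    (∏ u ∈ Finset.range (n - 2), br (NodeL08_Q M e) ((X : ℤ) + u + 1) ^ 2) *
    ∏ j ∈ A, pw8 n (NodeL08_Q M e) (t j) X

theorem NodeL08_zpow (M : ℕ) (e : ℂ) (a : ℤ) :
    NodeL08_Q M e ^ a = exp (a * (Real.pi * I * (1 + e) / (M : ℂ))) := by
  rw [NodeL08_Q, ← Complex.exp_int_mul]

theorem NodeL08_br (M : ℕ) (e : ℂ) (a : ℤ) :
    br (NodeL08_Q M e) a = 2 * I * sin (Real.pi * (a * (1 + e) / (M : ℂ))) := by
  rw [br, NodeL08_zpow, NodeL08_zpow, Complex.sin]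
  have h1 : (a : ℂ) * (Real.pi * I * (1 + e) / (M : ℂ)) =
      (Real.pi * (a * (1 + e) / (M : ℂ))) * I := by ring
  have h2 : ((-a : ℤ) : ℂ) * (Real.pi * I * (1 + e) / (M : ℂ)) =
      -(Real.pi * (a * (1 + e) / (M : ℂ))) * I := by push_cast; ring
  rw [h1, h2]
  linear_combination (exp (Real.pi * (a * (1 + e) / (M : ℂ)) * I) -
    exp (-(Real.pi * (a * (1 + e) / (M : ℂ))) * I)) * Complex.I_mul_I

theorem NodeL08_bt (n : ℕ) : ((bt n : ℝ) : ℂ) = ((n : ℂ) - 1) / 2 := by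
  rw [bt]
  push_cast
  ring

theorem NodeL08_pw (n M t X : ℕ) (e : ℂ) :
    pw8 n (NodeL08_Q M e) t X = ∏ i ∈ Finset.range t,
    (-4 * (sin (Real.pi * (NodeL08_z n M X e + (i + bt n) * (1 + e) / (M : ℂ))) *
      sin (Real.pi * (NodeL08_z n M X e - (i + bt n) * (1 + e) / (M : ℂ))))) := by
  rw [pw8]
  refine Finset.prod_congr rfl fun i _ => ?_
  rw [NodeL08_br, NodeL08_br]
  have h1 : (((n : ℤ) + X + i - 1 : ℤ) : ℂ) * (1 + e) / (M : ℂ) =
      NodeL08_z n M X e + (i + bt n) * (1 + e) / (M : ℂ) := by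
    rw [NodeL08_z, NodeL08_bt]; push_cast; ring
  have h2 : (((X : ℤ) - i : ℤ) : ℂ) * (1 + e) / (M : ℂ) =
      NodeL08_z n M X e - (i + bt n) * (1 + e) / (M : ℂ) := by
    rw [NodeL08_z, NodeL08_bt]; push_cast; ring
  rw [h1, h2]
  linear_combination (4 *
    sin (Real.pi * (NodeL08_z n M X e + (i + bt n) * (1 + e) / (M : ℂ))) *
    sin (Real.pi * (NodeL08_z n M X e - (i + bt n) * (1 + e) / (M : ℂ)))) *
    Complex.I_mul_I

theorem NodeL08_pu (n M X : ℕ) (e : ℂ) :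
    ∏ u ∈ Finset.range (n - 2), br (NodeL08_Q M e) ((X : ℤ) + u + 1) ^ 2 =
    ∏ u ∈ Finset.range (n - 2),
      (-4 * sin (Real.pi * (NodeL08_z n M X e + ((u : ℂ) + 1 - bt n) * (1 + e) / (M : ℂ))) ^ 2) := by
  refine Finset.prod_congr rfl fun u _ => ?_
  rw [NodeL08_br]
  have h1 : (((X : ℤ) + u + 1 : ℤ) : ℂ) * (1 + e) / (M : ℂ) =
      NodeL08_z n M X e + ((u : ℂ) + 1 - bt n) * (1 + e) / (M : ℂ) := by
    rw [NodeL08_z, NodeL08_bt]; push_cast; ring
  rw [h1]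
  linear_combination (4 *
    sin (Real.pi * (NodeL08_z n M X e + ((u : ℂ) + 1 - bt n) * (1 + e) / (M : ℂ))) ^ 2) *
    Complex.I_mul_I

theorem NodeL08_f_eq (r : ℤ) (n M : ℕ) (A : Finset (Fin m)) (t : Fin m → ℕ) (X : ℕ) (e : ℂ) :
    NodeL08_f r n M A t X e =
      NodeL08_W r n M X e * (2 * I * NodeL08_T n M A t (e, NodeL08_z n M X e)) := by
  rw [NodeL08_f, NodeL08_zpow, NodeL08_pu, NodeL08_T, NodeL08_W, NodeL08_br,
    Finset.prod_congr rfl (fun j _ => NodeL08_pw n M (t j) X e)]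
  have h1 : (((n : ℤ) + 2 * X - 1 : ℤ) : ℂ) * (1 + e) / (M : ℂ) =
      2 * NodeL08_z n M X e := by
    rw [NodeL08_z, NodeL08_bt]; push_cast; ring
  have h2 : (Real.pi : ℂ) * (2 * NodeL08_z n M X e) = 2 * Real.pi * NodeL08_z n M X e := by ring
  have h3 : (((2 * r * ((X : ℤ) * (X + n - 1)) : ℤ)) : ℂ) = 2 * r * (X * (X + n - 1)) := by
    push_cast
    ring
  rw [h1, h2, h3]
  ring

theorem NodeL08_T_reflect (n M : ℕ) (A : Finset (Fin m)) (t : Fin m → ℕ) (e z : ℂ) :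
    NodeL08_T n M A t (e, 1 + e - z) = -NodeL08_T n M A t (e, z - e) := by
  simp only [NodeL08_T]
  have h1 : sin (2 * Real.pi * (1 + e - z)) = -sin (2 * Real.pi * (z - e)) := by
    rw [show 2 * (Real.pi : ℂ) * (1 + e - z) = 2 * Real.pi - 2 * Real.pi * (z - e) by ring,
      Complex.sin_two_pi_sub]
  have h2 : ∀ b : ℂ, sin (Real.pi * (1 + e - z + b)) = sin (Real.pi * (z - e - b)) := by
    intro b
    rw [show (Real.pi : ℂ) * (1 + e - z + b) = Real.pi - Real.pi * (z - e - b) by ring,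
      Complex.sin_pi_sub]
  have h3 : ∀ b : ℂ, sin (Real.pi * (1 + e - z - b)) = sin (Real.pi * (z - e + b)) := by
    intro b
    rw [show (Real.pi : ℂ) * (1 + e - z - b) = Real.pi - Real.pi * (z - e + b) by ring,
      Complex.sin_pi_sub]
  have h4 : (∏ u ∈ Finset.range (n - 2),
      (-4 * sin (Real.pi * (1 + e - z + ((u : ℂ) + 1 - bt n) * (1 + e) / (M : ℂ))) ^ 2)) =
      ∏ u ∈ Finset.range (n - 2),
      (-4 * sin (Real.pi * (z - e + ((u : ℂ) + 1 - bt n) * (1 + e) / (M : ℂ))) ^ 2) := by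
    rw [← Finset.prod_range_reflect]
    refine Finset.prod_congr rfl fun u hu => ?_
    have hu' := Finset.mem_range.1 hu
    rw [h2]
    have h5 : ((n - 2 - 1 - u : ℕ) : ℂ) = (n : ℂ) - 3 - u := by
      rw [show n - 2 - 1 - u = n - (3 + u) by omega, Nat.cast_sub (by omega)]
      push_cast
      ring
    have h6 : z - e - (((n - 2 - 1 - u : ℕ) : ℂ) + 1 - bt n) * (1 + e) / (M : ℂ) =
        z - e + ((u : ℂ) + 1 - bt n) * (1 + e) / (M : ℂ) := by
      rw [h5, NodeL08_bt]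
      ring
    rw [h6]
  have h7 : (∏ j ∈ A, ∏ i ∈ Finset.range (t j),
      (-4 * (sin (Real.pi * (1 + e - z + (i + bt n) * (1 + e) / (M : ℂ))) *
        sin (Real.pi * (1 + e - z - (i + bt n) * (1 + e) / (M : ℂ)))))) =
      ∏ j ∈ A, ∏ i ∈ Finset.range (t j),
      (-4 * (sin (Real.pi * (z - e + (i + bt n) * (1 + e) / (M : ℂ))) *
        sin (Real.pi * (z - e - (i + bt n) * (1 + e) / (M : ℂ))))) := by
    refine Finset.prod_congr rfl fun j _ => Finset.prod_congr rfl fun i _ => ?_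
    rw [h2, h3]
    ring
  rw [h1, h4, h7]
  ring

theorem NodeL08_M (M : ℕ) (hM : 0 < M) : (M : ℂ) ≠ 0 := by
  exact_mod_cast hM.ne'

theorem NodeL08_cast (n M X : ℕ) (hX : X + n ≤ M + 1) :
    ((M + 1 - n - X : ℕ) : ℂ) = (M : ℂ) + 1 - n - X := by
  rw [show M + 1 - n - X = M + 1 - (n + X) by omega, Nat.cast_sub (by omega)]
  push_cast
  ring

theorem NodeL08_vl (n M X : ℕ) (hM : 0 < M) :
    (M : ℂ) * ((vl n M X : ℝ) : ℂ) = X + bt n - (M : ℂ) / 2 := by
  have h := NodeL08_M M hM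
  rw [vl]
  push_cast
  field_simp

theorem NodeL08_W_reflect (r : ℤ) (n M X : ℕ) (hM : 0 < M) (hX : X + n ≤ M + 1) (e : ℂ) :
    NodeL08_W r n M (M + 1 - n - X) e = NodeL08_W r n M X e *
      exp (-(4 * Real.pi * I * r * e * ((M : ℂ) * (vl n M X : ℝ)))) := by
  rw [NodeL08_W, NodeL08_W, ← Complex.exp_add, NodeL08_cast n M X hX, NodeL08_vl n M X hM,
    NodeL08_bt, Complex.exp_eq_exp_iff_exists_int]
  refine ⟨r * ((M : ℤ) + 1 - n - 2 * X), ?_⟩
  have h := NodeL08_M M hM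
  push_cast
  field_simp
  ring

theorem NodeL08_z_reflect (n M X : ℕ) (hM : 0 < M) (hX : X + n ≤ M + 1) (e : ℂ) :
    NodeL08_z n M (M + 1 - n - X) e = 1 + e - NodeL08_z n M X e := by
  have h := NodeL08_M M hM
  rw [NodeL08_z, NodeL08_z, NodeL08_cast n M X hX, NodeL08_bt]
  field_simp
  ring

theorem NodeL08_f_reflect (r : ℤ) (n M : ℕ) (A : Finset (Fin m)) (t : Fin m → ℕ) (X : ℕ)
    (hM : 0 < M) (hX : X + n ≤ M + 1) (e : ℂ) :
    NodeL08_f r n M A t (M + 1 - n - X) e = -(NodeL08_W r n M X e *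
      (2 * I * (exp (-(4 * Real.pi * I * r * e * ((M : ℂ) * (vl n M X : ℝ)))) *
        NodeL08_T n M A t (e, NodeL08_z n M X e - e)))) := by
  rw [NodeL08_f_eq, NodeL08_W_reflect r n M X hM hX, NodeL08_z_reflect n M X hM hX,
    NodeL08_T_reflect]
  ring

theorem NodeL08_T_diff (n M : ℕ) (A : Finset (Fin m)) (t : Fin m → ℕ) :
    Differentiable ℂ (NodeL08_T n M A t) := by
  unfold NodeL08_T
  fun_prop

/-- The derivative of a pair of terms. -/
theorem NodeL08_pair (n M : ℕ) (A : Finset (Fin m)) (t : Fin m → ℕ) (z z' c : ℂ) (Z : ℂ → ℂ)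
    (hZ : HasDerivAt Z z' 0) (hz : Z 0 = z) :
    HasDerivAt (fun e => NodeL08_T n M A t (e, Z e) - exp (c * e) * NodeL08_T n M A t (e, Z e - e))
      (fderiv ℂ (NodeL08_T n M A t) (0, z) (0, 1) - c * NodeL08_T n M A t (0, z)) 0 := by
  have hT : HasFDerivAt (NodeL08_T n M A t) (fderiv ℂ (NodeL08_T n M A t) (0, z)) (0, z) :=
    (NodeL08_T_diff n M A t (0, z)).hasFDerivAt
  have h1 : HasDerivAt (fun e : ℂ => (e, Z e)) (1, z') 0 := (hasDerivAt_id 0).prodMk hZ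
  have h2 : HasDerivAt (fun e : ℂ => (e, Z e - e)) (1, z' - 1) 0 :=
    (hasDerivAt_id 0).prodMk (hZ.sub (hasDerivAt_id 0))
  have g1 : HasDerivAt (fun e : ℂ => NodeL08_T n M A t (e, Z e))
      (fderiv ℂ (NodeL08_T n M A t) (0, z) (1, z')) 0 := by
    have := HasFDerivAt.comp_hasDerivAt (x := (0 : ℂ)) (f := fun e : ℂ => (e, Z e))
      (l := NodeL08_T n M A t) (by simpa [hz] using hT) h1
    exact this
  have g2 : HasDerivAt (fun e : ℂ => NodeL08_T n M A t (e, Z e - e))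
      (fderiv ℂ (NodeL08_T n M A t) (0, z) (1, z' - 1)) 0 := by
    have := HasFDerivAt.comp_hasDerivAt (x := (0 : ℂ)) (f := fun e : ℂ => (e, Z e - e))
      (l := NodeL08_T n M A t) (by simpa [hz] using hT) h2
    exact this
  have g3 : HasDerivAt (fun e : ℂ => exp (c * e)) (exp (c * 0) * (c * 1)) 0 :=
    ((hasDerivAt_id (0 : ℂ)).const_mul c).cexp
  have h4 := g1.sub (g3.mul g2)
  refine h4.congr_deriv ?_
  have h5 : fderiv ℂ (NodeL08_T n M A t) (0, z) (1, z') =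
      fderiv ℂ (NodeL08_T n M A t) (0, z) (1, z' - 1) +
        fderiv ℂ (NodeL08_T n M A t) (0, z) (0, 1) := by
    rw [← map_add]
    simp
  rw [h5]
  simp only [mul_zero, Complex.exp_zero, hz, sub_zero]
  ring

/-- The derivative in the second variable, in terms of `NT8`. -/
theorem NodeL08_NT (r : ℤ) (n M : ℕ) (hn : 2 ≤ n) (hM : 0 < M) (A : Finset (Fin m))
    (t : Fin m → ℕ) (ht : ∀ j ∈ A, t j + n ≤ M + 1) (v : ℂ) :
    (∏ j ∈ A, (-1) ^ (t j) * (M : ℂ)) *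
      NT8 (r : ℝ) n M A (fun j => M + 1 - n - t j) v =
    -2 * (-1) ^ n * (exp (2 * Real.pi * I * r * (M : ℂ) * v ^ 2) *
      NodeL08_T n M A t (0, v + 1 / 2)) := by
  have h := NodeL08_M M hM
  have h1 : sin (2 * (Real.pi : ℂ) * (v + 1 / 2)) = -sin (2 * Real.pi * v) := by
    rw [show 2 * (Real.pi : ℂ) * (v + 1 / 2) = 2 * Real.pi * v + Real.pi by ring,
      Complex.sin_add_pi]
  have h2 : ∀ j ∈ A, ∏ i ∈ Finset.range (t j),
      (-4 * (sin (Real.pi * ((v + 1 / 2) + (i + bt n) * (1 + 0) / (M : ℂ))) *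
        sin (Real.pi * ((v + 1 / 2) - (i + bt n) * (1 + 0) / (M : ℂ))))) =
      ((-1) ^ (t j) * (M : ℂ)) * qcn n M (M + 1 - n - t j) v := by
    intro j hj
    have h3 : M + 1 - n - (M + 1 - n - t j) = t j := by
      have := ht j hj
      omega
    rw [qcn, h3]
    have h4 : ∀ i ∈ Finset.range (t j),
        (-4 * (sin (Real.pi * ((v + 1 / 2) + (i + bt n) * (1 + 0) / (M : ℂ))) *
          sin (Real.pi * ((v + 1 / 2) - (i + bt n) * (1 + 0) / (M : ℂ))))) =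
        (-1) * (4 * (cos (Real.pi * (v + (i + bt n) / (M : ℂ))) *
          cos (Real.pi * (v - (i + bt n) / (M : ℂ))))) := by
      intro i _
      have e1 : (Real.pi : ℂ) * ((v + 1 / 2) + (i + bt n) * (1 + 0) / (M : ℂ)) =
          Real.pi * (v + (i + bt n) / (M : ℂ)) + Real.pi / 2 := by ring
      have e2 : (Real.pi : ℂ) * ((v + 1 / 2) - (i + bt n) * (1 + 0) / (M : ℂ)) =
          Real.pi * (v - (i + bt n) / (M : ℂ)) + Real.pi / 2 := by ring
      rw [e1, e2, Complex.sin_add_pi_div_two, Complex.sin_add_pi_div_two]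
      ring
    rw [Finset.prod_congr rfl h4, Finset.prod_mul_distrib, Finset.prod_const,
      Finset.card_range, mul_assoc ((-1 : ℂ) ^ (t j)), ← mul_assoc (M : ℂ),
      mul_one_div_cancel h, one_mul]
  have h7 : (∏ u ∈ Finset.range (n - 2),
      (-4 * sin (Real.pi * ((v + 1 / 2) + ((u : ℂ) + 1 - bt n) * (1 + 0) / (M : ℂ))) ^ 2)) =
      (-1) ^ n * Bn n M v ^ 2 := by
    have h8 : ∀ u ∈ Finset.range (n - 2),
        (-4 * sin (Real.pi * ((v + 1 / 2) + ((u : ℂ) + 1 - bt n) * (1 + 0) / (M : ℂ))) ^ 2) =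
        (-1) * (2 * cos (Real.pi * (v + ((u : ℂ) + 1 - bt n) / (M : ℂ)))) ^ 2 := by
      intro u _
      have e1 : (Real.pi : ℂ) * ((v + 1 / 2) + ((u : ℂ) + 1 - bt n) * (1 + 0) / (M : ℂ)) =
          Real.pi * (v + ((u : ℂ) + 1 - bt n) / (M : ℂ)) + Real.pi / 2 := by ring
      rw [e1, Complex.sin_add_pi_div_two]
      ring
    rw [Finset.prod_congr rfl h8, Finset.prod_mul_distrib, Finset.prod_const,
      Finset.card_range, Bn, Finset.prod_pow]
    congr 1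
    obtain ⟨k, rfl⟩ : ∃ k, n = k + 2 := ⟨n - 2, by omega⟩
    rw [Nat.add_sub_cancel, pow_add]
    norm_num
  rw [NodeL08_T, NT8]
  simp only
  have h6 : ∏ j ∈ A, ((-1) ^ (t j) * (M : ℂ)) * qcn n M (M + 1 - n - t j) v =
      (∏ j ∈ A, (-1) ^ (t j) * (M : ℂ)) * ∏ j ∈ A, qcn n M (M + 1 - n - t j) v :=
    Finset.prod_mul_distrib
  rw [h1, h7, Finset.prod_congr rfl h2, h6]
  have h9 : ((-1 : ℂ) ^ n) * (-1) ^ n = 1 := by
    rw [← mul_pow]
    norm_num
  have h5 : exp (2 * (Real.pi : ℂ) * I * (((r : ℤ) : ℝ) : ℂ) * (M : ℂ) * v ^ 2) =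
      exp (2 * Real.pi * I * r * (M : ℂ) * v ^ 2) := by
    congr 1
  rw [h5]
  linear_combination (-(exp (2 * Real.pi * I * r * (M : ℂ) * v ^ 2)) *
    (2 * sin (2 * Real.pi * v)) * Bn n M v ^ 2 * (∏ j ∈ A, (-1) ^ (t j) * (M : ℂ)) *
      ∏ j ∈ A, qcn n M (M + 1 - n - t j) v) * h9

theorem NodeL08_NT_deriv (r : ℤ) (n M : ℕ) (hn : 2 ≤ n) (hM : 0 < M) (A : Finset (Fin m))
    (t : Fin m → ℕ) (ht : ∀ j ∈ A, t j + n ≤ M + 1) (v : ℂ) :
    (∏ j ∈ A, (-1) ^ (t j) * (M : ℂ)) *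
      deriv (NT8 (r : ℝ) n M A (fun j => M + 1 - n - t j)) v =
    -2 * (-1) ^ n * (exp (2 * Real.pi * I * r * (M : ℂ) * v ^ 2) *
      (fderiv ℂ (NodeL08_T n M A t) (0, v + 1 / 2) (0, 1) +
        4 * Real.pi * I * r * ((M : ℂ) * v) * NodeL08_T n M A t (0, v + 1 / 2))) := by
  rw [← deriv_const_mul_field, show (fun x => (∏ j ∈ A, (-1) ^ (t j) * (M : ℂ)) *
      NT8 (r : ℝ) n M A (fun j => M + 1 - n - t j) x) = fun v =>
      -2 * (-1) ^ n * (exp (2 * Real.pi * I * r * (M : ℂ) * v ^ 2) *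
        NodeL08_T n M A t (0, v + 1 / 2))
      from funext fun x => NodeL08_NT r n M hn hM A t ht x]
  have hT : HasFDerivAt (NodeL08_T n M A t) (fderiv ℂ (NodeL08_T n M A t) (0, v + 1 / 2))
    (0, v + 1 / 2) := (NodeL08_T_diff n M A t _).hasFDerivAt
  have h1 : HasDerivAt (fun w : ℂ => ((0 : ℂ), w + 1 / 2)) (0, 1) v :=
    (hasDerivAt_const v (0 : ℂ)).prodMk ((hasDerivAt_id v).add_const (1 / 2))
  have g1 : HasDerivAt (fun w : ℂ => NodeL08_T n M A t (0, w + 1 / 2))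
      (fderiv ℂ (NodeL08_T n M A t) (0, v + 1 / 2) (0, 1)) v :=
    HasFDerivAt.comp_hasDerivAt (x := v) (f := fun w : ℂ => ((0 : ℂ), w + 1 / 2))
      (l := NodeL08_T n M A t) hT h1
  have g2 : HasDerivAt (fun w : ℂ => exp (2 * Real.pi * I * r * (M : ℂ) * w ^ 2))
      (exp (2 * Real.pi * I * r * (M : ℂ) * v ^ 2) *
        (2 * Real.pi * I * r * (M : ℂ) * (2 * v ^ (2 - 1)))) v := by
    have := ((hasDerivAt_pow 2 v).const_mul (2 * Real.pi * I * r * (M : ℂ))).cexp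
    simpa using this
  have g3 := ((g2.mul g1).const_mul (-2 * (-1) ^ n)).deriv
  refine g3.trans ?_
  ring

theorem NodeL08_W_zero (r : ℤ) (n M X : ℕ) (hM : 0 < M) :
    NodeL08_W r n M X 0 = cG8 r n M *
      exp (2 * Real.pi * I * r * (M : ℂ) * ((vl n M X : ℝ) : ℂ) ^ 2) := by
  have h := NodeL08_M M hM
  have hv : ((vl n M X : ℝ) : ℂ) = (X + bt n) / (M : ℂ) - 1 / 2 := by
    rw [vl]
    push_cast
    ring
  rw [NodeL08_W, cG8, hv, ← Complex.exp_add, NodeL08_bt, Complex.exp_eq_exp_iff_exists_int]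
  refine ⟨r * X, ?_⟩
  push_cast
  field_simp
  ring

theorem NodeL08_z_zero (n M X : ℕ) :
    NodeL08_z n M X 0 = ((vl n M X : ℝ) : ℂ) + 1 / 2 := by
  rw [NodeL08_z, vl]
  push_cast
  ring

/-- The numerator. -/
noncomputable def NodeL08_H (r : ℤ) (n M N : ℕ) (A : Finset (Fin m)) (t : Fin m → ℕ)
    (e : ℂ) : ℂ :=
  ∑ X ∈ Finset.range (N + 1), NodeL08_f r n M A t X e

/-- The symmetric part of the numerator. -/
noncomputable def NodeL08_G (r : ℤ) (n M : ℕ) (A : Finset (Fin m)) (t : Fin m → ℕ)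
    (e : ℂ) : ℂ :=
  ∑ X ∈ Finset.range (M + 2 - n), NodeL08_f r n M A t X e

theorem NodeL08_G_eq (r : ℤ) (n M : ℕ) (hM : 0 < M) (hnM : n ≤ M) (A : Finset (Fin m))
    (t : Fin m → ℕ) (e : ℂ) :
    NodeL08_G r n M A t e = ∑ X ∈ Finset.range (M + 2 - n), I * (NodeL08_W r n M X e *
      (NodeL08_T n M A t (e, NodeL08_z n M X e) -
        exp (-(4 * Real.pi * I * r * ((M : ℂ) * (vl n M X : ℝ))) * e) *
          NodeL08_T n M A t (e, NodeL08_z n M X e - e))) := by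
  have h1 : NodeL08_G r n M A t e =
      ∑ X ∈ Finset.range (M + 2 - n), NodeL08_f r n M A t (M + 1 - n - X) e := by
    rw [NodeL08_G, ← Finset.sum_range_reflect]
    refine Finset.sum_congr rfl fun X _ => ?_
    rw [show M + 2 - n - 1 - X = M + 1 - n - X by omega]
  have h2 : 2 * NodeL08_G r n M A t e = ∑ X ∈ Finset.range (M + 2 - n),
      (NodeL08_f r n M A t X e + NodeL08_f r n M A t (M + 1 - n - X) e) := by
    rw [Finset.sum_add_distrib, ← h1, NodeL08_G]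
    ring
  have h3 : ∀ X ∈ Finset.range (M + 2 - n),
      NodeL08_f r n M A t X e + NodeL08_f r n M A t (M + 1 - n - X) e =
      2 * (I * (NodeL08_W r n M X e *
      (NodeL08_T n M A t (e, NodeL08_z n M X e) -
        exp (-(4 * Real.pi * I * r * ((M : ℂ) * (vl n M X : ℝ))) * e) *
          NodeL08_T n M A t (e, NodeL08_z n M X e - e)))) := by
    intro X hX
    have hX' : X + n ≤ M + 1 := by
      have := Finset.mem_range.1 hX
      omega
    rw [NodeL08_f_eq, NodeL08_f_reflect r n M A t X hM hX' e]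
    have h4 : -(4 * Real.pi * I * r * ((M : ℂ) * (vl n M X : ℝ))) * e =
        -(4 * Real.pi * I * r * e * ((M : ℂ) * (vl n M X : ℝ))) := by ring
    rw [h4]
    ring
  rw [Finset.sum_congr rfl h3, ← Finset.mul_sum] at h2
  exact mul_left_cancel₀ two_ne_zero h2

theorem NodeL08_G_zero (r : ℤ) (n M : ℕ) (hM : 0 < M) (hnM : n ≤ M) (A : Finset (Fin m))
    (t : Fin m → ℕ) : NodeL08_G r n M A t 0 = 0 := by
  rw [NodeL08_G_eq r n M hM hnM]
  refine Finset.sum_eq_zero fun X _ => ?_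
  simp

theorem NodeL08_G_deriv (r : ℤ) (n M : ℕ) (hn : 2 ≤ n) (hM : 0 < M) (hnM : n ≤ M)
    (A : Finset (Fin m)) (t : Fin m → ℕ) (ht : ∀ j ∈ A, t j + n ≤ M + 1) :
    HasDerivAt (NodeL08_G r n M A t) (-(I / 2) * (-1) ^ n * cG8 r n M *
      (∏ j ∈ A, (-1) ^ (t j) * (M : ℂ)) *
        DG8 (r : ℝ) n M A (fun j => M + 1 - n - t j)) 0 := by
  have h9 : ((-1 : ℂ) ^ n) * (-1) ^ n = 1 := by
    rw [← mul_pow]
    norm_num
  have h1 : ∀ X ∈ Finset.range (M + 2 - n), HasDerivAt (fun e => I * (NodeL08_W r n M X e *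
      (NodeL08_T n M A t (e, NodeL08_z n M X e) -
        exp (-(4 * Real.pi * I * r * ((M : ℂ) * (vl n M X : ℝ))) * e) *
          NodeL08_T n M A t (e, NodeL08_z n M X e - e))))
      (-(I / 2) * (-1) ^ n * cG8 r n M * (∏ j ∈ A, (-1) ^ (t j) * (M : ℂ)) *
        deriv (NT8 (r : ℝ) n M A (fun j => M + 1 - n - t j)) ((vl n M X : ℝ) : ℂ)) 0 := by
    intro X _
    have hW : HasDerivAt (NodeL08_W r n M X) (deriv (NodeL08_W r n M X) 0) 0 := by
      have : Differentiable ℂ (NodeL08_W r n M X) := by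
        unfold NodeL08_W
        fun_prop
      exact (this 0).hasDerivAt
    have hZ : HasDerivAt (NodeL08_z n M X) (deriv (NodeL08_z n M X) 0) 0 := by
      have : Differentiable ℂ (NodeL08_z n M X) := by
        unfold NodeL08_z
        fun_prop
      exact (this 0).hasDerivAt
    have hD := NodeL08_pair n M A t (((vl n M X : ℝ) : ℂ) + 1 / 2) _
      (-(4 * Real.pi * I * r * ((M : ℂ) * (vl n M X : ℝ)))) _ hZ
      (NodeL08_z_zero n M X)
    have h2 := (hW.mul hD).const_mul I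
    refine h2.congr_deriv ?_
    have h3 := NodeL08_NT_deriv r n M hn hM A t ht ((vl n M X : ℝ) : ℂ)
    rw [NodeL08_W_zero r n M X hM]
    simp only [mul_zero, Complex.exp_zero, sub_zero, one_mul, sub_self, zero_add]
    linear_combination ((I / 2) * (-1) ^ n * cG8 r n M) * h3 +
      (-(I * cG8 r n M * (exp (2 * Real.pi * I * r * (M : ℂ) * ((vl n M X : ℝ) : ℂ) ^ 2) *
      (fderiv ℂ (NodeL08_T n M A t) (0, ((vl n M X : ℝ) : ℂ) + 1 / 2) (0, 1) +
        4 * Real.pi * I * r * ((M : ℂ) * ((vl n M X : ℝ) : ℂ)) *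
          NodeL08_T n M A t (0, ((vl n M X : ℝ) : ℂ) + 1 / 2))))) * h9
  have h4 := HasDerivAt.fun_sum h1
  have h5 : NodeL08_G r n M A t = fun e => ∑ X ∈ Finset.range (M + 2 - n),
      I * (NodeL08_W r n M X e *
      (NodeL08_T n M A t (e, NodeL08_z n M X e) -
        exp (-(4 * Real.pi * I * r * ((M : ℂ) * (vl n M X : ℝ))) * e) *
          NodeL08_T n M A t (e, NodeL08_z n M X e - e))) :=
    funext fun e => NodeL08_G_eq r n M hM hnM A t e
  rw [h5, DG8, Finset.mul_sum]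
  exact h4

theorem NodeL08_B (M : ℕ) (hM : 0 < M) (e : ℂ) :
    br (NodeL08_Q M e) (M : ℤ) = -(2 * I * sin (Real.pi * e)) := by
  have h := NodeL08_M M hM
  rw [NodeL08_br]
  have h1 : (Real.pi : ℂ) * (((M : ℤ) : ℂ) * (1 + e) / (M : ℂ)) =
      Real.pi * e + Real.pi := by
    push_cast
    field_simp
    ring
  rw [h1, Complex.sin_add_pi]
  ring

theorem NodeL08_f_diff (r : ℤ) (n M : ℕ) (A : Finset (Fin m)) (t : Fin m → ℕ) (X : ℕ) :
    Differentiable ℂ (NodeL08_f r n M A t X) := by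
  have h : NodeL08_f r n M A t X = fun e =>
      NodeL08_W r n M X e * (2 * I * NodeL08_T n M A t (e, NodeL08_z n M X e)) :=
    funext fun e => NodeL08_f_eq r n M A t X e
  rw [h]
  have h1 : Differentiable ℂ (NodeL08_W r n M X) := by
    unfold NodeL08_W
    fun_prop
  have h2 : Differentiable ℂ (NodeL08_z n M X) := by
    unfold NodeL08_z
    fun_prop
  have h3 : Differentiable ℂ (fun e => NodeL08_T n M A t (e, NodeL08_z n M X e)) :=
    (NodeL08_T_diff n M A t).comp (differentiable_id.prodMk h2)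
  exact h1.mul ((differentiable_const _).mul h3)

/-- The terms outside of the symmetric range have a double zero. -/
theorem NodeL08_outer (r : ℤ) (n M : ℕ) (hM : 0 < M) (A : Finset (Fin m)) (t : Fin m → ℕ)
    (X : ℕ) (h1 : M + 2 ≤ X + n) (h2 : X < M) :
    NodeL08_f r n M A t X 0 = 0 ∧ HasDerivAt (NodeL08_f r n M A t X) 0 0 := by
  have hu : M - X - 1 ∈ Finset.range (n - 2) := by
    rw [Finset.mem_range]
    omega
  have hc : ((X : ℤ) + ((M - X - 1 : ℕ) : ℤ) + 1) = (M : ℤ) := by omega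
  set R : ℂ → ℂ := fun e => NodeL08_Q M e ^ (2 * r * ((X : ℤ) * (X + n - 1))) *
    br (NodeL08_Q M e) ((n : ℤ) + 2 * X - 1) *
    (∏ u ∈ (Finset.range (n - 2)).erase (M - X - 1),
      br (NodeL08_Q M e) ((X : ℤ) + u + 1) ^ 2) *
    ∏ j ∈ A, pw8 n (NodeL08_Q M e) (t j) X with hR
  have hfR : NodeL08_f r n M A t X = fun e => R e * (2 * I * sin (Real.pi * e)) ^ 2 := by
    funext e
    rw [NodeL08_f, ← Finset.mul_prod_erase _ _ hu, hc, NodeL08_B M hM, hR]
    ring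
  have hbr : ∀ a : ℤ, Differentiable ℂ (fun e => br (NodeL08_Q M e) a) := by
    intro a
    have : (fun e => br (NodeL08_Q M e) a) =
        fun e => 2 * I * sin (Real.pi * (a * (1 + e) / (M : ℂ))) :=
      funext fun e => NodeL08_br M e a
    rw [this]
    fun_prop
  have hzp : ∀ a : ℤ, Differentiable ℂ (fun e => NodeL08_Q M e ^ a) := by
    intro a
    have : (fun e => NodeL08_Q M e ^ a) =
        fun e => exp (a * (Real.pi * I * (1 + e) / (M : ℂ))) :=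
      funext fun e => NodeL08_zpow M e a
    rw [this]
    fun_prop
  have hpw : ∀ k : ℕ, Differentiable ℂ (fun e => pw8 n (NodeL08_Q M e) k X) := by
    intro k
    unfold pw8
    exact Differentiable.fun_finsetProd fun i _ => (hbr _).mul (hbr _)
  have hRd : Differentiable ℂ R := by
    rw [hR]
    refine ((((hzp _).mul (hbr _)).mul ?_).mul ?_)
    · exact Differentiable.fun_finsetProd fun u _ => (hbr _).pow 2
    · exact Differentiable.fun_finsetProd fun j _ => hpw _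
  constructor
  · rw [hfR]
    simp
  · rw [hfR]
    have g1 : HasDerivAt (fun e : ℂ => (2 * I * sin (Real.pi * e)) ^ 2) 0 0 := by
      have := ((((hasDerivAt_id (0 : ℂ)).const_mul (Real.pi : ℂ)).csin.const_mul (2 * I))).pow 2
      refine this.congr_deriv ?_
      simp
    have g2 := (hRd 0).hasDerivAt.mul g1
    refine g2.congr_deriv ?_
    simp

theorem NodeL08_H_split (r : ℤ) (n g N : ℕ) (hg : 1 ≤ g) (hgn : g < n)
    (A : Finset (Fin m)) (t : Fin m → ℕ) (e : ℂ) :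
    NodeL08_H r n (N + g) N A t e = NodeL08_G r n (N + g) A t e +
      ∑ X ∈ Finset.range (N + 1) \ Finset.range (N + g + 2 - n),
        NodeL08_f r n (N + g) A t X e := by
  have h := Finset.sum_sdiff (f := fun X => NodeL08_f r n (N + g) A t X e)
    (Finset.range_mono (by omega : N + g + 2 - n ≤ N + 1))
  rw [NodeL08_H, NodeL08_G, ← h]
  ring

theorem NodeL08_H_zero (r : ℤ) (n g N : ℕ) (hn : 2 ≤ n) (hg : 1 ≤ g) (hgn : g < n)
    (hN : n ≤ N) (A : Finset (Fin m)) (t : Fin m → ℕ) :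
    NodeL08_H r n (N + g) N A t 0 = 0 := by
  rw [NodeL08_H_split r n g N hg hgn, NodeL08_G_zero r n (N + g) (by omega) (by omega), zero_add]
  refine Finset.sum_eq_zero fun X hX => ?_
  rw [Finset.mem_sdiff, Finset.mem_range, Finset.mem_range] at hX
  exact (NodeL08_outer r n (N + g) (by omega) A t X (by omega) (by omega)).1

theorem NodeL08_H_deriv (r : ℤ) (n g N : ℕ) (hn : 2 ≤ n) (hg : 1 ≤ g) (hgn : g < n)
    (hN : n ≤ N) (A : Finset (Fin m)) (t : Fin m → ℕ) (ht : ∀ j ∈ A, t j + n ≤ N + g + 1) :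
    HasDerivAt (NodeL08_H r n (N + g) N A t) (-(I / 2) * (-1) ^ n * cG8 r n (N + g) *
      (∏ j ∈ A, (-1) ^ (t j) * ((N + g : ℕ) : ℂ)) *
        DG8 (r : ℝ) n (N + g) A (fun j => N + g + 1 - n - t j)) 0 := by
  have h1 : NodeL08_H r n (N + g) N A t = fun e => NodeL08_G r n (N + g) A t e +
      ∑ X ∈ Finset.range (N + 1) \ Finset.range (N + g + 2 - n),
        NodeL08_f r n (N + g) A t X e :=
    funext fun e => NodeL08_H_split r n g N hg hgn A t e
  rw [h1]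
  have h2 := NodeL08_G_deriv r n (N + g) hn (by omega) (by omega) A t ht
  have h3 : ∀ X ∈ Finset.range (N + 1) \ Finset.range (N + g + 2 - n),
      HasDerivAt (NodeL08_f r n (N + g) A t X) 0 0 := by
    intro X hX
    rw [Finset.mem_sdiff, Finset.mem_range, Finset.mem_range] at hX
    exact (NodeL08_outer r n (N + g) (by omega) A t X (by omega) (by omega)).2
  have h4 := h2.add (HasDerivAt.fun_sum h3)
  refine h4.congr_deriv ?_
  rw [Finset.sum_const_zero, add_zero]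

/-- Small brackets do not vanish near the root of unity. -/
theorem NodeL08_br_ne (M : ℕ) (hM : 0 < M) (i : ℕ) (h1 : 1 ≤ i) (h2 : i < 2 * M) :
    ∀ᶠ e in 𝓝[≠] (0 : ℂ), br (NodeL08_Q M e) i ≠ 0 := by
  have hpi : (Real.pi : ℂ) ≠ 0 := by exact_mod_cast Real.pi_ne_zero
  have h := NodeL08_M M hM
  by_cases hi : i = M
  · subst hi
    have h3 : HasDerivAt (fun e : ℂ => sin (Real.pi * e)) (Real.pi : ℂ) 0 := by
      have := ((hasDerivAt_id (0 : ℂ)).const_mul (Real.pi : ℂ)).csin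
      refine this.congr_deriv ?_
      simp
    have h4 := h3.eventually_ne (c := 0) hpi
    filter_upwards [h4] with e he
    rw [NodeL08_B i hM]
    simpa [Complex.I_ne_zero] using he
  · have h5 : sin (Real.pi * ((i : ℤ) * (1 + (0 : ℂ)) / (M : ℂ))) ≠ 0 := by
      rw [Ne, Complex.sin_eq_zero_iff]
      rintro ⟨k, hk⟩
      have h6 : (i : ℂ) = k * M := by
        have h7 : (Real.pi : ℂ) * ((i : ℤ) * (1 + (0 : ℂ)) / (M : ℂ)) = Real.pi * (k : ℂ) := by
          rw [hk]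
          ring
        have h8 := mul_left_cancel₀ hpi h7
        field_simp at h8
        push_cast at h8
        linear_combination h8
      have h9 : (i : ℤ) = k * M := by exact_mod_cast h6
      have h10 : 0 < k := by
        by_contra hk0
        push Not at hk0
        have : k * (M : ℤ) ≤ 0 := mul_nonpos_of_nonpos_of_nonneg hk0 (by positivity)
        omega
      have h11 : k < 2 := by
        by_contra hk0
        push Not at hk0
        have : 2 * (M : ℤ) ≤ k * M := mul_le_mul_of_nonneg_right hk0 (by positivity)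
        omega
      have h12 : k = 1 := by omega
      rw [h12] at h9
      omega
    have h6 : ContinuousAt (fun e : ℂ => sin (Real.pi * ((i : ℤ) * (1 + e) / (M : ℂ)))) 0 := by
      fun_prop
    have h7 := (h6.eventually_ne h5).filter_mono (nhdsWithin_le_nhds (s := {0}ᶜ))
    filter_upwards [h7] with e he
    rw [NodeL08_br]
    simpa [Complex.I_ne_zero] using he

/-- The inverse parametrization. -/
noncomputable def NodeL08_E (M : ℕ) (q : ℂ) : ℂ :=
  Complex.log (q / exp (Real.pi * I / (M : ℂ))) * ((M : ℂ) / (Real.pi * I))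

theorem NodeL08_QE (M : ℕ) (hM : 0 < M) (q : ℂ) (hq : q ≠ 0) :
    NodeL08_Q M (NodeL08_E M q) = q := by
  have h := NodeL08_M M hM
  have hI := Complex.I_ne_zero
  have hpi : (Real.pi : ℂ) ≠ 0 := by exact_mod_cast Real.pi_ne_zero
  have hξ0 : exp (Real.pi * I / (M : ℂ)) ≠ 0 := Complex.exp_ne_zero _
  rw [NodeL08_Q, NodeL08_E]
  have h1 : Real.pi * I * (1 + Complex.log (q / exp (Real.pi * I / (M : ℂ))) *
      ((M : ℂ) / (Real.pi * I))) / (M : ℂ) =
      Real.pi * I / (M : ℂ) + Complex.log (q / exp (Real.pi * I / (M : ℂ))) := by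
    field_simp
  rw [h1, Complex.exp_add, Complex.exp_log (div_ne_zero hq hξ0)]
  field_simp

theorem NodeL08_Et (M : ℕ) (hM : 0 < M) :
    Tendsto (NodeL08_E M) (𝓝[≠] exp (Real.pi * I / (M : ℂ))) (𝓝[≠] 0) := by
  set ξ : ℂ := exp (Real.pi * I / (M : ℂ)) with hξ
  have hξ0 : ξ ≠ 0 := Complex.exp_ne_zero _
  have hQ0 : NodeL08_Q M 0 = ξ := by
    rw [NodeL08_Q, hξ]
    congr 1
    ring
  have hEt : Tendsto (NodeL08_E M) (𝓝 ξ) (𝓝 0) := by
    have h1 : ContinuousAt (NodeL08_E M) ξ := by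
      unfold NodeL08_E
      refine ContinuousAt.mul (ContinuousAt.clog (by fun_prop) ?_) continuousAt_const
      rw [← hξ, div_self hξ0]
      exact Complex.one_mem_slitPlane
    have h2 : NodeL08_E M ξ = 0 := by
      rw [NodeL08_E, ← hξ, div_self hξ0, Complex.log_one, zero_mul]
    have := h1.tendsto
    rwa [h2] at this
  have hq0 : ∀ᶠ q in 𝓝[≠] ξ, q ≠ 0 :=
    (eventually_ne_nhds hξ0).filter_mono nhdsWithin_le_nhds
  rw [tendsto_nhdsWithin_iff]
  refine ⟨hEt.mono_left nhdsWithin_le_nhds, ?_⟩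
  filter_upwards [self_mem_nhdsWithin, hq0] with q hq hq'
  intro h
  apply hq
  have h1 := NodeL08_QE M hM q hq'
  rw [Set.mem_singleton_iff] at h
  rw [h, hQ0] at h1
  exact h1.symm

theorem NodeL08_br_ne' (M : ℕ) (hM : 0 < M) (i : ℕ) (h1 : 1 ≤ i) (h2 : i < 2 * M) :
    ∀ᶠ q in 𝓝[≠] exp (Real.pi * I / (M : ℂ)), br q i ≠ 0 := by
  have hq0 : ∀ᶠ q in 𝓝[≠] exp (Real.pi * I / (M : ℂ)), q ≠ 0 :=
    (eventually_ne_nhds (Complex.exp_ne_zero _)).filter_mono nhdsWithin_le_nhds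
  filter_upwards [(NodeL08_Et M hM).eventually (NodeL08_br_ne M hM i h1 h2), hq0] with q hq hq'
  rwa [NodeL08_QE M hM q hq'] at hq

theorem NodeL08_br_at (M a : ℕ) :
    br (exp (Real.pi * I / (M : ℂ))) (a : ℤ) = I * (sg M a : ℂ) := by
  have h1 := NodeL08_br M 0 (a : ℤ)
  have h2 : NodeL08_Q M 0 = exp (Real.pi * I / (M : ℂ)) := by
    rw [NodeL08_Q]
    congr 1
    ring
  rw [h2] at h1
  rw [h1, sg]
  push_cast
  have h3 : (Real.pi : ℂ) * ((a : ℂ) * (1 + 0) / (M : ℂ)) = Real.pi * a / M := by ring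
  rw [h3]
  ring

theorem NodeL08_br_cont (ξ : ℂ) (hξ : ξ ≠ 0) (a : ℤ) :
    Tendsto (fun q => br q a) (𝓝[≠] ξ) (𝓝 (br ξ a)) := by
  have h : ContinuousAt (fun q => br q a) ξ := by
    unfold br
    exact (continuousAt_zpow₀ ξ a (Or.inl hξ)).sub (continuousAt_zpow₀ ξ (-a) (Or.inl hξ))
  exact h.tendsto.mono_left nhdsWithin_le_nhds

theorem NodeL08_NF (r : ℤ) (n N M : ℕ) (hn : 2 ≤ n) (hM : 0 < M) (A : Finset (Fin m))
    (t : Fin m → ℕ) (q : ℂ) (hq0 : q ≠ 0) (hq : ∀ i ∈ Finset.Icc 1 (N + n), br q ((i : ℕ) : ℤ) ≠ 0)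
    (hqM : br q (M : ℤ) ≠ 0) :
    NF8 r n N q A t = NodeL08_H r n M N A t (NodeL08_E M q) / br q (M : ℤ) *
      (br q ((n : ℤ) - 1) * (∏ u ∈ Finset.range (n - 2), br q ((u : ℤ) + 1) ^ 2) *
        (dimS n N q / br q (M : ℤ)))⁻¹ := by
  have h1 : ∀ X ∈ Finset.range (N + 1), q ^ (2 * r * ((X : ℤ) * (X + n - 1))) *
      (dimA n q X / dimS n N q) * ∏ j ∈ A, pw8 n q (t j) X =
      NodeL08_f r n M A t X (NodeL08_E M q) *
      (br q ((n : ℤ) - 1) * (∏ u ∈ Finset.range (n - 2), br q ((u : ℤ) + 1) ^ 2) *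
        dimS n N q)⁻¹ := by
    intro X hX
    have hX' := Finset.mem_range.1 hX
    rw [dimA_eq n hn q X (fun i hi1 hi2 => hq i (Finset.mem_Icc.2 ⟨hi1, by omega⟩)),
      NodeL08_f, NodeL08_QE M hM q hq0]
    have h2 : ∏ u ∈ Finset.range (n - 2), (br q ((X : ℤ) + u + 1) / br q ((u : ℤ) + 1)) ^ 2 =
        (∏ u ∈ Finset.range (n - 2), br q ((X : ℤ) + u + 1) ^ 2) /
          ∏ u ∈ Finset.range (n - 2), br q ((u : ℤ) + 1) ^ 2 := by
      rw [← Finset.prod_div_distrib]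
      exact Finset.prod_congr rfl fun u _ => div_pow _ _ _
    rw [h2]
    simp only [div_eq_mul_inv, mul_inv]
    ring
  rw [NF8, Finset.sum_congr rfl h1, ← Finset.sum_mul, NodeL08_H]
  simp only [div_eq_mul_inv, mul_inv, inv_inv]
  field_simp

theorem NodeL08_const (n g N : ℕ) (hn : 2 ≤ n) (hg : 1 ≤ g) (hgn : g < n) (hN : n ≤ N)
    (c P D : ℂ) :
    (-(I / 2) * (-1) ^ n * c * P * D) / (-(2 * I * Real.pi)) *
      ((I * (sg (N + g) (n - 1) : ℂ)) *
        (∏ u ∈ Finset.range (n - 2), (I * (sg (N + g) (u + 1) : ℂ)) ^ 2) *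
        (I * (-1) ^ (n + g) * (S (N + g) (n - g - 1) : ℂ) * (S (N + g) (g - 1) : ℂ) /
        (S (N + g) (n - 1) : ℂ)))⁻¹ =
    -(-1) ^ (n + g) * c / (4 * Real.pi * (Dg n g (N + g) : ℂ)) * P * D := by
  have hpi : (Real.pi : ℂ) ≠ 0 := by exact_mod_cast Real.pi_ne_zero
  have hI := Complex.I_ne_zero
  have h1 : (∏ u ∈ Finset.range (n - 2), (I * (sg (N + g) (u + 1) : ℂ)) ^ 2) =
      (-1) ^ n * (S (N + g) (n - 2) : ℂ) ^ 2 := by
    have h2 : ∀ u ∈ Finset.range (n - 2), (I * (sg (N + g) (u + 1) : ℂ)) ^ 2 =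
        (-1) * ((sg (N + g) (u + 1) : ℂ)) ^ 2 := by
      intro u _
      rw [mul_pow, Complex.I_sq]
    rw [Finset.prod_congr rfl h2, Finset.prod_mul_distrib, Finset.prod_const, Finset.card_range,
      Finset.prod_pow, S, Finset.prod_Ico_eq_prod_range]
    have h3 : (-1 : ℂ) ^ (n - 2) = (-1) ^ n := by
      obtain ⟨k, rfl⟩ : ∃ k, n = k + 2 := ⟨n - 2, by omega⟩
      rw [Nat.add_sub_cancel, pow_add]
      norm_num
    rw [h3, show n - 2 + 1 - 1 = n - 2 by omega]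
    push_cast
    congr 2
    exact Finset.prod_congr rfl fun u _ => by rw [add_comm 1 u]
  have h4 : S (N + g) (n - 1) = S (N + g) (n - 2) * sg (N + g) (n - 1) := by
    rw [S, S, show n - 1 + 1 = (n - 2 + 1) + 1 by omega, Finset.prod_Ico_succ_top (by omega),
      show n - 2 + 1 = n - 1 by omega]
  have e1 : (S (N + g) (n - 2) : ℂ) ≠ 0 := by
    exact_mod_cast (S_pos (by omega : n - 2 < N + g)).ne'
  have e2 : (S (N + g) (n - g - 1) : ℂ) ≠ 0 := by
    exact_mod_cast (S_pos (by omega : n - g - 1 < N + g)).ne'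
  have e3 : (S (N + g) (g - 1) : ℂ) ≠ 0 := by
    exact_mod_cast (S_pos (by omega : g - 1 < N + g)).ne'
  have e4 : (sg (N + g) (n - 1) : ℂ) ≠ 0 := by
    exact_mod_cast (sg_pos (by omega : 1 ≤ n - 1) (by omega : n - 1 < N + g)).ne'
  rw [h1, h4, Dg]
  push_cast
  set a : ℂ := (S (N + g) (n - 2) : ℂ)
  set b : ℂ := (S (N + g) (n - g - 1) : ℂ)
  set d : ℂ := (S (N + g) (g - 1) : ℂ)
  set s : ℂ := (sg (N + g) (n - 1) : ℂ)
  have hs1 : ((-1 : ℂ) ^ n) ≠ 0 := pow_ne_zero _ (by norm_num)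
  have hs2 : ((-1 : ℂ) ^ g) ≠ 0 := pow_ne_zero _ (by norm_num)
  have hg2 : ((-1 : ℂ) ^ g) * (-1) ^ g = 1 := by
    rw [← mul_pow]
    norm_num
  have hn2 : ((-1 : ℂ) ^ n) * (-1) ^ n = 1 := by
    rw [← mul_pow]
    norm_num
  have h5 : I * s * ((-1) ^ n * a ^ 2) * (I * (-1) ^ (n + g) * b * d / (a * s)) =
      -((-1) ^ g) * a * b * d := by
    have h7 : I * s * ((-1) ^ n * a ^ 2) * (I * (-1) ^ (n + g) * b * d / (a * s)) =
        (I * I) * ((-1) ^ n * (-1) ^ n) * (-1) ^ g * a * b * d := by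
      rw [pow_add, mul_div_assoc', div_eq_iff (mul_ne_zero e1 e4)]
      ring
    rw [h7, Complex.I_mul_I, hn2]
    ring
  have h40 : (4 : ℂ) ≠ 0 := by norm_num
  rw [h5, pow_add]
  have h6 : -(I / 2) * (-1) ^ n * c * P * D / (-(2 * I * Real.pi)) =
      (-1) ^ n * c * P * D / (4 * Real.pi) := by
    rw [div_eq_div_iff (neg_ne_zero.2 (mul_ne_zero (mul_ne_zero two_ne_zero hI) hpi))
      (mul_ne_zero h40 hpi)]
    ring
  rw [h6, div_mul_eq_mul_div, ← div_eq_mul_inv, div_div, div_mul_eq_mul_div, div_mul_eq_mul_div,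
    div_eq_div_iff (by
      refine mul_ne_zero ?_ (mul_ne_zero h40 hpi)
      exact mul_ne_zero (mul_ne_zero (mul_ne_zero (neg_ne_zero.2 hs2) e1) e2) e3)
      (mul_ne_zero (mul_ne_zero h40 hpi) (mul_ne_zero (mul_ne_zero e3 e2) e1))]
  linear_combination (-(-1) ^ n * c * P * D * (4 * Real.pi) * (a * b * d)) * hg2

theorem node_lim8 (r : ℤ) (n g N : ℕ) (hn : 2 ≤ n) (hg : 1 ≤ g) (hgn : g < n) (hN : n ≤ N)
    (A : Finset (Fin m)) (t : Fin m → ℕ) (ht : ∀ j ∈ A, t j + n ≤ N + g + 1) :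
    Tendsto (fun q => NF8 r n N q A t) (𝓝[≠] exp (Real.pi * I / ((N + g : ℕ) : ℂ)))
      (𝓝 (-(-1) ^ (n + g) * cG8 r n (N + g) / (4 * Real.pi * (Dg n g (N + g) : ℂ)) *
        (∏ j ∈ A, (-1) ^ (t j) * ((N + g : ℕ) : ℂ)) *
        DG8 (r : ℝ) n (N + g) A (fun j => N + g + 1 - n - t j))) := by
  have hM0 : 0 < N + g := by omega
  have hM := NodeL08_M (N + g) hM0
  have hpi : (Real.pi : ℂ) ≠ 0 := by exact_mod_cast Real.pi_ne_zero
  set ξ : ℂ := exp (Real.pi * I / ((N + g : ℕ) : ℂ)) with hξ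
  have hξ0 : ξ ≠ 0 := Complex.exp_ne_zero _
  have hq0 : ∀ᶠ q in 𝓝[≠] ξ, q ≠ 0 :=
    (eventually_ne_nhds hξ0).filter_mono nhdsWithin_le_nhds
  -- the numerator
  have h1 := hasDerivAt_iff_tendsto_slope.1 (NodeL08_H_deriv r n g N hn hg hgn hN A t ht)
  have h2 : HasDerivAt (fun e : ℂ => -(2 * I * sin (Real.pi * e))) (-(2 * I * Real.pi)) 0 := by
    have := (((hasDerivAt_id (0 : ℂ)).const_mul (Real.pi : ℂ)).csin.const_mul (2 * I)).neg
    refine this.congr_deriv ?_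
    simp
  have h3 := hasDerivAt_iff_tendsto_slope.1 h2
  have h4 := h1.div h3 (by simp [hpi, Complex.I_ne_zero])
  have h5 := h4.comp (NodeL08_Et (N + g) hM0)
  have h6 : Tendsto (fun q => NodeL08_H r n (N + g) N A t (NodeL08_E (N + g) q) /
      br q ((N + g : ℕ) : ℤ)) (𝓝[≠] ξ)
      (𝓝 ((-(I / 2) * (-1) ^ n * cG8 r n (N + g) *
      (∏ j ∈ A, (-1) ^ (t j) * ((N + g : ℕ) : ℂ)) *
        DG8 (r : ℝ) n (N + g) A (fun j => N + g + 1 - n - t j)) / (-(2 * I * Real.pi)))) := by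
    refine h5.congr' ?_
    have h7 : ∀ᶠ q in 𝓝[≠] ξ, NodeL08_E (N + g) q ∈ ({0}ᶜ : Set ℂ) :=
      (NodeL08_Et (N + g) hM0).eventually self_mem_nhdsWithin
    filter_upwards [hq0, h7] with q hq hE
    have he' : NodeL08_E (N + g) q ≠ 0 := hE
    have hB := NodeL08_B (N + g) hM0 (NodeL08_E (N + g) q)
    rw [NodeL08_QE (N + g) hM0 q hq] at hB
    simp only [Function.comp, Pi.div_apply, slope, vsub_eq_sub, smul_eq_mul, sub_zero,
      NodeL08_H_zero r n g N hn hg hgn hN, mul_zero, Complex.sin_zero, neg_zero]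
    rw [mul_div_mul_left _ _ (inv_ne_zero he'), hB]
  -- the prefactor
  have g1 : Tendsto (fun q => br q ((n : ℤ) - 1)) (𝓝[≠] ξ)
      (𝓝 (I * (sg (N + g) (n - 1) : ℂ))) := by
    have h8 : br ξ ((n : ℤ) - 1) = I * (sg (N + g) (n - 1) : ℂ) := by
      rw [show (n : ℤ) - 1 = ((n - 1 : ℕ) : ℤ) by omega, hξ, NodeL08_br_at]
    have := NodeL08_br_cont ξ hξ0 ((n : ℤ) - 1)
    rwa [h8] at this
  have g2 : Tendsto (fun q => ∏ u ∈ Finset.range (n - 2), br q ((u : ℤ) + 1) ^ 2) (𝓝[≠] ξ)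
      (𝓝 (∏ u ∈ Finset.range (n - 2), (I * (sg (N + g) (u + 1) : ℂ)) ^ 2)) := by
    refine tendsto_finsetProd _ fun u _ => ?_
    have := (NodeL08_br_cont ξ hξ0 ((u : ℤ) + 1)).pow 2
    have h8 : br ξ ((u : ℤ) + 1) = I * (sg (N + g) (u + 1) : ℂ) := by
      have := NodeL08_br_at (N + g) (u + 1)
      rw [hξ, ← this]
      push_cast
      rfl
    rwa [h8] at this
  have g3 := dimS_lim n g N hn hg hgn hN
  have g3' : Tendsto (fun q => dimS n N q / br q ((N + g : ℕ) : ℤ)) (𝓝[≠] ξ)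
      (𝓝 (I * (-1) ^ (n + g) * (S (N + g) (n - g - 1) : ℂ) * (S (N + g) (g - 1) : ℂ) /
        (S (N + g) (n - 1) : ℂ))) := by
    have h8 : ((N + g : ℕ) : ℤ) = (N : ℤ) + g := by push_cast; rfl
    rw [h8]
    exact g3
  have e1 : (S (N + g) (n - 1) : ℂ) ≠ 0 := by
    exact_mod_cast (S_pos (by omega : n - 1 < N + g)).ne'
  have e2 : (S (N + g) (n - g - 1) : ℂ) ≠ 0 := by
    exact_mod_cast (S_pos (by omega : n - g - 1 < N + g)).ne'
  have e3 : (S (N + g) (g - 1) : ℂ) ≠ 0 := by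
    exact_mod_cast (S_pos (by omega : g - 1 < N + g)).ne'
  have e4 : (sg (N + g) (n - 1) : ℂ) ≠ 0 := by
    exact_mod_cast (sg_pos (by omega : 1 ≤ n - 1) (by omega : n - 1 < N + g)).ne'
  have e5 : (∏ u ∈ Finset.range (n - 2), (I * (sg (N + g) (u + 1) : ℂ)) ^ 2) ≠ 0 := by
    refine Finset.prod_ne_zero_iff.2 fun u hu => ?_
    have hu' := Finset.mem_range.1 hu
    refine pow_ne_zero _ (mul_ne_zero Complex.I_ne_zero ?_)
    exact_mod_cast (sg_pos (by omega : 1 ≤ u + 1) (by omega : u + 1 < N + g)).ne'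
  have g4 := ((g1.mul g2).mul g3').inv₀ (by
    refine mul_ne_zero (mul_ne_zero (mul_ne_zero Complex.I_ne_zero e4) e5) ?_
    refine div_ne_zero ?_ e1
    exact mul_ne_zero (mul_ne_zero (mul_ne_zero Complex.I_ne_zero
      (pow_ne_zero _ (by norm_num))) e2) e3)
  have g5 := h6.mul g4
  rw [NodeL08_const n g N hn hg hgn hN] at g5
  refine g5.congr' ?_
  have hne : ∀ᶠ q in 𝓝[≠] ξ, ∀ i ∈ Finset.Icc 1 (N + n), br q ((i : ℕ) : ℤ) ≠ 0 := by
    rw [Filter.eventually_all_finset]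
    intro i hi
    rw [Finset.mem_Icc] at hi
    exact NodeL08_br_ne' (N + g) hM0 i hi.1 (by omega)
  filter_upwards [hq0, hne, NodeL08_br_ne' (N + g) hM0 (N + g) (by omega) (by omega)]
    with q hq hq1 hq2
  exact (NodeL08_NF r n N (N + g) hn hM0 A t q hq hq1 hq2).symm

end Pool.Agent.H63.VC8
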