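import Pool.Agent.H63.VC8.Defs8
import Pool.Agent.H63.VC8.DimA8

/-! # Zeros of the factor of a node -/

namespace Pool.Agent.H63.VC8

open Pool.Agent.H63.VC hiding ext
open Pool.Agent.H63.VC3 Pool.Agent.H63.VC4 Pool.Agent.H63.VC6 Pool.Agent.H63.VC7 Complex Filter Topology

variable {m p : ℕ}

/-- `{a}` without the zero at `a = M`. -/
noncomputable def NodeL18_rho (M : ℕ) (q : ℂ) (a : ℤ) : ℂ := if a = (M : ℤ) then 1 else br q a

theorem NodeL18_rho_mul (M : ℕ) (q : ℂ) (a : ℤ) :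
    br q a = (if a = (M : ℤ) then br q M else 1) * NodeL18_rho M q a := by
  unfold NodeL18_rho
  split_ifs with h
  · rw [h, mul_one]
  · rw [one_mul]

/-- The regular part of the quantum dimension of a channel. -/
noncomputable def NodeL18_R (n M : ℕ) (q : ℂ) (X : ℕ) : ℂ :=
  br q ((n : ℤ) + 2 * X - 1) / br q ((n : ℤ) - 1) *
    ∏ u ∈ Finset.range (n - 2), (NodeL18_rho M q ((X : ℤ) + u + 1) / br q ((u : ℤ) + 1)) ^ 2

/-- The regular part of the quantum dimension of the color. -/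
noncomputable def NodeL18_D (n N M : ℕ) (q : ℂ) : ℂ :=
  ∏ i ∈ Finset.range N, NodeL18_rho M q ((n : ℤ) + i) / br q ((i : ℤ) + 1)

theorem NodeL18_dimS (n N M : ℕ) (hn : n ≤ M) (hM : M < n + N) (q : ℂ) :
    dimS n N q = br q M * NodeL18_D n N M q := by
  unfold dimS NodeL18_D
  have e : ∀ i ∈ Finset.range N, br q ((n : ℤ) + i) / br q ((i : ℤ) + 1) =
      (if i = M - n then br q M else 1) * (NodeL18_rho M q ((n : ℤ) + i) / br q ((i : ℤ) + 1)) := by
    intro i _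
    rw [NodeL18_rho_mul M q ((n : ℤ) + i)]
    have h : ((n : ℤ) + i = (M : ℤ)) ↔ i = M - n := by omega
    simp only [h]
    ring
  rw [Finset.prod_congr rfl e, Finset.prod_mul_distrib, Finset.prod_ite_eq',
    if_pos (Finset.mem_range.2 (by omega))]

theorem NodeL18_dimA (n M X : ℕ) (hn : 2 ≤ n) (h1 : M + 1 < n + X) (h2 : X < M) (q : ℂ)
    (hq : ∀ i : ℕ, 1 ≤ i → i ≤ X + n → br q i ≠ 0) :
    dimA n q X = br q M ^ 2 * NodeL18_R n M q X := by
  rw [dimA_eq n hn q X hq, NodeL18_R]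
  have e : ∀ u ∈ Finset.range (n - 2), (br q ((X : ℤ) + u + 1) / br q ((u : ℤ) + 1)) ^ 2 =
      (if u = M - X - 1 then br q M ^ 2 else 1) *
        (NodeL18_rho M q ((X : ℤ) + u + 1) / br q ((u : ℤ) + 1)) ^ 2 := by
    intro u _
    rw [NodeL18_rho_mul M q ((X : ℤ) + u + 1)]
    have h : ((X : ℤ) + u + 1 = (M : ℤ)) ↔ u = M - X - 1 := by omega
    simp only [h]
    split_ifs <;> ring
  rw [Finset.prod_congr rfl e, Finset.prod_mul_distrib, Finset.prod_ite_eq',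
    if_pos (Finset.mem_range.2 (by omega))]
  ring

/-- A term of the sum, without its zero. -/
noncomputable def NodeL18_f (r : ℤ) (n N M : ℕ) (A : Finset (Fin m)) (t : Fin m → ℕ) (X : ℕ)
    (q : ℂ) : ℂ :=
  q ^ (2 * r * (X * (X + n - 1))) * (NodeL18_R n M q X / NodeL18_D n N M q) *
    ∏ j ∈ A, pw8 n q (t j) X

/-- The sum without its zero. -/
noncomputable def NodeL18_H (r : ℤ) (n N M : ℕ) (A : Finset (Fin m)) (t : Fin m → ℕ) (T : ℕ)
    (q : ℂ) : ℂ :=
  ∑ X ∈ Finset.Icc T N, NodeL18_f r n N M A t X q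

theorem NodeL18_pw_zero (n : ℕ) (q : ℂ) (t X : ℕ) (h : X < t) : pw8 n q t X = 0 := by
  unfold pw8
  apply Finset.prod_eq_zero (Finset.mem_range.2 h)
  simp [br]

theorem NodeL18_NF (r : ℤ) (n g N : ℕ) (hn : 2 ≤ n) (hN : n ≤ N)
    (A : Finset (Fin m)) (t : Fin m → ℕ) (j : Fin m) (hj : j ∈ A) (hl : N + g + 1 < n + t j)
    (hg : 1 ≤ g) (q : ℂ) (hq : ∀ i : ℕ, 1 ≤ i → i ≤ N + n → br q i ≠ 0) :
    NF8 r n N q A t = br q ((N + g : ℕ) : ℤ) * NodeL18_H r n N (N + g) A t (t j) q := by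
  unfold NF8 NodeL18_H
  rw [Finset.mul_sum]
  have hsub : Finset.Icc (t j) N ⊆ Finset.range (N + 1) := by
    intro X hX
    rw [Finset.mem_Icc] at hX
    rw [Finset.mem_range]
    omega
  rw [← Finset.sum_subset hsub]
  · refine Finset.sum_congr rfl fun X hX => ?_
    rw [Finset.mem_Icc] at hX
    have hb : br q ((N + g : ℕ) : ℤ) ≠ 0 := hq (N + g) (by omega) (by omega)
    rw [NodeL18_dimA n (N + g) X hn (by omega) (by omega) q
      (fun i h1 h2 => hq i h1 (by omega)), NodeL18_dimS n N (N + g) (by omega) (by omega) q,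
      NodeL18_f, sq, mul_assoc (br q ((N + g : ℕ) : ℤ)) _ (NodeL18_R n (N + g) q X),
      mul_div_mul_left _ _ hb]
    ring
  · intro X hX1 hX2
    have hX : X < t j := by
      rw [Finset.mem_range] at hX1
      rw [Finset.mem_Icc] at hX2
      omega
    rw [Finset.prod_eq_zero hj (NodeL18_pw_zero n q (t j) X hX), mul_zero]

theorem NodeL18_per (M : ℕ) (hM : 1 ≤ M) (k : ℤ) :
    exp (Real.pi * I / (M : ℂ)) ^ (2 * (M : ℤ) * k) = 1 := by
  rw [← exp_int_mul]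
  have hM' : (M : ℂ) ≠ 0 := by exact_mod_cast (by omega : M ≠ 0)
  have h : ((2 * (M : ℤ) * k : ℤ) : ℂ) * (Real.pi * I / (M : ℂ)) = k * (2 * Real.pi * I) := by
    push_cast
    field_simp
  rw [h, exp_int_mul_two_pi_mul_I]

theorem NodeL18_br_refl (M : ℕ) (hM : 1 ≤ M) (a b k : ℤ) (h : a + b = 2 * (M : ℤ) * k) :
    br (exp (Real.pi * I / (M : ℂ))) a = -br (exp (Real.pi * I / (M : ℂ))) b := by
  have h0 : exp (Real.pi * I / (M : ℂ)) ≠ 0 := exp_ne_zero _
  have e1 : exp (Real.pi * I / (M : ℂ)) ^ a = exp (Real.pi * I / (M : ℂ)) ^ (-b) := by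
    rw [show a = 2 * (M : ℤ) * k + (-b) by omega, zpow_add₀ h0, NodeL18_per M hM, one_mul]
  have e2 : exp (Real.pi * I / (M : ℂ)) ^ (-a) = exp (Real.pi * I / (M : ℂ)) ^ b := by
    rw [zpow_neg, e1, zpow_neg, inv_inv]
  unfold br
  rw [e1, e2]
  ring

theorem NodeL18_pw_refl (n M : ℕ) (hM : 1 ≤ M) (t X X' : ℕ) (h : X + X' + n = 2 * M + 1) :
    pw8 n (exp (Real.pi * I / (M : ℂ))) t X' = pw8 n (exp (Real.pi * I / (M : ℂ))) t X := by
  unfold pw8
  refine Finset.prod_congr rfl fun i _ => ?_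
  rw [NodeL18_br_refl M hM ((n : ℤ) + X' + i - 1) ((X : ℤ) - i) 1 (by omega),
    NodeL18_br_refl M hM ((X' : ℤ) - i) ((n : ℤ) + X + i - 1) 1 (by omega)]
  ring

theorem NodeL18_rho_refl (M : ℕ) (hM : 1 ≤ M) (a b : ℤ) (h : a + b = 2 * (M : ℤ)) :
    NodeL18_rho M (exp (Real.pi * I / (M : ℂ))) a ^ 2 =
      NodeL18_rho M (exp (Real.pi * I / (M : ℂ))) b ^ 2 := by
  unfold NodeL18_rho
  by_cases ha : a = (M : ℤ)
  · rw [if_pos ha, if_pos (by omega)]
  · rw [if_neg ha, if_neg (by omega), NodeL18_br_refl M hM a b 1 (by omega)]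
    ring

theorem NodeL18_R_refl (n M : ℕ) (hn : 2 ≤ n) (hM : 1 ≤ M) (X X' : ℕ)
    (h : X + X' + n = 2 * M + 1) :
    NodeL18_R n M (exp (Real.pi * I / (M : ℂ))) X' =
      -NodeL18_R n M (exp (Real.pi * I / (M : ℂ))) X := by
  set ξ := exp (Real.pi * I / (M : ℂ)) with hξ
  have e1 : ∏ u ∈ Finset.range (n - 2), NodeL18_rho M ξ ((X' : ℤ) + u + 1) ^ 2 =
      ∏ u ∈ Finset.range (n - 2), NodeL18_rho M ξ ((X : ℤ) + u + 1) ^ 2 := by
    rw [← Finset.prod_range_reflect]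
    refine Finset.prod_congr rfl fun u hu => ?_
    rw [Finset.mem_range] at hu
    exact NodeL18_rho_refl M hM _ _ (by omega)
  unfold NodeL18_R
  simp only [div_pow]
  rw [Finset.prod_div_distrib, Finset.prod_div_distrib, e1,
    NodeL18_br_refl M hM ((n : ℤ) + 2 * X' - 1) ((n : ℤ) + 2 * X - 1) 2 (by omega)]
  ring

theorem NodeL18_f_refl (r : ℤ) (n N M : ℕ) (hn : 2 ≤ n) (hM : 1 ≤ M) (A : Finset (Fin m))
    (t : Fin m → ℕ) (X X' : ℕ) (h : X + X' + n = 2 * M + 1) :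
    NodeL18_f r n N M A t X' (exp (Real.pi * I / (M : ℂ))) =
      -NodeL18_f r n N M A t X (exp (Real.pi * I / (M : ℂ))) := by
  unfold NodeL18_f
  rw [NodeL18_R_refl n M hn hM X X' h,
    Finset.prod_congr rfl fun j _ => NodeL18_pw_refl n M hM (t j) X X' h]
  have h1 : 2 * r * ((X' : ℤ) * (X' + n - 1)) =
      2 * (M : ℤ) * (2 * r * (X' - X)) + 2 * r * ((X : ℤ) * (X + n - 1)) := by
    have h' : (X : ℤ) + X' + n = 2 * M + 1 := by exact_mod_cast h
    linear_combination 2 * r * ((X' : ℤ) - X) * h'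
  rw [h1, zpow_add₀ (exp_ne_zero _), NodeL18_per M hM]
  ring

theorem NodeL18_br_zero (M : ℕ) (hM : 1 ≤ M) :
    br (exp (Real.pi * I / (M : ℂ))) (2 * (M : ℤ)) = 0 := by
  have h := NodeL18_br_refl M hM (2 * (M : ℤ)) 0 1 (by omega)
  rw [h]
  simp [br]

theorem NodeL18_H_zero (r : ℤ) (n g N : ℕ) (hn : 2 ≤ n) (hg : 1 ≤ g) (hN : n ≤ N)
    (A : Finset (Fin m)) (t : Fin m → ℕ) (j : Fin m) (hj : j ∈ A) (ht : t j ≤ N)
    (hl : N + 2 * g < n + t j) :
    NodeL18_H r n N (N + g) A t (t j) (exp (Real.pi * I / ((N + g : ℕ) : ℂ))) = 0 := by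
  set M := N + g with hM
  set T := t j with hT
  have hM1 : 1 ≤ M := by omega
  set ξ := exp (Real.pi * I / (M : ℂ)) with hξ
  have hsub : Finset.Icc T (2 * M + 1 - n - T) ⊆ Finset.Icc T N := by
    intro X hX
    rw [Finset.mem_Icc] at hX ⊢
    omega
  unfold NodeL18_H
  rw [← Finset.sum_subset hsub]
  · refine Finset.sum_involution (fun X _ => 2 * M + 1 - n - X) ?_ ?_ ?_ ?_
    · intro X hX
      rw [Finset.mem_Icc] at hX
      rw [NodeL18_f_refl r n N M hn hM1 A t X (2 * M + 1 - n - X) (by omega)]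
      ring
    · intro X hX hf he
      apply hf
      rw [Finset.mem_Icc] at hX
      have h1 := NodeL18_f_refl r n N M hn hM1 A t X X (by omega)
      rw [← hξ] at h1
      have h2 : (2 : ℂ) * NodeL18_f r n N M A t X ξ = 0 := by linear_combination h1
      exact (mul_eq_zero.1 h2).resolve_left two_ne_zero
    · intro X hX
      rw [Finset.mem_Icc] at hX ⊢
      omega
    · intro X hX
      rw [Finset.mem_Icc] at hX
      show 2 * M + 1 - n - (2 * M + 1 - n - X) = X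
      omega
  · intro X hX1 hX2
    rw [Finset.mem_Icc] at hX1 hX2
    have hz : pw8 n ξ T X = 0 := by
      unfold pw8
      refine Finset.prod_eq_zero (i := 2 * M + 1 - n - X) (Finset.mem_range.2 (by omega)) ?_
      rw [show (n : ℤ) + X + ((2 * M + 1 - n - X : ℕ) : ℤ) - 1 = 2 * (M : ℤ) by omega,
        NodeL18_br_zero M hM1, zero_mul]
    unfold NodeL18_f
    rw [Finset.prod_eq_zero hj hz, mul_zero]

/-! ### Regularity -/

theorem NodeL18_br_ne (M : ℕ) (a : ℤ) (h0 : 0 < a) (h1 : a < 2 * (M : ℤ)) (h2 : a ≠ M) :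
    br (exp (Real.pi * I / (M : ℂ))) a ≠ 0 := by
  rw [RootLim_br]
  refine mul_ne_zero (mul_ne_zero two_ne_zero I_ne_zero) ?_
  intro h
  rw [Complex.sin_eq_zero_iff] at h
  obtain ⟨k, hk⟩ := h
  have hM : (M : ℂ) ≠ 0 := by
    have : M ≠ 0 := by omega
    exact_mod_cast this
  have hpi : (Real.pi : ℂ) ≠ 0 := by exact_mod_cast Real.pi_ne_zero
  have h3 : (a : ℂ) = k * M := by
    have h4 : (Real.pi : ℂ) * ((a : ℂ) - k * M) = 0 := by
      field_simp at hk
      linear_combination Real.pi * hk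
    have h5 := (mul_eq_zero.1 h4).resolve_left hpi
    linear_combination h5
  have h4 : a = k * (M : ℤ) := by exact_mod_cast h3
  have hM0 : (0 : ℤ) < M := by omega
  have hk0 : 0 < k := by
    by_contra hk
    have : k * (M : ℤ) ≤ 0 := mul_nonpos_of_nonpos_of_nonneg (by omega) hM0.le
    omega
  have hk2 : k < 2 := by
    by_contra hk
    have : 2 * (M : ℤ) ≤ k * (M : ℤ) := mul_le_mul_of_nonneg_right (by omega) hM0.le
    omega
  have hk1 : k = 1 := by omega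
  rw [hk1, one_mul] at h4
  exact h2 h4

theorem NodeL18_br_diff (x : ℂ) (hx : x ≠ 0) (a : ℤ) :
    DifferentiableAt ℂ (fun q => br q a) x := by
  unfold br
  exact (differentiableAt_zpow.2 (Or.inl hx)).sub (differentiableAt_zpow.2 (Or.inl hx))

theorem NodeL18_rho_diff (M : ℕ) (x : ℂ) (hx : x ≠ 0) (a : ℤ) :
    DifferentiableAt ℂ (fun q => NodeL18_rho M q a) x := by
  unfold NodeL18_rho
  split_ifs
  · exact differentiableAt_const _
  · exact NodeL18_br_diff x hx a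

theorem NodeL18_rho_ne (M : ℕ) (a : ℤ) (h0 : 0 < a) (h1 : a < 2 * (M : ℤ)) :
    NodeL18_rho M (exp (Real.pi * I / (M : ℂ))) a ≠ 0 := by
  unfold NodeL18_rho
  split_ifs with h
  · exact one_ne_zero
  · exact NodeL18_br_ne M a h0 h1 h

theorem NodeL18_D_diff (n g N : ℕ) (hn : 2 ≤ n) (hg : 1 ≤ g) (hN : n ≤ N) :
    DifferentiableAt ℂ (fun q => NodeL18_D n N (N + g) q)
      (exp (Real.pi * I / ((N + g : ℕ) : ℂ))) := by
  unfold NodeL18_D
  refine DifferentiableAt.fun_finsetProd fun i hi => ?_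
  rw [Finset.mem_range] at hi
  exact (NodeL18_rho_diff _ _ (exp_ne_zero _) _).fun_div (NodeL18_br_diff _ (exp_ne_zero _) _)
    (NodeL18_br_ne _ _ (by omega) (by omega) (by omega))

theorem NodeL18_D_ne (n g N : ℕ) (hn : 2 ≤ n) (hg : 1 ≤ g) (hN : n ≤ N) :
    NodeL18_D n N (N + g) (exp (Real.pi * I / ((N + g : ℕ) : ℂ))) ≠ 0 := by
  unfold NodeL18_D
  refine Finset.prod_ne_zero_iff.2 fun i hi => ?_
  rw [Finset.mem_range] at hi
  exact div_ne_zero (NodeL18_rho_ne _ _ (by omega) (by omega))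
    (NodeL18_br_ne _ _ (by omega) (by omega) (by omega))

theorem NodeL18_H_diff (r : ℤ) (n g N : ℕ) (hn : 2 ≤ n) (hg : 1 ≤ g) (hN : n ≤ N)
    (A : Finset (Fin m)) (t : Fin m → ℕ) (T : ℕ) :
    DifferentiableAt ℂ (NodeL18_H r n N (N + g) A t T)
      (exp (Real.pi * I / ((N + g : ℕ) : ℂ))) := by
  set ξ := exp (Real.pi * I / ((N + g : ℕ) : ℂ)) with hξ
  have h0 : ξ ≠ 0 := exp_ne_zero _
  unfold NodeL18_H
  refine DifferentiableAt.fun_sum fun X _ => ?_
  unfold NodeL18_f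
  refine DifferentiableAt.fun_mul (DifferentiableAt.fun_mul ?_ ?_) ?_
  · exact differentiableAt_zpow.2 (Or.inl h0)
  · refine DifferentiableAt.fun_div ?_ (NodeL18_D_diff n g N hn hg hN) (NodeL18_D_ne n g N hn hg hN)
    unfold NodeL18_R
    refine DifferentiableAt.fun_mul ?_ ?_
    · exact (NodeL18_br_diff ξ h0 _).fun_div (NodeL18_br_diff ξ h0 _)
        (NodeL18_br_ne _ _ (by omega) (by omega) (by omega))
    · refine DifferentiableAt.fun_finsetProd fun u hu => ?_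
      rw [Finset.mem_range] at hu
      exact ((NodeL18_rho_diff _ ξ h0 _).fun_div (NodeL18_br_diff ξ h0 _)
        (NodeL18_br_ne _ _ (by omega) (by omega) (by omega))).fun_pow 2
  · refine DifferentiableAt.fun_finsetProd fun j _ => ?_
    unfold pw8
    refine DifferentiableAt.fun_finsetProd fun i _ => ?_
    exact (NodeL18_br_diff ξ h0 _).fun_mul (NodeL18_br_diff ξ h0 _)

theorem NodeL18_br_deriv (M : ℕ) (hM : 1 ≤ M) :
    ∃ B : ℂ, B ≠ 0 ∧ HasDerivAt (fun q => br q (M : ℤ)) B (exp (Real.pi * I / (M : ℂ))) := by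
  set ξ := exp (Real.pi * I / (M : ℂ)) with hξ
  have h0 : ξ ≠ 0 := exp_ne_zero _
  have hM' : (M : ℂ) ≠ 0 := by exact_mod_cast (by omega : M ≠ 0)
  have e1 : ξ ^ (M : ℤ) = -1 := by
    rw [hξ, ← exp_int_mul]
    have h : ((M : ℤ) : ℂ) * (Real.pi * I / (M : ℂ)) = Real.pi * I := by
      push_cast
      field_simp
    rw [h, exp_pi_mul_I]
  have e2 : ξ ^ (-(M : ℤ)) = -1 := by
    rw [zpow_neg, e1]
    norm_num
  have h1 := hasDerivAt_zpow (M : ℤ) ξ (Or.inl h0)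
  have h2 := hasDerivAt_zpow (-(M : ℤ)) ξ (Or.inl h0)
  refine ⟨_, ?_, h1.sub h2⟩
  rw [zpow_sub_one₀ h0, zpow_sub_one₀ h0, e1, e2]
  have e3 : ((M : ℤ) : ℂ) * (-1 * ξ⁻¹) - ((-(M : ℤ) : ℤ) : ℂ) * (-1 * ξ⁻¹) =
      -2 * M * ξ⁻¹ := by
    push_cast
    ring
  rw [e3]
  exact mul_ne_zero (mul_ne_zero (by norm_num) hM') (inv_ne_zero h0)

theorem NodeL18_br_root (M : ℕ) (hM : 1 ≤ M) : br (exp (Real.pi * I / (M : ℂ))) (M : ℤ) = 0 := by
  have h := NodeL18_br_refl M hM (M : ℤ) (M : ℤ) 1 (by omega)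
  have h2 : (2 : ℂ) * br (exp (Real.pi * I / (M : ℂ))) (M : ℤ) = 0 := by linear_combination h
  exact (mul_eq_zero.1 h2).resolve_left two_ne_zero

theorem NodeL18_ev (g N n : ℕ) (hg : 1 ≤ g) (hN : n ≤ N) :
    ∀ᶠ q in 𝓝[≠] exp (Real.pi * I / ((N + g : ℕ) : ℂ)),
      ∀ i : ℕ, 1 ≤ i → i ≤ N + n → br q i ≠ 0 := by
  have key : ∀ i ∈ Finset.Icc 1 (N + n), ∀ᶠ q in 𝓝[≠] exp (Real.pi * I / ((N + g : ℕ) : ℂ)),
      br q (i : ℤ) ≠ 0 := by
    intro i hi
    rw [Finset.mem_Icc] at hi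
    by_cases h : i = N + g
    · obtain ⟨B, hB, hd⟩ := NodeL18_br_deriv (N + g) (by omega)
      have h1 := hd.eventually_ne hB (c := 0)
      rw [h]
      exact h1
    · have h1 := NodeL18_br_ne (N + g) (i : ℤ) (by omega) (by omega) (by omega)
      have h2 := (NodeL18_br_diff (exp (Real.pi * I / ((N + g : ℕ) : ℂ))) (exp_ne_zero _)
        (i : ℤ)).continuousAt.eventually_ne h1
      exact h2.filter_mono nhdsWithin_le_nhds
  have h := (Filter.eventually_all_finset (Finset.Icc 1 (N + n))).2 key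
  filter_upwards [h] with q hq i h1 h2
  exact hq i (Finset.mem_Icc.2 ⟨h1, h2⟩)

/-- If one of the edges has a pole of order `l` then the factor of the node has a zero of order `l`. -/
theorem node_lev (r : ℤ) (n g N : ℕ) (hn : 2 ≤ n) (hg : 1 ≤ g) (hgn : g < n) (hN : n ≤ N)
    (A : Finset (Fin m)) (t : Fin m → ℕ) (ht : ∀ j ∈ A, t j ≤ N) (j : Fin m) (hj : j ∈ A)
    (hl : 1 ≤ lev n g N (t j)) :
    ∃ L : ℂ, Tendsto (fun q => NF8 r n N q A t / br q ((N : ℤ) + g) ^ lev n g N (t j))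
      (𝓝[≠] exp (Real.pi * I / ((N + g : ℕ) : ℂ))) (𝓝 L) := by
  have hcast : ((N : ℤ) + g) = ((N + g : ℕ) : ℤ) := by push_cast; ring
  rw [hcast]
  have hpos : N + g + 1 < n + t j := by
    unfold lev at hl
    split_ifs at hl with h1 h2
    · exact h1
    · exact h1
    · omega
    · omega
  have hH := NodeL18_H_diff r n g N hn hg hN A t (t j)
  by_cases h2 : N + 2 * g < n + t j
  · have hlev : lev n g N (t j) = 2 := by
      unfold lev
      rw [if_pos hpos, if_pos h2]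
    rw [hlev]
    obtain ⟨B, hB, hd⟩ := NodeL18_br_deriv (N + g) (by omega)
    have hH0 := NodeL18_H_zero r n g N hn hg hN A t j hj (ht j hj) h2
    have hB0 := NodeL18_br_root (N + g) (by omega)
    have s1 := hasDerivAt_iff_tendsto_slope.1 hH.hasDerivAt
    have s2 := hasDerivAt_iff_tendsto_slope.1 hd
    have s3 := s1.div s2 hB
    refine ⟨_, s3.congr' ?_⟩
    filter_upwards [self_mem_nhdsWithin, NodeL18_ev g N n hg hN] with q hq hq'
    have hq1 : q - exp (Real.pi * I / ((N + g : ℕ) : ℂ)) ≠ 0 := sub_ne_zero.2 hq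
    have hb : br q ((N + g : ℕ) : ℤ) ≠ 0 := hq' (N + g) (by omega) (by omega)
    rw [NodeL18_NF r n g N hn hN A t j hj hpos hg q hq']
    simp only [Pi.div_apply, slope, vsub_eq_sub, smul_eq_mul, hH0, hB0, sub_zero]
    rw [mul_div_mul_left _ _ (inv_ne_zero hq1), sq, mul_div_mul_left _ _ hb]
  · have hlev : lev n g N (t j) = 1 := by
      unfold lev
      rw [if_pos hpos, if_neg h2]
    rw [hlev]
    refine ⟨_, (hH.continuousAt.tendsto.mono_left nhdsWithin_le_nhds).congr' ?_⟩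
    filter_upwards [NodeL18_ev g N n hg hN] with q hq'
    have hb : br q ((N + g : ℕ) : ℤ) ≠ 0 := hq' (N + g) (by omega) (by omega)
    rw [NodeL18_NF r n g N hn hN A t j hj hpos hg q hq', pow_one, mul_div_cancel_left₀ _ hb]

end Pool.Agent.H63.VC8
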