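import Pool.Agent.H63.VC8.Defs8

/-! # The state sum as a sum over the edges -/

namespace Pool.Agent.H63.VC8

open Pool.Agent.H63.VC hiding ext
open Pool.Agent.H63.VC3 Pool.Agent.H63.VC4 Pool.Agent.H63.VC6 Pool.Agent.H63.VC7 Complex

variable {m p : ℕ}

theorem Swap8_sixn (n : ℕ) (q : ℂ) (N k l : ℕ) : sixn n q N k l =
    ∑ t ∈ Finset.range (N + 1), E8 n N q t * (pw8 n q t k * pw8 n q t l) := by
  unfold sixn
  refine Finset.sum_congr rfl fun t _ => ?_
  rw [Finset.prod_div_distrib, Finset.prod_mul_distrib]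
  change (-1) ^ t * (pw8 n q t k * pw8 n q t l / ∏ i ∈ Finset.range t,
    (br q ((i : ℤ) + 1) * br q ((n : ℤ) + i - 1) *
      (br q ((n : ℤ) + N + i) * br q ((N : ℤ) - i)))) = _
  unfold E8
  ring

theorem suTree_swap (s t : Fin m → Fin p) (hst : ∀ j, s j ≠ t j) (r : Fin p → ℤ) (n N : ℕ)
    (q : ℂ) :
    suTree s t r n N q = ∑ k ∈ Fintype.piFinset (fun _ : Fin m => Finset.range (N + 1)),
      (∏ j, E8 n N q (k j)) * ∏ i, NF8 (r i) n N q (inc s t i) k := by
  have h1 : ∀ X : Fin p → ℕ, ∏ j, sixn n q N (X (s j)) (X (t j)) =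
      ∑ k ∈ Fintype.piFinset (fun _ : Fin m => Finset.range (N + 1)),
        (∏ j, E8 n N q (k j)) * ∏ i, ∏ j ∈ inc s t i, pw8 n q (k j) (X i) := by
    intro X
    simp only [Swap8_sixn]
    rw [Finset.prod_univ_sum]
    refine Finset.sum_congr rfl fun k _ => ?_
    rw [Finset.prod_mul_distrib, prod_inc s t hst (fun i j => pw8 n q (k j) (X i))]
  unfold suTree
  simp only [h1, Finset.mul_sum]
  rw [Finset.sum_comm]
  refine Finset.sum_congr rfl fun k _ => ?_
  unfold NF8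
  rw [Finset.prod_univ_sum, Finset.mul_sum]
  refine Finset.sum_congr rfl fun X _ => ?_
  have h2 : ∏ i, (q ^ (2 * r i * (X i * (X i + n - 1))) * (dimA n q (X i) / dimS n N q) *
      ∏ j ∈ inc s t i, pw8 n q (k j) (X i)) =
      (∏ i, q ^ (2 * r i * (X i * (X i + n - 1))) * (dimA n q (X i) / dimS n N q)) *
        ∏ i, ∏ j ∈ inc s t i, pw8 n q (k j) (X i) := Finset.prod_mul_distrib
  rw [h2, mul_left_comm]

end Pool.Agent.H63.VC8
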