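import Pool.Agent.H63.VC.Asym
import Pool.Agent.H63.VC.EndB
import Pool.Agent.H63.VC.Riem
import Pool.Agent.H63.VC.SlowL
import Pool.Agent.H63.VC.SlowU
import Pool.Agent.H63.VC.Small
import Pool.Agent.H63.VC3.CritB
import Pool.Agent.H63.VC3.Upper
import Pool.Agent.H63.VC4.KBN
import Pool.Agent.H63.VC4.UpperN
import Pool.Agent.H63.VC6.LocU
import Pool.Agent.H63.VC6.SlotU
import Pool.Agent.H63.VC8.Defs8

/-! # Orders of zeros and poles on a tree -/

namespace Pool.Agent.H63.VC8

open Pool.Agent.H63.VC hiding ext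
open Pool.Agent.H63.VC3 Pool.Agent.H63.VC4 Pool.Agent.H63.VC6 Pool.Agent.H63.VC7 Complex

variable {m p : ℕ}

/-- On a tree the orders of the zeros exceed the orders of the poles. -/
theorem tree_lev (m : ℕ) (par : Fin m → Fin (m + 1)) (hpar : ∀ j, par j ≤ j.castSucc)
    (l : Fin m → ℕ) (L : Fin (m + 1) → ℕ)
    (hL : ∀ i, ∀ j ∈ inc par Fin.succ i, l j ≤ L i) (j0 : Fin m) (h0 : 1 ≤ l j0) :
    ∑ j, l j + 1 ≤ ∑ i, L i := by
  have hs : ∀ j : Fin m, l j ≤ L j.succ := fun j => hL _ j (by simp [inc])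
  rw [Fin.sum_univ_succ]
  have hsum : ∑ j, l j ≤ ∑ j : Fin m, L j.succ := Finset.sum_le_sum fun j _ => hs j
  rcases Nat.eq_zero_or_pos (L 0) with h | h
  · -- the smallest edge with a pole
    obtain ⟨j, hj1, hj2⟩ : ∃ j : Fin m, 1 ≤ l j ∧ ∀ i : Fin m, i < j → l i = 0 := by
      classical
      have hne : (Finset.univ.filter fun j : Fin m => 1 ≤ l j).Nonempty := ⟨j0, by simp [h0]⟩
      refine ⟨(Finset.univ.filter fun j : Fin m => 1 ≤ l j).min' hne, ?_, ?_⟩
      · have := Finset.min'_mem _ hne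
        simpa using this
      · intro i hi
        by_contra hc
        have := Finset.min'_le (Finset.univ.filter fun j : Fin m => 1 ≤ l j) i
          (by simp; omega)
        exact absurd hi (not_lt.mpr this)
    have h1 : 1 ≤ L (par j) := le_trans hj1 (hL _ j (by simp [inc]))
    have h2 : par j ≠ 0 := fun h' => by rw [h', h] at h1; omega
    obtain ⟨i, hi⟩ := Fin.exists_succ_eq.mpr h2
    have h3 : i < j := by
      have := hpar j
      rw [← hi] at this
      rw [Fin.lt_def]
      have h4 : i.succ.val ≤ j.castSucc.val := this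
      simp at h4
      omega
    have h5 : l i < L i.succ := by rw [hj2 i h3, hi]; omega
    have h6 : ∑ j, l j < ∑ j : Fin m, L j.succ :=
      Finset.sum_lt_sum (fun j _ => hs j) ⟨i, Finset.mem_univ _, h5⟩
    omega
  · omega

end Pool.Agent.H63.VC8
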