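import Pool.Agent.H63.VC8.EdgeLim8
import Pool.Agent.H63.VC8.NodeL08
import Pool.Agent.H63.VC8.NodeL18
import Pool.Agent.H63.VC8.QcLL8
import Pool.Agent.H63.VC8.Swap8
import Pool.Agent.H63.VC8.TreeLev8

/-! # The limit of the state sum -/

namespace Pool.Agent.H63.VC8

open Pool.Agent.H63.VC hiding ext
open Pool.Agent.H63.VC3 Pool.Agent.H63.VC4 Pool.Agent.H63.VC6 Pool.Agent.H63.VC7 Complex Filter Topology

variable {m p : ℕ}

theorem RootLim8_pow (N g : ℕ) (hM : 1 ≤ N + g) :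
    exp (Real.pi * I / ((N + g : ℕ) : ℂ)) ^ ((N : ℤ) + g) = -1 := by
  have hM' : ((N + g : ℕ) : ℂ) ≠ 0 := by exact_mod_cast (by omega : N + g ≠ 0)
  rw [← exp_int_mul]
  have e : (((N : ℤ) + g : ℤ) : ℂ) * (Real.pi * I / ((N + g : ℕ) : ℂ)) = Real.pi * I := by
    rw [← mul_div_assoc, div_eq_iff hM']
    push_cast
    ring
  rw [e, exp_pi_mul_I]

theorem RootLim8_br0 (N g : ℕ) (hM : 1 ≤ N + g) :
    br (exp (Real.pi * I / ((N + g : ℕ) : ℂ))) ((N : ℤ) + g) = 0 := by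
  unfold br
  rw [zpow_neg, RootLim8_pow N g hM]
  norm_num

theorem RootLim8_tend (N g : ℕ) (hM : 1 ≤ N + g) :
    Tendsto (fun q => br q ((N : ℤ) + g)) (𝓝[≠] exp (Real.pi * I / ((N + g : ℕ) : ℂ)))
      (𝓝 0) := by
  have h := (RootLim_br_cont (exp (Real.pi * I / ((N + g : ℕ) : ℂ))) (exp_ne_zero _)
    ((N : ℤ) + g)).tendsto
  rw [RootLim8_br0 N g hM] at h
  exact h.mono_left nhdsWithin_le_nhds

theorem RootLim8_ne (N g : ℕ) (hM : 1 ≤ N + g) :
    ∀ᶠ q in 𝓝[≠] exp (Real.pi * I / ((N + g : ℕ) : ℂ)), br q ((N : ℤ) + g) ≠ 0 := by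
  set x := exp (Real.pi * I / ((N + g : ℕ) : ℂ)) with hx
  have hx0 : x ≠ 0 := exp_ne_zero _
  have hpow : x ^ ((N : ℤ) + g) = -1 := RootLim8_pow N g hM
  have hpow' : x ^ (-((N : ℤ) + g)) = -1 := by
    rw [zpow_neg, hpow]
    norm_num
  have h1 := (hasDerivAt_zpow ((N : ℤ) + g) x (Or.inl hx0)).sub
    (hasDerivAt_zpow (-((N : ℤ) + g)) x (Or.inl hx0))
  have h2 : HasDerivAt (fun q => br q ((N : ℤ) + g)) _ x := h1
  refine h2.eventually_ne ?_
  rw [zpow_sub_one₀ hx0, zpow_sub_one₀ hx0, hpow, hpow']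
  have hM' : ((N : ℂ) + g) ≠ 0 := by exact_mod_cast (by omega : N + g ≠ 0)
  have e : (((N : ℤ) + g : ℤ) : ℂ) * (-1 * x⁻¹) - ((-((N : ℤ) + g) : ℤ) : ℂ) * (-1 * x⁻¹) =
      -2 * ((N : ℂ) + g) * x⁻¹ := by
    push_cast
    ring
  rw [e]
  exact mul_ne_zero (mul_ne_zero (by norm_num) hM') (inv_ne_zero hx0)

theorem RootLim8_lev0 (n g N t : ℕ) (h : lev n g N t = 0) : t + n ≤ N + g + 1 := by
  unfold lev at h
  by_contra hc
  rw [if_pos (by omega : N + g + 1 < n + t)] at h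
  omega

theorem RootLim8_lev1 (n g N t : ℕ) (h : ¬ t + n ≤ N + g + 1) : 1 ≤ lev n g N t := by
  unfold lev
  rw [if_pos (by omega : N + g + 1 < n + t)]
  omega

/-- The factor of a node, divided by the power of the vanishing bracket. -/
theorem RootLim8_node (r : ℤ) (n g N : ℕ) (hn : 2 ≤ n) (hg : 1 ≤ g) (hgn : g < n) (hN : n ≤ N)
    (A : Finset (Fin m)) (t : Fin m → ℕ) (ht : ∀ j ∈ A, t j ≤ N) :
    ∃ L : ℂ, Tendsto (fun q => NF8 r n N q A t / br q ((N : ℤ) + g) ^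
        (A.sup fun j => lev n g N (t j)))
      (𝓝[≠] exp (Real.pi * I / ((N + g : ℕ) : ℂ))) (𝓝 L) := by
  by_cases h : (A.sup fun j => lev n g N (t j)) = 0
  · rw [h]
    simp only [pow_zero, div_one]
    refine ⟨_, node_lim8 r n g N hn hg hgn hN A t fun j hj => ?_⟩
    have h1 : lev n g N (t j) ≤ A.sup fun j => lev n g N (t j) :=
      Finset.le_sup (f := fun j => lev n g N (t j)) hj
    exact RootLim8_lev0 n g N (t j) (by omega)
  · have hne : A.Nonempty := by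
      rcases A.eq_empty_or_nonempty with rfl | h'
      · simp at h
      · exact h'
    obtain ⟨j, hj, hj'⟩ := Finset.exists_mem_eq_sup A hne fun j => lev n g N (t j)
    rw [hj'] at h ⊢
    exact node_lev r n g N hn hg hgn hN A t ht j hj (by omega)

/-- The singular terms tend to zero. -/
theorem RootLim8_zero (m : ℕ) (par : Fin m → Fin (m + 1)) (hpar : ∀ j, par j ≤ j.castSucc)
    (r : Fin (m + 1) → ℤ) (n g N : ℕ) (hn : 2 ≤ n) (hg : 1 ≤ g) (hgn : g < n) (hN : n ≤ N)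
    (t : Fin m → ℕ) (ht : ∀ j, t j ≤ N) (j0 : Fin m) (hj0 : ¬ t j0 + n ≤ N + g + 1) :
    Tendsto (fun q => (∏ j, E8 n N q (t j)) * ∏ i, NF8 (r i) n N q (inc par Fin.succ i) t)
      (𝓝[≠] exp (Real.pi * I / ((N + g : ℕ) : ℂ))) (𝓝 0) := by
  set l : Fin m → ℕ := fun j => lev n g N (t j) with hl
  set L : Fin (m + 1) → ℕ := fun i => (inc par Fin.succ i).sup l with hLdef
  have hsum : ∑ j, l j + 1 ≤ ∑ i, L i :=
    tree_lev m par hpar l L (fun i j hj => Finset.le_sup (f := l) hj) j0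
      (RootLim8_lev1 n g N (t j0) hj0)
  have hE : ∀ j : Fin m, ∃ a : ℂ, Tendsto (fun q => br q ((N : ℤ) + g) ^ l j * E8 n N q (t j))
      (𝓝[≠] exp (Real.pi * I / ((N + g : ℕ) : ℂ))) (𝓝 a) := fun j =>
    edge_lev n g N (t j) hn hg hgn hN (ht j)
  have hF : ∀ i : Fin (m + 1), ∃ a : ℂ, Tendsto
      (fun q => NF8 (r i) n N q (inc par Fin.succ i) t / br q ((N : ℤ) + g) ^ L i)
      (𝓝[≠] exp (Real.pi * I / ((N + g : ℕ) : ℂ))) (𝓝 a) := fun i =>
    RootLim8_node (r i) n g N hn hg hgn hN (inc par Fin.succ i) t fun j _ => ht j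
  choose a ha using hE
  choose b hb using hF
  have h1 := tendsto_finsetProd Finset.univ fun j _ => ha j
  have h2 := tendsto_finsetProd Finset.univ fun i _ => hb i
  have h3 := (RootLim8_tend N g (by omega)).pow (∑ i, L i - ∑ j, l j)
  rw [zero_pow (by omega)] at h3
  have h4 := (h1.mul h2).mul h3
  rw [mul_zero] at h4
  refine h4.congr' ?_
  filter_upwards [RootLim8_ne N g (by omega)] with q hq
  have e1 : br q ((N : ℤ) + g) ^ (∑ i, L i) =
      br q ((N : ℤ) + g) ^ (∑ j, l j) * br q ((N : ℤ) + g) ^ (∑ i, L i - ∑ j, l j) := by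
    rw [← pow_add]
    congr 1
    omega
  rw [Finset.prod_mul_distrib, Finset.prod_div_distrib, Finset.prod_pow_eq_pow_sum,
    Finset.prod_pow_eq_pow_sum]
  have hL0 : br q ((N : ℤ) + g) ^ (∑ i, L i) ≠ 0 := pow_ne_zero _ hq
  calc _ = (∏ j, E8 n N q (t j)) * (∏ i, NF8 (r i) n N q (inc par Fin.succ i) t) *
        ((br q ((N : ℤ) + g) ^ (∑ j, l j) * br q ((N : ℤ) + g) ^ (∑ i, L i - ∑ j, l j)) /
          br q ((N : ℤ) + g) ^ (∑ i, L i)) := by ring
    _ = _ := by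
      rw [← e1, div_self hL0, mul_one]

/-- Reindexing of the limit. -/
theorem RootLim8_sum (s t : Fin m → Fin p) (hst : ∀ j, s j ≠ t j)
    (r : Fin p → ℤ) (n g N : ℕ) (hgn : g < n) (hN : n ≤ N) (hg : 1 ≤ g) :
    ∑ k ∈ Fintype.piFinset (fun _ : Fin m => Finset.range (N + g + 2 - n)),
      (∏ j, ((Dg n g (N + g) : ℂ) / ((N + g : ℕ) : ℂ) ^ 4 *
        Cc n g (N + g) (yk n (N + g) (N + g + 1 - n - k j)))) *
        ∏ i, (-(-1) ^ (n + g) * cG8 (r i) n (N + g) / (4 * Real.pi * (Dg n g (N + g) : ℂ)) *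
          (∏ j ∈ inc s t i, (-1) ^ (k j) * ((N + g : ℕ) : ℂ)) *
          DG8 (r i : ℝ) n (N + g) (inc s t i) (fun j => N + g + 1 - n - k j)) =
    (∏ i, (-(-1) ^ (n + g) * cG8 (r i) n (N + g) /
          (4 * Real.pi * (Dg n g (N + g) : ℂ)))) *
        ((Dg n g (N + g) : ℂ) / ((N + g : ℕ) : ℂ) ^ 2) ^ m *
        JG8 s t (fun i => (r i : ℝ)) n g (N + g) := by
  have hM : ((N + g : ℕ) : ℂ) ≠ 0 := by exact_mod_cast (by omega : N + g ≠ 0)
  unfold JG8
  rw [Finset.mul_sum]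
  refine Finset.sum_bij' (fun k _ => fun j => N + g + 1 - n - k j)
    (fun k _ => fun j => N + g + 1 - n - k j) ?_ ?_ ?_ ?_ ?_
  · intro k _
    rw [Fintype.mem_piFinset]
    intro j
    rw [Finset.mem_range]
    omega
  · intro k _
    rw [Fintype.mem_piFinset]
    intro j
    rw [Finset.mem_range]
    omega
  · intro k hk
    rw [Fintype.mem_piFinset] at hk
    funext j
    have := Finset.mem_range.1 (hk j)
    show N + g + 1 - n - (N + g + 1 - n - k j) = k j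
    omega
  · intro k hk
    rw [Fintype.mem_piFinset] at hk
    funext j
    have := Finset.mem_range.1 (hk j)
    show N + g + 1 - n - (N + g + 1 - n - k j) = k j
    omega
  · intro k hk
    have e0 : ∏ i, (-(-1) ^ (n + g) * cG8 (r i) n (N + g) / (4 * Real.pi * (Dg n g (N + g) : ℂ)) *
          (∏ j ∈ inc s t i, (-1) ^ (k j) * ((N + g : ℕ) : ℂ)) *
          DG8 (r i : ℝ) n (N + g) (inc s t i) (fun j => N + g + 1 - n - k j)) =
        (∏ i, (-(-1) ^ (n + g) * cG8 (r i) n (N + g) / (4 * Real.pi * (Dg n g (N + g) : ℂ)))) *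
          (∏ i, ∏ j ∈ inc s t i, (-1) ^ (k j) * ((N + g : ℕ) : ℂ)) *
          ∏ i, DG8 (r i : ℝ) n (N + g) (inc s t i) (fun j => N + g + 1 - n - k j) := by
      rw [Finset.prod_mul_distrib, Finset.prod_mul_distrib]
    rw [e0, prod_inc s t hst (fun _ j => (-1) ^ (k j) * ((N + g : ℕ) : ℂ))]
    have e1 : ∀ j : Fin m, ((-1) ^ (k j) * ((N + g : ℕ) : ℂ)) * ((-1) ^ (k j) * ((N + g : ℕ) : ℂ)) =
        ((N + g : ℕ) : ℂ) ^ 2 := by
      intro j
      have h : ((-1 : ℂ) ^ (k j)) * (-1) ^ (k j) = 1 := by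
        rw [← mul_pow]
        norm_num
      linear_combination ((N + g : ℕ) : ℂ) ^ 2 * h
    rw [Finset.prod_congr rfl fun j _ => e1 j]
    have e2 : (∏ j, ((Dg n g (N + g) : ℂ) / ((N + g : ℕ) : ℂ) ^ 4 *
          Cc n g (N + g) (yk n (N + g) (N + g + 1 - n - k j)))) *
          (∏ _j : Fin m, ((N + g : ℕ) : ℂ) ^ 2) =
        ((Dg n g (N + g) : ℂ) / ((N + g : ℕ) : ℂ) ^ 2) ^ m *
          ∏ j, Cc n g (N + g) (yk n (N + g) (N + g + 1 - n - k j)) := by
      have e3 : ((Dg n g (N + g) : ℂ) / ((N + g : ℕ) : ℂ) ^ 2) ^ m =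
          ∏ _j : Fin m, ((Dg n g (N + g) : ℂ) / ((N + g : ℕ) : ℂ) ^ 2) := by
        rw [Finset.prod_const, Finset.card_univ, Fintype.card_fin]
      rw [e3, ← Finset.prod_mul_distrib, ← Finset.prod_mul_distrib]
      refine Finset.prod_congr rfl fun j _ => ?_
      field_simp
    calc _ = ((∏ j, ((Dg n g (N + g) : ℂ) / ((N + g : ℕ) : ℂ) ^ 4 *
            Cc n g (N + g) (yk n (N + g) (N + g + 1 - n - k j)))) *
          (∏ _j : Fin m, ((N + g : ℕ) : ℂ) ^ 2)) *
          ((∏ i, (-(-1) ^ (n + g) * cG8 (r i) n (N + g) /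
            (4 * Real.pi * (Dg n g (N + g) : ℂ)))) *
            ∏ i, DG8 (r i : ℝ) n (N + g) (inc s t i) (fun j => N + g + 1 - n - k j)) := by ring
      _ = _ := by
        rw [e2]
        ring

theorem root_lim8 (m : ℕ) (par : Fin m → Fin (m + 1)) (hpar : ∀ j, par j ≤ j.castSucc)
    (r : Fin (m + 1) → ℤ) (n g N : ℕ) (hn : 2 ≤ n) (hg : 1 ≤ g) (hgn : g < n) (hN : n ≤ N) :
    Tendsto (fun q => suTree par Fin.succ r n N q)
      (𝓝[≠] exp (Real.pi * I / ((N + g : ℕ) : ℂ)))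
      (𝓝 ((∏ i, (-(-1) ^ (n + g) * cG8 (r i) n (N + g) /
          (4 * Real.pi * (Dg n g (N + g) : ℂ)))) *
        ((Dg n g (N + g) : ℂ) / ((N + g : ℕ) : ℂ) ^ 2) ^ m *
        JG8 par Fin.succ (fun i => (r i : ℝ)) n g (N + g))) := by
  have hst : ∀ j, par j ≠ Fin.succ j := by
    intro j hj
    have h1 := hpar j
    rw [hj] at h1
    have h2 : j.succ.val ≤ j.castSucc.val := h1
    rw [Fin.val_succ, Fin.val_castSucc] at h2
    omega
  rw [← RootLim8_sum par Fin.succ hst r n g N hgn hN hg]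
  have e : (fun q => suTree par Fin.succ r n N q) = fun q =>
      ∑ k ∈ Fintype.piFinset (fun _ : Fin m => Finset.range (N + 1)),
        (∏ j, E8 n N q (k j)) * ∏ i, NF8 (r i) n N q (inc par Fin.succ i) k := by
    funext q
    exact suTree_swap par Fin.succ hst r n N q
  rw [e]
  have hsub : Fintype.piFinset (fun _ : Fin m => Finset.range (N + g + 2 - n)) ⊆
      Fintype.piFinset (fun _ : Fin m => Finset.range (N + 1)) := by
    intro k hk
    rw [Fintype.mem_piFinset] at hk ⊢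
    intro j
    have := Finset.mem_range.1 (hk j)
    rw [Finset.mem_range]
    omega
  have e2 : (fun q => ∑ k ∈ Fintype.piFinset (fun _ : Fin m => Finset.range (N + 1)),
        (∏ j, E8 n N q (k j)) * ∏ i, NF8 (r i) n N q (inc par Fin.succ i) k) = fun q =>
      ∑ k ∈ Fintype.piFinset (fun _ : Fin m => Finset.range (N + 1)) \
          Fintype.piFinset (fun _ : Fin m => Finset.range (N + g + 2 - n)),
        (∏ j, E8 n N q (k j)) * ∏ i, NF8 (r i) n N q (inc par Fin.succ i) k +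
      ∑ k ∈ Fintype.piFinset (fun _ : Fin m => Finset.range (N + g + 2 - n)),
        (∏ j, E8 n N q (k j)) * ∏ i, NF8 (r i) n N q (inc par Fin.succ i) k := by
    funext q
    exact (Finset.sum_sdiff hsub).symm
  rw [e2]
  rw [← zero_add (∑ k ∈ Fintype.piFinset (fun _ : Fin m => Finset.range (N + g + 2 - n)), _)]
  refine Tendsto.add ?_ ?_
  · rw [← Finset.sum_const_zero (s := Fintype.piFinset (fun _ : Fin m => Finset.range (N + 1)) \
          Fintype.piFinset (fun _ : Fin m => Finset.range (N + g + 2 - n)))]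
    refine tendsto_finsetSum _ fun k hk => ?_
    rw [Finset.mem_sdiff, Fintype.mem_piFinset, Fintype.mem_piFinset] at hk
    obtain ⟨hk1, hk2⟩ := hk
    rw [not_forall] at hk2
    obtain ⟨j0, hj0⟩ := hk2
    rw [Finset.mem_range] at hj0
    refine RootLim8_zero m par hpar r n g N hn hg hgn hN k (fun j => ?_) j0 (by omega)
    have := Finset.mem_range.1 (hk1 j)
    omega
  · refine tendsto_finsetSum _ fun k hk => ?_
    rw [Fintype.mem_piFinset] at hk
    have hk' : ∀ j, k j + n ≤ N + g + 1 := fun j => by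
      have := Finset.mem_range.1 (hk j)
      omega
    refine Tendsto.mul ?_ ?_
    · exact tendsto_finsetProd _ fun j _ => edge_lim n g N (k j) hn hg hgn hN (hk' j)
    · exact tendsto_finsetProd _ fun i _ =>
        node_lim8 (r i) n g N hn hg hgn hN (inc par Fin.succ i) k fun j _ => hk' j

end Pool.Agent.H63.VC8
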