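import Pool.Agent.H63.VC.Cross
import Pool.Agent.H63.VC6.Final6
import Pool.Agent.H63.VC7.Final7
import Pool.Agent.H63.VC8.JGlim8
import Pool.Agent.H63.VC8.RootLim8

/-! # The volume conjecture for the colored `SU(n)` invariants of plumbings of annuli -/

namespace Pool.Agent.H63.VC8

open Pool.Agent.H63.VC hiding ext
open Pool.Agent.H63.VC3 Pool.Agent.H63.VC4 Pool.Agent.H63.VC5 Pool.Agent.H63.VC6
open Pool.Agent.H63.VC7 Complex Filter Topology

theorem final8 (m : ℕ) (hm : 1 ≤ m) (par : Fin m → Fin (m + 1))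
    (hpar : ∀ j, par j ≤ j.castSucc) (r : Fin (m + 1) → ℤ)
    (h1 : ∀ i, 10 * ((inc par Fin.succ i).card : ℤ) ≤ |r i|)
    (h2 : ∀ j, 10 * ((inc par Fin.succ (par j)).card : ℤ) ≤ r j.succ ^ 2 ∧
      10 * ((inc par Fin.succ j.succ).card : ℤ) ≤ r (par j) ^ 2) :
    ∃ V C : ℝ, Hyp.IsVolume par Fin.succ (fun i => 2 * r i) V ∧
      (∃ Z : ℂ, Hyp.IsComplexVolume par Fin.succ (fun i => 2 * r i) Z ∧
        ∃ k : ℤ, Z = I * (V + C * I) + k * (Real.pi : ℂ) ^ 2) ∧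
      ∀ n a : ℕ, 2 ≤ n → 1 ≤ a → a ≤ n - 1 → ∃ J : ℕ → ℂ,
        (∀ N : ℕ, n ≤ N → Tendsto (fun q => suTree par Fin.succ r n N q)
          (𝓝[≠] exp (Real.pi * I / (N + a))) (𝓝 (J N))) ∧
        (∃ L : ℕ → ℂ, (∀ᶠ N : ℕ in atTop, exp (L N) = J N) ∧
          Tendsto (fun N : ℕ => 2 * (Real.pi : ℂ) * L N / (N + 1)) atTop (𝓝 (V + C * I))) ∧
        Tendsto (fun N : ℕ => 2 * (Real.pi : ℂ) * log (J N) / (N + 1)) atTop (𝓝 (V : ℂ)) ∧
        ∃ κ : ℂ, κ ≠ 0 ∧ Tendsto (fun N : ℕ => J N /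
          ((((N : ℝ) + a) ^ (2 * (n : ℝ) - 5 / 2) : ℝ) *
            exp ((N + a) * (V + C * I) / (2 * Real.pi)))) atTop (𝓝 κ) := by
  have hst : ∀ j, par j ≠ Fin.succ j := fun j => by
    have := hpar j
    exact ne_of_lt (lt_of_le_of_lt this (Fin.castSucc_lt_succ))
  have hne : ∀ i, (inc par Fin.succ i).Nonempty := by
    intro i
    induction i using Fin.cases with
    | zero =>
      refine ⟨⟨0, by omega⟩, ?_⟩
      have h0 := hpar ⟨0, by omega⟩
      simp only [inc, Finset.mem_filter, Finset.mem_univ, true_and]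
      left
      ext
      have : (par ⟨0, by omega⟩ : ℕ) ≤ 0 := h0
      simp only [Fin.val_zero]
      omega
    | succ i =>
      refine ⟨i, ?_⟩
      simp [inc]
  have hr : ∀ i, 10 * dg par Fin.succ i ≤ |(r i : ℝ)| := by
    intro i
    have := h1 i
    have h' : (10 : ℝ) * ((inc par Fin.succ i).card : ℝ) ≤ |(r i : ℝ)| := by exact_mod_cast this
    rw [dg]
    exact h'
  have hn : ∀ j, 10 * dg par Fin.succ (par j) ≤ (r (Fin.succ j) : ℝ) ^ 2 ∧
      10 * dg par Fin.succ (Fin.succ j) ≤ (r (par j) : ℝ) ^ 2 := by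
    intro j
    obtain ⟨h3, h4⟩ := h2 j
    simp only [dg]
    exact ⟨by exact_mod_cast h3, by exact_mod_cast h4⟩
  obtain ⟨y, v, hc⟩ := critG_exists par Fin.succ hst hne (fun i => (r i : ℝ)) hr hn
  have hfun : (fun i => (((fun i => 2 * r i) i : ℤ) : ℝ) / 2) = fun i => (r i : ℝ) := by
    funext i
    push_cast
    ring
  have hc2 : CritG par Fin.succ (fun i => (((fun i => 2 * r i) i : ℤ) : ℝ) / 2) y v := by
    rw [hfun]; exact hc
  obtain ⟨Z, hZ, nZ, hnZ⟩ := isComplexVolume_of_crit par Fin.succ (fun i => 2 * r i) y v hc2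
  have hV := isVolume_of_crit par Fin.succ (fun i => 2 * r i) y v hc2
  rw [hfun] at hV hnZ
  set W : ℂ := VG par Fin.succ (fun i => (r i : ℝ)) y v with hW
  set σ : ℝ := ∑ i, (r i : ℝ) with hσ
  have e : W = (W.re : ℂ) + (W.im : ℂ) * I := (Complex.re_add_im _).symm
  have e2 : (∑ i, (r i : ℂ)) = (σ : ℂ) := by rw [hσ]; push_cast; rfl
  have e3 : (∑ i, (((2 * r i : ℤ)) : ℂ)) = 2 * (σ : ℂ) := by
    rw [← e2, Finset.mul_sum]; push_cast; rfl
  have hpi : (Real.pi : ℂ) ≠ 0 := by exact_mod_cast Real.pi_ne_zero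
  refine ⟨2 * Real.pi * W.re, 2 * Real.pi * W.im - Real.pi ^ 2 * σ + 2 * Real.pi ^ 2 * (m + 1),
    hV, ⟨Z, hZ, nZ + 2 * (m + 1), ?_⟩, ?_⟩
  · rw [hnZ, e3]
    conv_lhs => rw [e]
    push_cast
    linear_combination ((Real.pi : ℂ) ^ 2 * σ - 2 * (Real.pi : ℂ) ^ 2 * (m + 1)) * Complex.I_sq
  intro n a hn2 ha han
  obtain ⟨κ, hκ, hlim⟩ := JG8_lim par Fin.succ r y v n a hn2 ha (by omega) hc
  set J : ℕ → ℂ := fun N => (∏ i, (-(-1) ^ (n + a) * cG8 (r i) n (N + a) /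
      (4 * Real.pi * (Dg n a (N + a) : ℂ)))) *
        ((Dg n a (N + a) : ℂ) / ((N + a : ℕ) : ℂ) ^ 2) ^ m *
        JG8 par Fin.succ (fun i => (r i : ℝ)) n a (N + a) with hJ
  have hasy : Tendsto (fun N : ℕ => J N /
        ((((N : ℝ) + a) ^ (2 * (n : ℝ) - 5 / 2) : ℝ) *
          exp ((N + a) * ((2 * Real.pi * W.re : ℝ) +
            (2 * Real.pi * W.im - Real.pi ^ 2 * σ + 2 * Real.pi ^ 2 * (m + 1) : ℝ) * I) /
              (2 * Real.pi)))) atTop (𝓝 κ) := by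
    have h2 := hlim.comp (tendsto_add_atTop_nat a)
    refine h2.congr' ?_
    filter_upwards with N
    simp only [Function.comp, hJ]
    have hexp : (2 * (n : ℝ) - 5 / 2) * (((m + 1 : ℕ) : ℝ) - m) = 2 * (n : ℝ) - 5 / 2 := by
      push_cast; ring
    rw [hexp]
    congr 2
    · push_cast
      rfl
    · congr 1
      rw [← hW, e2]
      push_cast
      conv_lhs => rw [e]
      field_simp
      ring
  have hnorm : Tendsto (fun N : ℕ => ‖J N‖ /
        (((N + a : ℕ) : ℝ) ^ (2 * (n : ℝ) - 5 / 2) * Real.exp ((N + a : ℕ) * W.re)))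
        atTop (𝓝 ‖κ‖) := by
    refine (hasy.norm).congr fun N => ?_
    rw [norm_div]
    congr 1
    rw [norm_mul, Complex.norm_exp, Complex.norm_real, Real.norm_eq_abs,
      abs_of_nonneg (by positivity)]
    congr 1
    · push_cast
      rfl
    · congr 1
      have e : ((N : ℂ) + a) * ((2 * Real.pi * W.re : ℝ) +
            (2 * Real.pi * W.im - Real.pi ^ 2 * σ + 2 * Real.pi ^ 2 * (m + 1) : ℝ) * I) /
              (2 * Real.pi) =
          (((N : ℝ) + a) * W.re : ℝ) + (((N : ℝ) + a) *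
            (W.im - Real.pi * σ / 2 + Real.pi * (m + 1)) : ℝ) * I := by
        push_cast
        field_simp
      rw [e]
      simp
  have hlog := final_log J a ha (2 * (n : ℝ) - 5 / 2) W.re ‖κ‖ (norm_pos_iff.2 hκ) hnorm
  refine ⟨J, ?_, log_lift J a ha _ _ κ hκ hasy, hlog, κ, hκ, hasy⟩
  intro N hN
  have := root_lim8 m par hpar r n a N hn2 ha (by omega) hN
  have hcast : ((N + a : ℕ) : ℂ) = (N : ℂ) + a := by push_cast; rfl
  rw [← hcast]
  exact this

end Pool.Agent.H63.VC8
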