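import Pool.Agent.H63.VC8.Defs8
import Pool.Agent.H63.VC7.RootLim

/-! # The limit of the weight of an edge -/

namespace Pool.Agent.H63.VC8

open Pool.Agent.H63.VC hiding ext
open Pool.Agent.H63.VC3 Pool.Agent.H63.VC4 Pool.Agent.H63.VC6 Pool.Agent.H63.VC7 Complex Filter Topology

variable {m p : ℕ}

/-! ### Values at the root of unity -/

theorem EdgeLim8_nat (M b : ℕ) (a : ℤ) (ha : a = b) :
    br (exp (Real.pi * I / (M : ℂ))) a = I * (sg M b : ℝ) := by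
  subst ha
  rw [RootLim_br, sg]
  push_cast
  ring

theorem EdgeLim8_shift (M : ℕ) (hM : 0 < M) (a : ℤ) :
    br (exp (Real.pi * I / (M : ℂ))) ((M : ℤ) + a) = -br (exp (Real.pi * I / (M : ℂ))) a := by
  have hM' : (M : ℂ) ≠ 0 := by exact_mod_cast hM.ne'
  rw [RootLim_br, RootLim_br]
  have e : (Real.pi * (((M : ℤ) + a : ℤ) : ℂ) / (M : ℂ) : ℂ) = Real.pi * (a : ℂ) / M + Real.pi := by
    push_cast
    field_simp
    ring
  rw [e, Complex.sin_add_pi]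
  ring

theorem EdgeLim8_refl (M : ℕ) (hM : 0 < M) (a : ℤ) :
    br (exp (Real.pi * I / (M : ℂ))) ((M : ℤ) - a) = br (exp (Real.pi * I / (M : ℂ))) a := by
  have hM' : (M : ℂ) ≠ 0 := by exact_mod_cast hM.ne'
  rw [RootLim_br, RootLim_br]
  have e : (Real.pi * (((M : ℤ) - a : ℤ) : ℂ) / (M : ℂ) : ℂ) = Real.pi - Real.pi * (a : ℂ) / M := by
    push_cast
    field_simp
  rw [e, Complex.sin_pi_sub]

theorem EdgeLim8_ne0 (M : ℕ) (a : ℤ) (h0 : 0 < a) (h1 : a < M) :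
    br (exp (Real.pi * I / (M : ℂ))) a ≠ 0 := by
  obtain ⟨b, rfl⟩ : ∃ b : ℕ, a = b := ⟨a.toNat, by omega⟩
  rw [EdgeLim8_nat M b b rfl]
  have h := (sg_pos (M := M) (m := b) (by omega) (by omega)).ne'
  exact mul_ne_zero I_ne_zero (by exact_mod_cast h)

theorem EdgeLim8_ne (M : ℕ) (a : ℤ) (h0 : 0 < a) (h1 : a < 3 * M) (h2 : a ≠ M)
    (h3 : a ≠ 2 * M) : br (exp (Real.pi * I / (M : ℂ))) a ≠ 0 := by
  have hM : 0 < M := by omega
  by_cases c1 : a < M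
  · exact EdgeLim8_ne0 M a h0 c1
  by_cases c2 : a < 2 * M
  · obtain ⟨b, rfl⟩ : ∃ b : ℤ, a = M + b := ⟨a - M, by ring⟩
    rw [EdgeLim8_shift M hM, neg_ne_zero]
    exact EdgeLim8_ne0 M b (by omega) (by omega)
  · obtain ⟨b, rfl⟩ : ∃ b : ℤ, a = M + (M + b) := ⟨a - 2 * M, by ring⟩
    rw [EdgeLim8_shift M hM, EdgeLim8_shift M hM, neg_neg]
    exact EdgeLim8_ne0 M b (by omega) (by omega)

theorem EdgeLim8_pow (M : ℕ) (hM : 0 < M) :
    exp (Real.pi * I / (M : ℂ)) ^ (M : ℤ) = -1 := by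
  have hM' : (M : ℂ) ≠ 0 := by exact_mod_cast hM.ne'
  rw [← exp_int_mul]
  have e : ((M : ℤ) : ℂ) * (Real.pi * I / (M : ℂ)) = Real.pi * I := by
    push_cast
    field_simp
  rw [e, exp_pi_mul_I]

theorem EdgeLim8_pow' (M : ℕ) (hM : 0 < M) :
    exp (Real.pi * I / (M : ℂ)) ^ (-(M : ℤ)) = -1 := by
  rw [zpow_neg, EdgeLim8_pow M hM]
  norm_num

/-! ### The regular part of a factor -/

/-- the regular part of a factor at the root of unity -/
noncomputable def EdgeLim8_reg (M : ℕ) (a : ℤ) (q : ℂ) : ℂ :=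
  if a = M then 1 else if a = 2 * M then q ^ (M : ℤ) + q ^ (-(M : ℤ)) else br q a

theorem EdgeLim8_reg_eq (M : ℕ) (_hM : 0 < M) (a : ℤ) (q : ℂ) (hq : q ≠ 0) :
    br q a = br q M ^ (if a = M ∨ a = 2 * M then 1 else 0) * EdgeLim8_reg M a q := by
  unfold EdgeLim8_reg
  by_cases h1 : a = M
  · rw [if_pos (Or.inl h1), if_pos h1, h1, pow_one, mul_one]
  by_cases h2 : a = 2 * M
  · rw [if_pos (Or.inr h2), if_neg h1, if_pos h2, h2, pow_one]
    unfold br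
    have e1 : q ^ (2 * (M : ℤ)) = q ^ (M : ℤ) * q ^ (M : ℤ) := by
      rw [← zpow_add₀ hq]
      congr 1
      ring
    have e2 : q ^ (-(2 * (M : ℤ))) = q ^ (-(M : ℤ)) * q ^ (-(M : ℤ)) := by
      rw [← zpow_add₀ hq]
      congr 1
      ring
    rw [e1, e2]
    ring
  · rw [if_neg (by tauto), if_neg h1, if_neg h2, pow_zero, one_mul]

theorem EdgeLim8_reg_cont (M : ℕ) (a : ℤ) (x : ℂ) (hx : x ≠ 0) :
    ContinuousAt (EdgeLim8_reg M a) x := by
  unfold EdgeLim8_reg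
  by_cases h1 : a = M
  · simp only [if_pos h1]
    exact continuousAt_const
  by_cases h2 : a = 2 * M
  · simp only [if_neg h1, if_pos h2]
    exact (continuousAt_zpow₀ x _ (Or.inl hx)).add (continuousAt_zpow₀ x _ (Or.inl hx))
  · simp only [if_neg h1, if_neg h2]
    exact RootLim_br_cont x hx a

theorem EdgeLim8_reg_ne (M : ℕ) (a : ℤ) (h0 : 0 < a) (h1 : a < 3 * M) :
    EdgeLim8_reg M a (exp (Real.pi * I / (M : ℂ))) ≠ 0 := by
  have hM : 0 < M := by omega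
  unfold EdgeLim8_reg
  by_cases h2 : a = M
  · rw [if_pos h2]
    exact one_ne_zero
  by_cases h3 : a = 2 * M
  · rw [if_neg h2, if_pos h3, EdgeLim8_pow M hM, EdgeLim8_pow' M hM]
    norm_num
  · rw [if_neg h2, if_neg h3]
    exact EdgeLim8_ne M a h0 h1 h2 h3

theorem EdgeLim8_br_ne (M : ℕ) (hM : 0 < M) :
    ∀ᶠ q in 𝓝[≠] exp (Real.pi * I / (M : ℂ)), br q M ≠ 0 := by
  have hx : exp (Real.pi * I / (M : ℂ)) ≠ 0 := exp_ne_zero _
  have hM' : (M : ℂ) ≠ 0 := by exact_mod_cast hM.ne'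
  have h1 := (hasDerivAt_zpow (M : ℤ) (exp (Real.pi * I / (M : ℂ))) (Or.inl hx)).sub
    (hasDerivAt_zpow (-(M : ℤ)) (exp (Real.pi * I / (M : ℂ))) (Or.inl hx))
  refine h1.eventually_ne ?_
  have e1 : exp (Real.pi * I / (M : ℂ)) ^ ((M : ℤ) - 1) = -(exp (Real.pi * I / (M : ℂ)))⁻¹ := by
    rw [zpow_sub₀ hx, EdgeLim8_pow M hM, zpow_one]
    rw [neg_div, one_div]
  have e2 : exp (Real.pi * I / (M : ℂ)) ^ (-(M : ℤ) - 1) =
      -(exp (Real.pi * I / (M : ℂ)))⁻¹ := by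
    rw [zpow_sub₀ hx, EdgeLim8_pow' M hM, zpow_one]
    rw [neg_div, one_div]
  rw [e1, e2]
  have e3 : ((M : ℤ) : ℂ) * -(exp (Real.pi * I / (M : ℂ)))⁻¹ -
      ((-(M : ℤ) : ℤ) : ℂ) * -(exp (Real.pi * I / (M : ℂ)))⁻¹ =
      -(2 * (M : ℂ) * (exp (Real.pi * I / (M : ℂ)))⁻¹) := by
    push_cast
    ring
  rw [e3]
  exact neg_ne_zero.2 (mul_ne_zero (mul_ne_zero two_ne_zero hM') (inv_ne_zero hx))

/-- The denominator of the weight of an edge. -/
theorem EdgeLim8_den (n g N t : ℕ) (hn : 2 ≤ n) (hg : 1 ≤ g) (hgn : g < n) (hN : n ≤ N)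
    (ht : t ≤ N) : ∃ R : ℂ → ℂ, ContinuousAt R (exp (Real.pi * I / ((N + g : ℕ) : ℂ))) ∧
      R (exp (Real.pi * I / ((N + g : ℕ) : ℂ))) ≠ 0 ∧ ∀ q ≠ 0,
        ∏ i ∈ Finset.range t, (br q ((i : ℤ) + 1) * br q ((n : ℤ) + i - 1) *
          (br q ((n : ℤ) + N + i) * br q ((N : ℤ) - i))) =
        br q ((N + g : ℕ) : ℤ) ^ lev n g N t * R q := by
  have hx : exp (Real.pi * I / ((N + g : ℕ) : ℂ)) ≠ 0 := exp_ne_zero _
  induction t with
  | zero =>
    refine ⟨fun _ => 1, continuousAt_const, one_ne_zero, fun q _ => ?_⟩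
    have : lev n g N 0 = 0 := by
      unfold lev
      rw [if_neg (by omega), if_neg (by omega)]
    rw [this]
    simp
  | succ t ih =>
    obtain ⟨R, hR1, hR2, hR3⟩ := ih (by omega)
    refine ⟨fun q => R q * (br q ((t : ℤ) + 1) * EdgeLim8_reg (N + g) ((n : ℤ) + t - 1) q *
      (EdgeLim8_reg (N + g) ((n : ℤ) + N + t) q * br q ((N : ℤ) - t))), ?_, ?_, ?_⟩
    · exact hR1.mul (((RootLim_br_cont _ hx _).mul (EdgeLim8_reg_cont _ _ _ hx)).mul
        ((EdgeLim8_reg_cont _ _ _ hx).mul (RootLim_br_cont _ hx _)))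
    · refine mul_ne_zero hR2 (mul_ne_zero (mul_ne_zero ?_ ?_) (mul_ne_zero ?_ ?_))
      · exact EdgeLim8_ne0 (N + g) _ (by omega) (by push_cast; omega)
      · exact EdgeLim8_reg_ne (N + g) _ (by omega) (by push_cast; omega)
      · exact EdgeLim8_reg_ne (N + g) _ (by omega) (by push_cast; omega)
      · exact EdgeLim8_ne0 (N + g) _ (by omega) (by push_cast; omega)
    · intro q hq
      rw [Finset.prod_range_succ, hR3 q hq,
        EdgeLim8_reg_eq (N + g) (by omega) ((n : ℤ) + t - 1) q hq,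
        EdgeLim8_reg_eq (N + g) (by omega) ((n : ℤ) + N + t) q hq]
      have e : lev n g N (t + 1) = lev n g N t +
          (if (n : ℤ) + t - 1 = ((N + g : ℕ) : ℤ) ∨ (n : ℤ) + t - 1 = 2 * ((N + g : ℕ) : ℤ)
            then 1 else 0) +
          (if (n : ℤ) + N + t = ((N + g : ℕ) : ℤ) ∨ (n : ℤ) + N + t = 2 * ((N + g : ℕ) : ℤ)
            then 1 else 0) := by
        unfold lev
        split_ifs <;> omega
      rw [e, pow_add, pow_add]
      ring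

/-- The order of the pole. -/
theorem edge_lev (n g N t : ℕ) (hn : 2 ≤ n) (hg : 1 ≤ g) (hgn : g < n) (hN : n ≤ N) (ht : t ≤ N) :
    ∃ L : ℂ, Tendsto (fun q => br q ((N : ℤ) + g) ^ lev n g N t * E8 n N q t)
      (𝓝[≠] exp (Real.pi * I / ((N + g : ℕ) : ℂ))) (𝓝 L) := by
  obtain ⟨R, hR1, hR2, hR3⟩ := EdgeLim8_den n g N t hn hg hgn hN ht
  refine ⟨(-1) ^ t / R (exp (Real.pi * I / ((N + g : ℕ) : ℂ))), ?_⟩
  have hx : exp (Real.pi * I / ((N + g : ℕ) : ℂ)) ≠ 0 := exp_ne_zero _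
  have h1 : Tendsto (fun q => (-1) ^ t / R q) (𝓝[≠] exp (Real.pi * I / ((N + g : ℕ) : ℂ)))
      (𝓝 ((-1) ^ t / R (exp (Real.pi * I / ((N + g : ℕ) : ℂ))))) :=
    (tendsto_const_nhds.div hR1.tendsto hR2).mono_left nhdsWithin_le_nhds
  refine h1.congr' ?_
  have hq0 : ∀ᶠ q in 𝓝[≠] exp (Real.pi * I / ((N + g : ℕ) : ℂ)), q ≠ 0 :=
    (eventually_ne_nhds hx).filter_mono nhdsWithin_le_nhds
  filter_upwards [hq0, EdgeLim8_br_ne (N + g) (by omega)] with q hq hq'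
  unfold E8
  rw [hR3 q hq]
  have e : ((N : ℤ) + g) = ((N + g : ℕ) : ℤ) := by push_cast; rfl
  rw [e, ← mul_div_assoc, mul_div_mul_left _ _ (pow_ne_zero _ hq')]

/-- The value of the denominator at the root of unity. -/
theorem EdgeLim8_prod (d c N t : ℕ) (ht : t ≤ N) :
    (∏ i ∈ Finset.range t, (br (exp (Real.pi * I / ((N + (d + 1) : ℕ) : ℂ))) ((i : ℤ) + 1) *
      br (exp (Real.pi * I / ((N + (d + 1) : ℕ) : ℂ))) (((d + c + 2 : ℕ) : ℤ) + i - 1) *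
      (br (exp (Real.pi * I / ((N + (d + 1) : ℕ) : ℂ))) (((d + c + 2 : ℕ) : ℤ) + N + i) *
      br (exp (Real.pi * I / ((N + (d + 1) : ℕ) : ℂ))) ((N : ℤ) - i)))) *
      ((S (N + (d + 1)) d : ℝ) * (S (N + (d + 1)) c : ℝ) * (S (N + (d + 1)) (d + c) : ℝ)) =
    (-1) ^ t * ((S (N + (d + 1)) t : ℝ) * (S (N + (d + 1)) (d + c + t) : ℝ) *
      (S (N + (d + 1)) (c + t) : ℝ) * (S (N + (d + 1)) (d + t) : ℝ)) := by
  induction t with
  | zero =>
    simp [S]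
    ring
  | succ t ih =>
    have hM : 0 < N + (d + 1) := by omega
    have h1 : br (exp (Real.pi * I / ((N + (d + 1) : ℕ) : ℂ))) ((t : ℤ) + 1) =
        I * (sg (N + (d + 1)) (t + 1) : ℝ) :=
      EdgeLim8_nat _ (t + 1) _ (by push_cast; ring)
    have h2 : br (exp (Real.pi * I / ((N + (d + 1) : ℕ) : ℂ)))
        (((d + c + 2 : ℕ) : ℤ) + t - 1) = I * (sg (N + (d + 1)) (d + c + t + 1) : ℝ) :=
      EdgeLim8_nat _ (d + c + t + 1) _ (by push_cast; ring)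
    have h3 : br (exp (Real.pi * I / ((N + (d + 1) : ℕ) : ℂ)))
        (((d + c + 2 : ℕ) : ℤ) + N + t) = -(I * (sg (N + (d + 1)) (c + t + 1) : ℝ)) := by
      have e : (((d + c + 2 : ℕ) : ℤ) + N + t) =
          ((N + (d + 1) : ℕ) : ℤ) + ((c + t + 1 : ℕ) : ℤ) := by
        push_cast
        ring
      rw [e, EdgeLim8_shift _ hM, EdgeLim8_nat _ (c + t + 1) _ rfl]
    have h4 : br (exp (Real.pi * I / ((N + (d + 1) : ℕ) : ℂ))) ((N : ℤ) - t) =
        I * (sg (N + (d + 1)) (d + t + 1) : ℝ) := by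
      have e : ((N : ℤ) - t) = ((N + (d + 1) : ℕ) : ℤ) - ((d + t + 1 : ℕ) : ℤ) := by
        push_cast
        ring
      rw [e, EdgeLim8_refl _ hM, EdgeLim8_nat _ (d + t + 1) _ rfl]
    have hI : I ^ 4 = 1 := by
      rw [show (4 : ℕ) = 2 * 2 from rfl, pow_mul, I_sq]
      norm_num
    have ih' := ih (by omega)
    rw [Finset.prod_range_succ, h1, h2, h3, h4]
    rw [show d + c + (t + 1) = d + c + t + 1 from rfl, show c + (t + 1) = c + t + 1 from rfl,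
      show d + (t + 1) = d + t + 1 from rfl, S_succ _ t, S_succ _ (d + c + t),
      S_succ _ (c + t), S_succ _ (d + t), pow_succ (-1 : ℂ) t]
    push_cast at ih' ⊢
    linear_combination (-(I ^ 4 * (sg (N + (d + 1)) (t + 1) : ℂ) *
      (sg (N + (d + 1)) (d + c + t + 1) : ℂ) * (sg (N + (d + 1)) (c + t + 1) : ℂ) *
      (sg (N + (d + 1)) (d + t + 1) : ℂ))) * ih' -
      (-1) ^ t * ((S (N + (d + 1)) t : ℂ) * (S (N + (d + 1)) (d + c + t) : ℂ) *
      (S (N + (d + 1)) (c + t) : ℂ) * (S (N + (d + 1)) (d + t) : ℂ)) *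
      ((sg (N + (d + 1)) (t + 1) : ℂ) * (sg (N + (d + 1)) (d + c + t + 1) : ℂ) *
      (sg (N + (d + 1)) (c + t + 1) : ℂ) * (sg (N + (d + 1)) (d + t + 1) : ℂ)) * hI

/-- The limit of a regular weight. -/
theorem edge_lim (n g N t : ℕ) (hn : 2 ≤ n) (hg : 1 ≤ g) (hgn : g < n) (hN : n ≤ N)
    (ht : t + n ≤ N + g + 1) :
    Tendsto (fun q => E8 n N q t) (𝓝[≠] exp (Real.pi * I / ((N + g : ℕ) : ℂ)))
      (𝓝 ((Dg n g (N + g) : ℂ) / ((N + g : ℕ) : ℂ) ^ 4 *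
        Cc n g (N + g) (yk n (N + g) (N + g + 1 - n - t)))) := by
  obtain ⟨d, rfl⟩ : ∃ d, g = d + 1 := ⟨g - 1, by omega⟩
  obtain ⟨c, rfl⟩ : ∃ c, n = d + c + 2 := ⟨n - (d + 2), by omega⟩
  have htc : t + c ≤ N := by omega
  have hx : exp (Real.pi * I / ((N + (d + 1) : ℕ) : ℂ)) ≠ 0 := exp_ne_zero _
  have hP := EdgeLim8_prod d c N t (by omega)
  set P : ℂ → ℂ := fun q => ∏ i ∈ Finset.range t, (br q ((i : ℤ) + 1) *
    br q (((d + c + 2 : ℕ) : ℤ) + i - 1) *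
    (br q (((d + c + 2 : ℕ) : ℤ) + N + i) * br q ((N : ℤ) - i))) with hPdef
  have hPc : ContinuousAt P (exp (Real.pi * I / ((N + (d + 1) : ℕ) : ℂ))) := by
    refine tendsto_finsetProd _ fun i _ => ?_
    exact ((RootLim_br_cont _ hx _).mul (RootLim_br_cont _ hx _)).mul
      ((RootLim_br_cont _ hx _).mul (RootLim_br_cont _ hx _))
  have hS : ∀ j, j < N + (d + 1) → (S (N + (d + 1)) j : ℂ) ≠ 0 := fun j hj => by
    exact_mod_cast (S_pos hj).ne'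
  have hSM : ∀ j l, j + l = N + d → (S (N + (d + 1)) j : ℂ) * (S (N + (d + 1)) l : ℂ) =
      ((N + (d + 1) : ℕ) : ℂ) := by
    intro j l hjl
    have h := S_mul (M := N + (d + 1)) (k := j) (by omega)
    rw [show N + (d + 1) - 1 - j = l by omega] at h
    exact_mod_cast h
  have h1 : ((-1 : ℂ)) ^ t ≠ 0 := pow_ne_zero _ (by norm_num)
  have hM0 : ((N + (d + 1) : ℕ) : ℂ) ≠ 0 := by exact_mod_cast (by omega : N + (d + 1) ≠ 0)
  have hPx : P (exp (Real.pi * I / ((N + (d + 1) : ℕ) : ℂ))) ≠ 0 := by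
    intro h0
    have h2 : P (exp (Real.pi * I / ((N + (d + 1) : ℕ) : ℂ))) *
        ((S (N + (d + 1)) d : ℝ) * (S (N + (d + 1)) c : ℝ) * (S (N + (d + 1)) (d + c) : ℝ)) =
        (-1) ^ t * ((S (N + (d + 1)) t : ℝ) * (S (N + (d + 1)) (d + c + t) : ℝ) *
      (S (N + (d + 1)) (c + t) : ℝ) * (S (N + (d + 1)) (d + t) : ℝ)) := hP
    rw [h0, zero_mul] at h2
    exact mul_ne_zero h1 (mul_ne_zero (mul_ne_zero (mul_ne_zero (hS t (by omega))
      (hS (d + c + t) (by omega))) (hS (c + t) (by omega))) (hS (d + t) (by omega))) h2.symm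
  have h3 : Tendsto (fun q => (-1) ^ t / P q) (𝓝[≠] exp (Real.pi * I / ((N + (d + 1) : ℕ) : ℂ)))
      (𝓝 ((-1) ^ t / P (exp (Real.pi * I / ((N + (d + 1) : ℕ) : ℂ))))) :=
    (tendsto_const_nhds.div hPc.tendsto hPx).mono_left nhdsWithin_le_nhds
  have e1 : (-1) ^ t / P (exp (Real.pi * I / ((N + (d + 1) : ℕ) : ℂ))) =
      (Dg (d + c + 2) (d + 1) (N + (d + 1)) : ℂ) / ((N + (d + 1) : ℕ) : ℂ) ^ 4 *
        Cc (d + c + 2) (d + 1) (N + (d + 1)) (yk (d + c + 2) (N + (d + 1))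
          (N + (d + 1) + 1 - (d + c + 2) - t)) := by
    rw [Cc_yk (d + c + 2) (d + 1) (N + (d + 1)) _ (by omega) (by omega) (by omega) (by omega)]
    unfold Dg
    have a1 : N + (d + 1) + 1 - (d + c + 2) - t = N - c - t := by omega
    have a2 : d + 1 - 1 = d := by omega
    have a3 : d + c + 2 - (d + 1) - 1 = c := by omega
    have a4 : d + c + 2 - 2 = d + c := by omega
    rw [a1, a2, a3, a4]
    have b1 := hSM (N - c - t) (d + c + t) (by omega)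
    have b2 := hSM (N - c - t + d) (c + t) (by omega)
    have b3 := hSM (N - c - t + c) (d + t) (by omega)
    have b4 := hSM (N - c - t + (d + c)) t (by omega)
    have h2 : P (exp (Real.pi * I / ((N + (d + 1) : ℕ) : ℂ))) *
        ((S (N + (d + 1)) d : ℝ) * (S (N + (d + 1)) c : ℝ) * (S (N + (d + 1)) (d + c) : ℝ)) =
        (-1) ^ t * ((S (N + (d + 1)) t : ℝ) * (S (N + (d + 1)) (d + c + t) : ℝ) *
      (S (N + (d + 1)) (c + t) : ℝ) * (S (N + (d + 1)) (d + t) : ℝ)) := hP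
    rw [div_eq_iff hPx, div_mul_eq_mul_div, div_mul_eq_mul_div, eq_div_iff (pow_ne_zero 4 hM0)]
    push_cast at h2 b1 b2 b3 b4 ⊢
    have h5 : ((-1 : ℂ) ^ t) * (-1) ^ t = 1 := by
      rw [← mul_pow]
      norm_num
    have h6 : ((N : ℂ) + (d + 1)) ^ 4 =
        ((S (N + (d + 1)) (N - c - t) : ℂ) * (S (N + (d + 1)) (d + c + t) : ℂ)) *
        ((S (N + (d + 1)) (N - c - t + d) : ℂ) * (S (N + (d + 1)) (c + t) : ℂ)) *
        ((S (N + (d + 1)) (N - c - t + c) : ℂ) * (S (N + (d + 1)) (d + t) : ℂ)) *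
        ((S (N + (d + 1)) (N - c - t + (d + c)) : ℂ) * (S (N + (d + 1)) t : ℂ)) := by
      rw [b1, b2, b3, b4]
      ring
    rw [h6]
    linear_combination (-((S (N + (d + 1)) (N - c - t) : ℂ) *
      (S (N + (d + 1)) (N - c - t + d) : ℂ) * (S (N + (d + 1)) (N - c - t + c) : ℂ) *
      (S (N + (d + 1)) (N - c - t + (d + c)) : ℂ))) * h2
  rw [← e1]
  exact h3

end Pool.Agent.H63.VC8
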