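import Pool.Agent.H63.VC.Asym
import Pool.Agent.H63.VC.EndB
import Pool.Agent.H63.VC.Riem
import Pool.Agent.H63.VC.SlowL
import Pool.Agent.H63.VC.SlowU
import Pool.Agent.H63.VC.Small
import Pool.Agent.H63.VC3.CritB
import Pool.Agent.H63.VC3.Upper
import Pool.Agent.H63.VC3.WinFacts
import Pool.Agent.H63.VC4.KBN
import Pool.Agent.H63.VC4.UpperN
import Pool.Agent.H63.VC6.LocU
import Pool.Agent.H63.VC6.SlotU
import Pool.Agent.H63.VC8.Defs8

/-! # The even factor -/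

namespace Pool.Agent.H63.VC8

open Pool.Agent.H63.VC hiding ext
open Pool.Agent.H63.VC3 Pool.Agent.H63.VC4 Pool.Agent.H63.VC6 Pool.Agent.H63.VC7 Complex

variable {m p : ℕ}

/-- One factor of the even factor. -/
noncomputable def BnB8_f (n M j : ℕ) (v : ℂ) : ℂ :=
  2 * Complex.cos (Real.pi * (v + ((j : ℂ) + 1 - bt n) / M))

theorem BnB8_eq (n M : ℕ) (v : ℂ) : Bn n M v = ∏ j ∈ Finset.range (n - 2), BnB8_f n M j v := rfl

theorem BnB8_shift {n M j : ℕ} (hM : 1000 * (n + 1) ≤ M) (hj : j ∈ Finset.range (n - 2)) :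
    |((j : ℝ) + 1 - bt n) / M| ≤ 1 / 1000 := by
  rw [Finset.mem_range] at hj
  have hn : (3 : ℝ) ≤ n := by exact_mod_cast (show 3 ≤ n by omega)
  have hj' : (j : ℝ) + 1 ≤ n := by exact_mod_cast (show j + 1 ≤ n by omega)
  have hj0 : (0 : ℝ) ≤ j := Nat.cast_nonneg j
  have hM' : 1000 * ((n : ℝ) + 1) ≤ M := by exact_mod_cast hM
  have hM0 : (0 : ℝ) < M := by linarith
  rw [abs_div, abs_of_pos hM0, div_le_iff₀ hM0]
  have h1 : |(j : ℝ) + 1 - bt n| ≤ n := by
    unfold bt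
    rw [abs_le]
    constructor <;> linarith
  linarith

theorem BnB8_arg_re (n M j : ℕ) (v : ℂ) :
    (((Real.pi : ℝ) : ℂ) * (v + ((j : ℂ) + 1 - bt n) / M)).re
      = Real.pi * (v.re + ((j : ℝ) + 1 - bt n) / M) := by
  have e : ((j : ℂ) + 1 - bt n) / M = ((((j : ℝ) + 1 - bt n) / M : ℝ) : ℂ) := by push_cast; rfl
  rw [e, Complex.re_ofReal_mul, Complex.add_re, Complex.ofReal_re]

theorem BnB8_arg_im (n M j : ℕ) (v : ℂ) :
    (((Real.pi : ℝ) : ℂ) * (v + ((j : ℂ) + 1 - bt n) / M)).im = Real.pi * v.im := by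
  have e : ((j : ℂ) + 1 - bt n) / M = ((((j : ℝ) + 1 - bt n) / M : ℝ) : ℂ) := by push_cast; rfl
  rw [e, Complex.im_ofReal_mul, Complex.add_im, Complex.ofReal_im, add_zero]

theorem BnB8_cos_ge (z : ℂ) : |Real.cos z.re| ≤ ‖Complex.cos z‖ := by
  have h1 : (Complex.cos z).re = Real.cos z.re * Real.cosh z.im := by
    have h2 := Complex.cos_eq z
    rw [h2, ← Complex.ofReal_cos, ← Complex.ofReal_cosh, ← Complex.ofReal_sin,
      ← Complex.ofReal_sinh, ← Complex.ofReal_mul, ← Complex.ofReal_mul, Complex.sub_re,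
      Complex.ofReal_re, Complex.re_ofReal_mul, Complex.I_re, mul_zero, sub_zero]
  refine le_trans ?_ (Complex.abs_re_le_norm _)
  rw [h1, abs_mul, abs_of_pos (Real.cosh_pos _)]
  exact le_mul_of_one_le_right (abs_nonneg _) (Real.one_le_cosh _)

theorem BnB8_cos_le (z : ℂ) : ‖Complex.cos z‖ ≤ Real.exp |z.im| := by
  have h1 : Complex.cos z = (Complex.exp (z * I) + Complex.exp (-z * I)) / 2 := rfl
  rw [h1, norm_div]
  have h2 : ‖(2 : ℂ)‖ = 2 := by norm_num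
  rw [h2, div_le_iff₀ (by norm_num)]
  refine (norm_add_le _ _).trans ?_
  rw [Complex.norm_exp, Complex.norm_exp]
  have e1 : (z * I).re = -z.im := by simp
  have e2 : (-z * I).re = z.im := by simp
  rw [e1, e2]
  have h3 : Real.exp (-z.im) ≤ Real.exp |z.im| := Real.exp_le_exp.2 (neg_le_abs _)
  have h4 : Real.exp z.im ≤ Real.exp |z.im| := Real.exp_le_exp.2 (le_abs_self _)
  linarith

theorem BnB8_f_ge {n M j : ℕ} (hM : 1000 * (n + 1) ≤ M) (hj : j ∈ Finset.range (n - 2)) {v : ℂ}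
    (hv : |v.re| ≤ 16 / 100) : 1 ≤ ‖BnB8_f n M j v‖ := by
  have h1 := BnB8_shift hM hj
  unfold BnB8_f
  rw [norm_mul]
  have h2 : ‖(2 : ℂ)‖ = 2 := by norm_num
  rw [h2]
  have h3 := BnB8_cos_ge (((Real.pi : ℝ) : ℂ) * (v + ((j : ℂ) + 1 - bt n) / M))
  rw [BnB8_arg_re] at h3
  set x : ℝ := v.re + ((j : ℝ) + 1 - bt n) / M with hx
  have h4 : |x| ≤ 1 / 3 := by
    refine (abs_add_le _ _).trans ?_
    linarith
  have h5 : 1 / 2 ≤ Real.cos (Real.pi * x) := by
    rw [← Real.cos_pi_div_three, ← Real.cos_abs (Real.pi * x)]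
    refine Real.cos_le_cos_of_nonneg_of_le_pi (abs_nonneg _) ?_ ?_
    · have := Real.pi_pos
      linarith
    · rw [abs_mul, abs_of_pos Real.pi_pos]
      have := Real.pi_pos
      nlinarith
  have h6 := le_abs_self (Real.cos (Real.pi * x))
  linarith

theorem BnB8_f_le (n M j : ℕ) {v : ℂ} (hv : |v.im| ≤ 1 / 10) : ‖BnB8_f n M j v‖ ≤ 6 := by
  unfold BnB8_f
  rw [norm_mul]
  have h2 : ‖(2 : ℂ)‖ = 2 := by norm_num
  rw [h2]
  have h3 := BnB8_cos_le (((Real.pi : ℝ) : ℂ) * (v + ((j : ℂ) + 1 - bt n) / M))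
  rw [BnB8_arg_im] at h3
  have h4 : |Real.pi * v.im| ≤ 1 := by
    rw [abs_mul, abs_of_pos Real.pi_pos]
    have := Real.pi_lt_four
    have := Real.pi_pos
    nlinarith [abs_nonneg v.im]
  have h5 : Real.exp |Real.pi * v.im| ≤ 3 := by
    refine (Real.exp_le_exp.2 h4).trans ?_
    have := Real.exp_one_lt_d9
    linarith
  linarith

theorem BnB8_one_le_prod (s : Finset ℕ) (f : ℕ → ℝ) (h : ∀ j ∈ s, 1 ≤ f j) :
    1 ≤ ∏ j ∈ s, f j := by
  induction s using Finset.induction_on with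
  | empty => simp
  | insert a s ha ih =>
    rw [Finset.prod_insert ha]
    have h1 := h a (Finset.mem_insert_self _ _)
    have h2 := ih (fun j hj => h j (Finset.mem_insert_of_mem hj))
    nlinarith

/-- Lower and upper bounds of the even factor near the imaginary axis. -/
theorem BnB8_bound (n : ℕ) : ∃ c C : ℝ, 0 < c ∧ 0 < C ∧ ∀ (M : ℕ) (v : ℂ), 1000 * (n + 1) ≤ M →
    |v.re| ≤ 16 / 100 → |v.im| ≤ 1 / 10 → c ≤ ‖Bn n M v‖ ∧ ‖Bn n M v‖ ≤ C := by
  refine ⟨1, 6 ^ (n - 2), one_pos, by positivity, fun M v hM hre him => ?_⟩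
  rw [BnB8_eq, _root_.norm_prod]
  constructor
  · exact BnB8_one_le_prod _ _ (fun j hj => BnB8_f_ge hM hj hre)
  · calc ∏ j ∈ Finset.range (n - 2), ‖BnB8_f n M j v‖
        ≤ ∏ _j ∈ Finset.range (n - 2), (6 : ℝ) :=
          Finset.prod_le_prod (fun j _ => norm_nonneg _) (fun j _ => BnB8_f_le n M j him)
      _ = 6 ^ (n - 2) := by rw [Finset.prod_const, Finset.card_range]

theorem BnB8_ne (n M : ℕ) (hM : 1000 * (n + 1) ≤ M) (v : ℂ) (hv : |v.re| ≤ 16 / 100) :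
    Bn n M v ≠ 0 := by
  rw [BnB8_eq, Finset.prod_ne_zero_iff]
  intro j hj h0
  have h1 := BnB8_f_ge hM hj hv
  rw [h0, norm_zero] at h1
  linarith

/-- The limit of the even factor. -/
theorem BnB8_lim (n : ℕ) (v : ℂ) (V : ℕ → ℂ) (hV : Filter.Tendsto V Filter.atTop (nhds v)) :
    Filter.Tendsto (fun M : ℕ => Bn n M (V M)) Filter.atTop
      (nhds ((2 * cos (Real.pi * v)) ^ (n - 2))) := by
  have h0 : (2 * cos (Real.pi * v)) ^ (n - 2)
      = ∏ _j ∈ Finset.range (n - 2), (2 * cos (Real.pi * v)) := by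
    rw [Finset.prod_const, Finset.card_range]
  rw [h0]
  simp only [BnB8_eq]
  refine tendsto_finsetProd _ (fun j _ => ?_)
  unfold BnB8_f
  have h1 : Filter.Tendsto (fun M : ℕ => ((j : ℂ) + 1 - bt n) / (M : ℂ)) Filter.atTop (nhds 0) :=
    tendsto_const_div_atTop_nhds_zero_nat _
  have h2 : Filter.Tendsto (fun M : ℕ => ((Real.pi : ℝ) : ℂ) * (V M + ((j : ℂ) + 1 - bt n) / M))
      Filter.atTop (nhds (((Real.pi : ℝ) : ℂ) * (v + 0))) :=
    (hV.add h1).const_mul _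
  rw [add_zero] at h2
  exact ((Complex.continuous_cos.tendsto _).comp h2).const_mul 2

theorem BnB8_hasDeriv (n M j : ℕ) (v : ℂ) : HasDerivAt (BnB8_f n M j)
    (-(2 * Real.pi) * Complex.sin (Real.pi * (v + ((j : ℂ) + 1 - bt n) / M))) v := by
  unfold BnB8_f
  have h1 : HasDerivAt (fun v : ℂ => ((Real.pi : ℝ) : ℂ) * (v + ((j : ℂ) + 1 - bt n) / M))
      (((Real.pi : ℝ) : ℂ) * 1) v :=
    ((hasDerivAt_id v).add_const _).const_mul _
  have h2 := (h1.ccos).const_mul 2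
  have e : 2 * (-Complex.sin (((Real.pi : ℝ) : ℂ) * (v + ((j : ℂ) + 1 - bt n) / M)) *
      (((Real.pi : ℝ) : ℂ) * 1))
      = -(2 * Real.pi) * Complex.sin (Real.pi * (v + ((j : ℂ) + 1 - bt n) / M)) := by ring
  rw [← e]
  exact h2

theorem BnB8_real_f (n M j : ℕ) (x : ℝ) : ‖BnB8_f n M j (x : ℂ)‖ ≤ 2 ∧
    ‖deriv (BnB8_f n M j) (x : ℂ)‖ ≤ 2 * Real.pi := by
  have e : ((Real.pi : ℝ) : ℂ) * ((x : ℂ) + ((j : ℂ) + 1 - bt n) / M)
      = ((Real.pi * (x + ((j : ℝ) + 1 - bt n) / M) : ℝ) : ℂ) := by push_cast; rfl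
  constructor
  · unfold BnB8_f
    rw [e, ← Complex.ofReal_cos, norm_mul, Complex.norm_real, Real.norm_eq_abs]
    have h2 : ‖(2 : ℂ)‖ = 2 := by norm_num
    rw [h2]
    have := Real.abs_cos_le_one (Real.pi * (x + ((j : ℝ) + 1 - bt n) / M))
    linarith
  · rw [(BnB8_hasDeriv n M j x).deriv, e, ← Complex.ofReal_sin, norm_mul, Complex.norm_real,
      Real.norm_eq_abs, norm_neg, norm_mul, Complex.norm_real, Real.norm_eq_abs,
      abs_of_pos Real.pi_pos]
    have h2 : ‖(2 : ℂ)‖ = 2 := by norm_num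
    rw [h2]
    have := Real.abs_sin_le_one (Real.pi * (x + ((j : ℝ) + 1 - bt n) / M))
    have := Real.pi_pos
    nlinarith

theorem BnB8_diff_prod (n M k : ℕ) :
    Differentiable ℂ (fun v => ∏ j ∈ Finset.range k, BnB8_f n M j v) := by
  induction k with
  | zero => simp
  | succ k ih =>
    simp only [Finset.prod_range_succ]
    exact ih.mul (fun v => (BnB8_hasDeriv n M k v).differentiableAt)

theorem BnB8_real_aux (n M k : ℕ) (x : ℝ) :
    ‖∏ j ∈ Finset.range k, BnB8_f n M j (x : ℂ)‖ ≤ 2 ^ k ∧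
    ‖deriv (fun v => ∏ j ∈ Finset.range k, BnB8_f n M j v) (x : ℂ)‖ ≤ 2 * Real.pi * k * 2 ^ k := by
  induction k with
  | zero => simp
  | succ k ih =>
    obtain ⟨h1, h2⟩ := ih
    obtain ⟨h3, h4⟩ := BnB8_real_f n M k x
    constructor
    · rw [Finset.prod_range_succ, norm_mul, pow_succ]
      exact mul_le_mul h1 h3 (norm_nonneg _) (by positivity)
    · simp only [Finset.prod_range_succ]
      have h5 : deriv (fun v => (∏ j ∈ Finset.range k, BnB8_f n M j v) * BnB8_f n M k v) (x : ℂ)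
          = deriv (fun v => ∏ j ∈ Finset.range k, BnB8_f n M j v) (x : ℂ) * BnB8_f n M k x
            + (∏ j ∈ Finset.range k, BnB8_f n M j (x : ℂ)) * deriv (BnB8_f n M k) x :=
        deriv_fun_mul (BnB8_diff_prod n M k _) (BnB8_hasDeriv n M k _).differentiableAt
      rw [h5]
      refine (norm_add_le _ _).trans ?_
      rw [norm_mul, norm_mul]
      have h6 := mul_le_mul h2 h3 (norm_nonneg _) (by positivity)
      have h7 := mul_le_mul h1 h4 (norm_nonneg _) (by positivity)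
      refine (add_le_add h6 h7).trans ?_
      rw [pow_succ]
      push_cast
      have h8 : (0 : ℝ) < 2 ^ k := by positivity
      have h9 := Real.pi_pos
      nlinarith [mul_pos h9 h8]

/-- Upper bounds of the even factor and of its derivative on the real axis. -/
theorem BnB8_real (n M : ℕ) (x : ℝ) : ‖Bn n M (x : ℂ)‖ ≤ 2 ^ (n - 2) ∧
    ‖deriv (Bn n M) (x : ℂ)‖ ≤ 2 * Real.pi * n * 2 ^ (n - 2) := by
  obtain ⟨h1, h2⟩ := BnB8_real_aux n M (n - 2) x
  refine ⟨h1, ?_⟩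
  have e : Bn n M = fun v => ∏ j ∈ Finset.range (n - 2), BnB8_f n M j v := by
    funext v
    exact BnB8_eq n M v
  rw [e]
  refine h2.trans ?_
  have h3 : ((n - 2 : ℕ) : ℝ) ≤ n := by exact_mod_cast Nat.sub_le n 2
  have h4 := Real.pi_pos
  gcongr

/-- The double zeros. -/
theorem BnB8_sq (n M : ℕ) : Differentiable ℂ (fun v => Bn n M v ^ 2) := by
  simp only [BnB8_eq]
  exact (BnB8_diff_prod n M (n - 2)).pow 2

end Pool.Agent.H63.VC8
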