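import Pool.Agent.H63.VC7.Checks7
import Pool.Agent.H63.VC8.Link8

/-!
# Checks: `SU(2)`, and HOMFLY-PT polynomials of some plumbings of annuli

For `n = 2` the state sum is the state sum for the colored Jones polynomials. For `N = 1` it is the
HOMFLY-PT polynomial with `a = q ^ n`.
-/

namespace Pool.Agent.H63.VC8

open Pool.Agent.H63.VC Pool.Agent.H63.VC7 Complex

variable {m p : ℕ}

theorem dimA_two (q : ℂ) (X : ℕ) (h : ∀ i : ℕ, 1 ≤ i → i ≤ X → br q i ≠ 0) :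
    dimA 2 q X = br q (2 * (X : ℤ) + 1) / br q 1 := by
  unfold dimA
  rw [Finset.prod_eq_one]
  · rw [mul_one]
    congr 2
    push_cast
    ring
  · intro i hi
    rw [Finset.mem_range] at hi
    have := h (i + 1) (by omega) (by omega)
    push_cast at this
    rw [show ((2 : ℕ) : ℤ) + (i : ℤ) - 1 = (i : ℤ) + 1 by push_cast; ring, div_self this, one_pow]

theorem dimS_two (q : ℂ) (N : ℕ) (h : ∀ i : ℕ, 1 ≤ i → i ≤ N + 1 → br q i ≠ 0) :
    dimS 2 N q = br q ((N : ℤ) + 1) / br q 1 := by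
  induction N with
  | zero =>
    have h1 := h 1 le_rfl (by omega)
    push_cast at h1
    simp [dimS, div_self h1]
  | succ N ih =>
    have h1 := h 1 le_rfl (by omega)
    have h2 := h (N + 1) (by omega) (by omega)
    push_cast at h1 h2
    have := ih (fun i hi hiN => h i hi (by omega))
    unfold dimS at this ⊢
    rw [Finset.prod_range_succ, this]
    push_cast
    rw [show (2 : ℤ) + (N : ℤ) = (N : ℤ) + 1 + 1 by ring]
    field_simp

theorem sixn_two (q : ℂ) (N k l : ℕ) : sixn 2 q N k l = sixj q N k l := by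
  unfold sixn sixj
  refine Finset.sum_congr rfl fun t _ => ?_
  congr 1
  refine Finset.prod_congr rfl fun i _ => ?_
  push_cast
  rw [show (2 : ℤ) + k + i - 1 = k + i + 1 by ring, show (2 : ℤ) + l + i - 1 = l + i + 1 by ring,
    show (2 : ℤ) + i - 1 = i + 1 by ring, show (2 : ℤ) + N + i = N + i + 2 by ring]
  ring

/-- For `n = 2` the state sum is the one for the colored Jones polynomials. -/
theorem suTree_two (s t : Fin m → Fin p) (r : Fin p → ℤ) (N : ℕ) (q : ℂ)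
    (h : ∀ i : ℕ, 1 ≤ i → i ≤ N + 1 → br q i ≠ 0) :
    suTree s t r 2 N q = jones s t (fun i => 2 * r i) N q := by
  unfold suTree jones
  refine Finset.sum_congr rfl fun X hX => ?_
  rw [Fintype.mem_piFinset] at hX
  congr 1
  · refine Finset.prod_congr rfl fun i _ => ?_
    have hXi := hX i
    rw [Finset.mem_range] at hXi
    have h1 := h 1 le_rfl (by omega)
    push_cast at h1
    rw [dimA_two q (X i) (fun j hj hjX => h j hj (by omega)), dimS_two q N h,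
      div_div_div_cancel_right₀ h1]
    congr 1
    have e1 : ((-1 : ℂ) ^ X i) ^ (2 * r i) = 1 := by
      rw [← zpow_natCast (-1 : ℂ) (X i), ← zpow_mul,
        show ((X i : ℕ) : ℤ) * (2 * r i) = 2 * ((X i : ℤ) * r i) by ring, zpow_mul]
      norm_num
    rw [tw, mul_zpow, e1, one_mul, ← zpow_natCast, ← zpow_mul]
    congr 1
    push_cast
    ring
  · refine Finset.prod_congr rfl fun j _ => sixn_two q N _ _

/-! ### The HOMFLY-PT polynomials of the double twist knots -/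

theorem sixn_zero_left (n : ℕ) (q : ℂ) (N l : ℕ) : sixn n q N 0 l = 1 := by
  unfold sixn
  rw [Finset.sum_eq_single_of_mem 0 (by simp)]
  · simp
  · intro t _ ht
    rw [Finset.prod_eq_zero (i := 0) (by simp; omega), mul_zero]
    simp [br]

theorem sixn_zero_right (n : ℕ) (q : ℂ) (N k : ℕ) : sixn n q N k 0 = 1 := by
  unfold sixn
  rw [Finset.sum_eq_single_of_mem 0 (by simp)]
  · simp
  · intro t _ ht
    rw [Finset.prod_eq_zero (i := 0) (by simp; omega), mul_zero]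
    simp [br]

theorem br_sq_n (n : ℤ) (q : ℂ) (h : q ≠ 0) :
    br q n ^ 2 = br q (n - 1) * br q (n + 1) + br q 1 ^ 2 := by
  simp only [br, neg_sub, neg_add, zpow_sub₀ h, zpow_add₀ h, zpow_neg, zpow_one]
  have := zpow_ne_zero n h
  field_simp
  ring

theorem sixn_one (n : ℕ) (q : ℂ) (h : q ≠ 0) (h1 : br q 1 ≠ 0) (h2 : br q ((n : ℤ) - 1) ≠ 0)
    (h3 : br q ((n : ℤ) + 1) ≠ 0) :
    sixn n q 1 1 1 = -(br q 1 ^ 2 / (br q ((n : ℤ) - 1) * br q ((n : ℤ) + 1))) := by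
  have e := br_sq_n n q h
  simp only [sixn, Finset.sum_range_succ, Finset.sum_range_zero, Finset.prod_range_one,
    Finset.prod_range_zero]
  push_cast
  rw [show (n : ℤ) + 1 + 0 - 1 = n by ring, show (n : ℤ) + 0 - 1 = (n : ℤ) - 1 by ring]
  norm_num
  field_simp
  linear_combination -e

theorem dimA_zero (n : ℕ) (q : ℂ) (h2 : br q ((n : ℤ) - 1) ≠ 0) : dimA n q 0 = 1 := by
  simp [dimA, div_self h2]

theorem dimA_one (n : ℕ) (q : ℂ) (h2 : br q ((n : ℤ) - 1) ≠ 0) :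
    dimA n q 1 = br q ((n : ℤ) - 1) * br q ((n : ℤ) + 1) / br q 1 ^ 2 := by
  simp only [dimA, Finset.prod_range_one]
  push_cast
  rw [show (n : ℤ) + 2 - 1 = n + 1 by ring, show (n : ℤ) + 0 - 1 = (n : ℤ) - 1 by ring]
  field_simp

theorem dimS_one (n : ℕ) (q : ℂ) : dimS n 1 q = br q n / br q 1 := by
  simp [dimS]

/-- The HOMFLY-PT polynomials of the double twist knots (`a = q ^ n`). -/
theorem suTree_double (n : ℕ) (q : ℂ) (h : q ≠ 0) (h1 : br q 1 ≠ 0)
    (h2 : br q ((n : ℤ) - 1) ≠ 0) (h0 : br q n ≠ 0) (h3 : br q ((n : ℤ) + 1) ≠ 0) (a b : ℤ) :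
    suTree ![0] Fin.succ ![a, b] n 1 q =
      1 - br q ((n : ℤ) - 1) * br q ((n : ℤ) + 1) *
        ((q ^ (2 * a * n) - 1) * (q ^ (2 * b * n) - 1)) / br q n ^ 2 := by
  unfold suTree
  rw [show (Fintype.piFinset fun _ : Fin 2 => Finset.range (1 + 1)) = _ from piFinset_two]
  rw [Finset.sum_insert (by decide), Finset.sum_insert (by decide), Finset.sum_insert (by decide),
    Finset.sum_singleton]
  have e := br_sq_n n q h
  simp [Fin.prod_univ_succ, sixn_zero_left, sixn_zero_right, sixn_one n q h h1 h2 h3,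
    dimA_zero n q h2, dimA_one n q h2, dimS_one]
  field_simp
  linear_combination -e

/-- The HOMFLY-PT polynomial of the figure-eight knot. -/
theorem suTree_4_1 (n : ℕ) (q : ℂ) (h : q ≠ 0) (h1 : br q 1 ≠ 0)
    (h2 : br q ((n : ℤ) - 1) ≠ 0) (h0 : br q n ≠ 0) (h3 : br q ((n : ℤ) + 1) ≠ 0) :
    suTree ![0] Fin.succ ![1, -1] n 1 q =
      (q ^ (2 * (n : ℤ)) + q ^ (-(2 * (n : ℤ)))) - (q ^ 2 + q ^ (-2 : ℤ)) + 1 := by
  rw [suTree_double n q h h1 h2 h0 h3]
  have hn := zpow_ne_zero (n : ℤ) h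
  have e : q ^ (2 * (1 : ℤ) * n) = (q ^ (n : ℤ)) ^ 2 := by
    rw [← zpow_natCast, ← zpow_mul]; congr 1; push_cast; ring
  have e' : q ^ (2 * (-1 : ℤ) * n) = ((q ^ (n : ℤ)) ^ 2)⁻¹ := by
    rw [← zpow_natCast, ← zpow_mul, ← zpow_neg]; congr 1; push_cast; ring
  have e2 : q ^ (2 * (n : ℤ)) = (q ^ (n : ℤ)) ^ 2 := by
    rw [← zpow_natCast, ← zpow_mul]; congr 1; push_cast; ring
  have hb : br q n = ((q ^ (n : ℤ)) ^ 2 - 1) / q ^ (n : ℤ) := by
    simp only [br, zpow_neg]; field_simp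
  have h0' : (q ^ (n : ℤ)) ^ 2 - 1 ≠ 0 := fun e => h0 (by rw [hb, e, zero_div])
  rw [e, e', hb, zpow_neg, e2]
  simp only [br, neg_sub, neg_add, zpow_sub₀ h, zpow_add₀ h, zpow_neg, zpow_one]
  rw [show q ^ (2 : ℤ) = q ^ 2 by norm_cast]
  field_simp
  ring

/-- The HOMFLY-PT polynomial of the trefoil knot. -/
theorem suTree_3_1 (n : ℕ) (q : ℂ) (h : q ≠ 0) (h1 : br q 1 ≠ 0)
    (h2 : br q ((n : ℤ) - 1) ≠ 0) (h0 : br q n ≠ 0) (h3 : br q ((n : ℤ) + 1) ≠ 0) :
    suTree ![0] Fin.succ ![1, 1] n 1 q =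
      q ^ (2 * (n : ℤ)) * (q ^ 2 + q ^ (-2 : ℤ)) - q ^ (4 * (n : ℤ)) := by
  rw [suTree_double n q h h1 h2 h0 h3]
  have hn := zpow_ne_zero (n : ℤ) h
  have e : q ^ (2 * (1 : ℤ) * n) = (q ^ (n : ℤ)) ^ 2 := by
    rw [← zpow_natCast, ← zpow_mul]; congr 1; push_cast; ring
  have e2 : q ^ (2 * (n : ℤ)) = (q ^ (n : ℤ)) ^ 2 := by
    rw [← zpow_natCast, ← zpow_mul]; congr 1; push_cast; ring
  have e4 : q ^ (4 * (n : ℤ)) = (q ^ (n : ℤ)) ^ 4 := by
    rw [← zpow_natCast, ← zpow_mul]; congr 1; push_cast; ring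
  have hb : br q n = ((q ^ (n : ℤ)) ^ 2 - 1) / q ^ (n : ℤ) := by
    simp only [br, zpow_neg]; field_simp
  have h0' : (q ^ (n : ℤ)) ^ 2 - 1 ≠ 0 := fun e => h0 (by rw [hb, e, zero_div])
  rw [e, hb, e2, e4]
  simp only [br, neg_sub, neg_add, zpow_sub₀ h, zpow_add₀ h, zpow_neg, zpow_one]
  rw [show q ^ (2 : ℤ) = q ^ 2 by norm_cast]
  field_simp
  ring

end Pool.Agent.H63.VC8
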