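import Pool.Agent.H63.VC8.GNan8
import Pool.Agent.H63.VC8.GNb8
import Pool.Agent.H63.VC7.CoreB

/-! # The sum over the free variables: bound -/

namespace Pool.Agent.H63.VC8

open Pool.Agent.H63.VC hiding ext
open Pool.Agent.H63.VC3 Pool.Agent.H63.VC4 Pool.Agent.H63.VC6 Pool.Agent.H63.VC7 Complex

variable {m p : ℕ}
  {s t : Fin m → Fin p} {r : Fin p → ℝ} {y : Fin m → ℂ} {v : Fin p → ℂ}

open Classical in
theorem core_bound8 (n g : ℕ) (hn : 2 ≤ n) (hg : 1 ≤ g) (hgn : g < n) (hc : CritG s t r y v) (B : Finset (Fin p)) :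
    ∃ C : ℝ, 0 < C ∧ ∃ M0 : ℕ, ∀ M k1 k2 l1 l2 : ℕ, M0 ≤ M → Win n M k1 k2 l1 l2 →
    ∀ (κ : Fin m → ℕ) (x : Fin m → ℝ), (∀ j, |x j - 1 / 4| ≤ 55 / 1000) →
    ∀ a : Fin p → ℝ, (∀ i, |a i| ≤ 15 / 100) →
    Real.exp (M * ∑ i ∈ Bᶜ, ∑ j ∈ inc s t i ∩ EB s t B, (2 * ff ((x j : ℂ) + 1 / 2)).re) *
      ‖∑ k ∈ Fintype.piFinset (fun j : Fin m => if j ∈ EB s t B then {κ j} else Finset.Icc k1 k2),
        GN8 s t r n g M B (EB s t B) (mixv (EB s t B) (fun j => (x j : ℂ))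
          (fun j => ((yk n M (k j) : ℝ) : ℂ))) (fun i => a i + (v i).im * I)‖ ≤
      C * (M : ℝ) ^ m * Real.exp (M * (∑ i ∈ Bᶜ, Lg (r i) (inc s t i) y (v i) +
        ∑ i ∈ Bᶜ, ∑ j ∈ inc s t i ∩ EB s t B, loss s t r i j)) := by
  obtain ⟨C0, hC0, M0, hB⟩ := GN8_bound s t hc.st r n g hn hg hgn B (fun i => (v i).im) (fun i => by
    have := (locG_v hc i).1
    exact ⟨this.2.1, this.2.2.trans (by norm_num)⟩)
  refine ⟨18 ^ m * C0, by positivity, M0 + 100, ?_⟩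
  intro M k1 k2 l1 l2 hM0 hw κ x hx a ha
  have hM100 : 100 ≤ M := by omega
  have hMpos : 0 < M := by omega
  have hM3 : 1000 * (n + 1) ≤ M := hw.big
  have hMr : (100 : ℝ) ≤ M := by exact_mod_cast hM100
  have hMr0 : (0 : ℝ) < M := by linarith
  have hπ3 : 3.14 < Real.pi := Real.pi_gt_d2
  obtain ⟨y1, hy1⟩ : ∃ y1 : ℝ, y1 = (k1 + bt n) / M - 1 / 2 := ⟨_, rfl⟩
  obtain ⟨y2, hy2⟩ : ∃ y2 : ℝ, y2 = (k2 + 1 + bt n) / M - 1 / 2 := ⟨_, rfl⟩
  have a1 : 1 / 4 - 55 / 1000 ≤ y1 := by rw [hy1]; exact hw.a1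
  have a2 : y1 ≤ 1 / 4 - 54 / 1000 := by rw [hy1]; exact hw.a2
  have a3 : 1 / 4 + 54 / 1000 ≤ y2 := by rw [hy2]; exact hw.a3
  have a4 : y2 ≤ 1 / 4 + 55 / 1000 := by rw [hy2]; exact hw.a4
  obtain ⟨E, hE⟩ : ∃ E : Finset (Fin m), E = EB s t B := ⟨_, rfl⟩
  have hpot := seg_potG hc B y1 y2 a1 a2 a3 a4 a ha
  have hB' := hB M (by omega)
  rw [← hE] at hpot hB' ⊢
  obtain ⟨T, hT⟩ : ∃ T : ℝ, T = ∑ i ∈ Bᶜ, Lg (r i) (inc s t i) y (v i) +
      ∑ i ∈ Bᶜ, ∑ j ∈ inc s t i ∩ E, loss s t r i j := ⟨_, rfl⟩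
  rw [← hT]
  obtain ⟨ev, hev⟩ : ∃ ev : ℝ, ev = Real.exp (M * ∑ i ∈ Bᶜ, ∑ j ∈ inc s t i ∩ E,
      (2 * ff ((x j : ℂ) + 1 / 2)).re) := ⟨_, rfl⟩
  have hev0 : 0 < ev := by rw [hev]; exact Real.exp_pos _
  rw [← hev]
  obtain ⟨A, hA⟩ : ∃ A : ℝ, A = C0 * Real.exp (M * T) / ev := ⟨_, rfl⟩
  have hA0 : 0 ≤ A := by rw [hA]; positivity
  have hv : ∀ i, |((a i : ℂ) + (v i).im * I).re| ≤ 15 / 100 := by
    intro i
    have e : ((a i : ℂ) + (v i).im * I).re = a i := by simp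
    rw [e]
    exact ha i
  -- the bound on the paths
  have hbd : ∀ (σ : Fin m → Fin 3) (z : Fin m → ℂ),
      (∀ j, j ∉ E → Stt y1 y2 (1 / 100) (y j).im (σ j) (z j)) → (∀ j ∈ E, z j = (x j : ℂ)) →
      ‖GN8 s t r n g M B E z (fun i => a i + (v i).im * I)‖ ≤
        A * ∏ j ∈ Eᶜ, dmp (1 / 100) M (σ j) := by
    intro σ z hz hz'
    have h1 := hB' z a (fun j => by
      by_cases hj : j ∈ E
      · rw [hz' j hj, ofReal_re, ofReal_im, abs_zero]
        exact ⟨hx j, by norm_num⟩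
      · obtain ⟨h1, h2, h3, -⟩ := hz j hj
        refine ⟨?_, by linarith⟩
        rw [abs_le]
        constructor <;> linarith) ha
    have h2 := hpot σ z hz (fun j hj => by
      rw [hz' j hj, ofReal_re, ofReal_im]
      exact ⟨rfl, hx j⟩)
    have h0 : ∑ i ∈ Bᶜ, ∑ j ∈ inc s t i ∩ E, (2 * ff (z j + 1 / 2)).re =
        ∑ i ∈ Bᶜ, ∑ j ∈ inc s t i ∩ E, (2 * ff ((x j : ℂ) + 1 / 2)).re := by
      refine Finset.sum_congr rfl fun i _ => Finset.sum_congr rfl fun j hj => ?_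
      rw [hz' j (Finset.mem_inter.mp hj).2]
    rw [h0, ← hev] at h1
    have h3 : ev * ‖GN8 s t r n g M B E z (fun i => a i + (v i).im * I)‖ ≤
        C0 * (Real.exp (M * T) * Real.exp (M * (2 * ∑ j ∈ Eᶜ, exc (σ j)))) := by
      refine h1.trans ?_
      rw [← Real.exp_add]
      refine mul_le_mul_of_nonneg_left (Real.exp_le_exp.mpr ?_) hC0.le
      rw [← mul_add]
      refine mul_le_mul_of_nonneg_left ?_ hMr0.le
      refine h2.trans (le_of_eq ?_)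
      rw [hT]
      ring
    have h4 : ‖GN8 s t r n g M B E z (fun i => a i + (v i).im * I)‖ ≤
        A * Real.exp (M * (2 * ∑ j ∈ Eᶜ, exc (σ j))) := by
      rw [hA, div_mul_eq_mul_div, le_div_iff₀ hev0, mul_comm]
      refine h3.trans (le_of_eq ?_)
      ring
    exact h4.trans (mul_le_mul_of_nonneg_left (CoreB_prod M Eᶜ σ) hA0)
  have hmix := mix_bound (fun z => GN8 s t r n g M B E z (fun i => a i + (v i).im * I)) E κ
    (fun j => (x j : ℂ)) n M k1 k2 (1 / 100) (fun j => (y j).im) hMpos hw.hk (by norm_num)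
    (by norm_num) (fun j => ((locG_y hc j).1.2).trans (by norm_num)) (by
      have : 2 * 3.14 * (1 / 100) * 100 ≤ 2 * Real.pi * (1 / 100) * M := by gcongr
      linarith) y1 y2 hy1 hy2 (by linarith) A hA0
    (by
      intro z hz hz'
      have hre : ∀ j, |(z j).re - 1 / 4| ≤ 55 / 1000 := by
        intro j
        by_cases hj : j ∈ E
        · rw [hz' j hj, ofReal_re]
          exact hx j
        · have := hz j hj
          rw [abs_le]
          constructor <;> linarith [this.1, this.2.1]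
      refine ⟨?_, fun j _ => ?_⟩
      · have h := GN8_continuousAt s t r n g M hn hg hgn hM3 B E z (fun i => a i + (v i).im * I) hre hv
          (fun i => CoreB_ww_ne n M hMpos _ (by
            have := (locG_v hc i).1.2.1
            simpa using this))
        exact ContinuousAt.comp (f := fun z : Fin m → ℂ =>
          (z, (fun i => (a i : ℂ) + (v i).im * I))) (x := z) h
          (continuousAt_id.prodMk continuousAt_const)
      · exact GN8_update_differentiable s t r n g M hn hg hgn hM3 B E z (fun i => a i + (v i).im * I) j hre hv)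
    hbd
  calc ev * _ ≤ ev * ((18 * (M : ℝ)) ^ m * A) := mul_le_mul_of_nonneg_left hmix hev0.le
    _ = 18 ^ m * C0 * (M : ℝ) ^ m * Real.exp (M * T) := by
      rw [hA, mul_pow]
      field_simp

end Pool.Agent.H63.VC8
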