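import Pool.Agent.H63.VC8.QcLL8
import Pool.Agent.H63.VC8.BnB8
import Pool.Agent.H63.VC8.SlotX8
import Pool.Agent.H63.VC3.SumL
import Pool.Agent.H63.VC7.DGb

/-! # The factor of a node: bound and contour integral -/

namespace Pool.Agent.H63.VC8

open Pool.Agent.H63.VC hiding ext
open Pool.Agent.H63.VC3 Pool.Agent.H63.VC4 Pool.Agent.H63.VC6 Pool.Agent.H63.VC7 Complex

variable {m p : ℕ}

theorem DGb8_hasDeriv (r : ℝ) (n M : ℕ) (A : Finset (Fin m)) (k : Fin m → ℕ) (v : ℂ) :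
    HasDerivAt (NT8 r n M A k)
      (((exp (2 * Real.pi * I * r * M * v ^ 2) * (2 * Real.pi * I * r * M * (2 * v)) *
          (2 * sin (2 * Real.pi * v)) +
        exp (2 * Real.pi * I * r * M * v ^ 2) * (2 * (cos (2 * Real.pi * v) * (2 * Real.pi)))) *
          Bn n M v ^ 2 + exp (2 * Real.pi * I * r * M * v ^ 2) * (2 * sin (2 * Real.pi * v)) *
          (2 * Bn n M v * deriv (Bn n M) v)) *
          (∏ j ∈ A, qcn n M (k j) v) +
        exp (2 * Real.pi * I * r * M * v ^ 2) * (2 * sin (2 * Real.pi * v)) * Bn n M v ^ 2 *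
          (∑ j ∈ A, (∏ i ∈ A.erase j, qcn n M (k i) v) • deriv (qcn n M (k j)) v)) v := by
  unfold NT8
  have h1 : HasDerivAt (fun v : ℂ => exp (2 * Real.pi * I * r * M * v ^ 2))
      (exp (2 * Real.pi * I * r * M * v ^ 2) * (2 * Real.pi * I * r * M * (2 * v))) v := by
    have h := ((hasDerivAt_id v).pow 2).const_mul (2 * Real.pi * I * r * M)
    have h' := h.cexp
    have e : 2 * (Real.pi : ℂ) * I * r * M * (2 * v) =
        2 * Real.pi * I * r * M * (((2 : ℕ) : ℂ) * id v ^ (2 - 1) * 1) := by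
      simp
    rw [e]
    exact h'
  have h2 : HasDerivAt (fun v : ℂ => 2 * sin (2 * Real.pi * v))
      (2 * (cos (2 * Real.pi * v) * (2 * Real.pi))) v := by
    have h := ((hasDerivAt_id v).const_mul (2 * Real.pi : ℂ)).csin.const_mul (2 : ℂ)
    have e : (2 : ℂ) * (cos (2 * Real.pi * v) * (2 * Real.pi)) =
        2 * (cos (2 * Real.pi * id v) * (2 * Real.pi * 1)) := by
      simp
    rw [e]
    exact h
  have h4 : HasDerivAt (fun v : ℂ => Bn n M v ^ 2) (2 * Bn n M v * deriv (Bn n M) v) v := by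
    have h := (Bn_differentiable8 n M v).hasDerivAt.pow 2
    have e : 2 * Bn n M v * deriv (Bn n M) v =
        ((2 : ℕ) : ℂ) * Bn n M v ^ (2 - 1) * deriv (Bn n M) v := by
      simp
    rw [e]
    exact h
  have h3 : HasDerivAt (fun v : ℂ => ∏ j ∈ A, qcn n M (k j) v)
      (∑ j ∈ A, (∏ i ∈ A.erase j, qcn n M (k i) v) • deriv (qcn n M (k j)) v) v :=
    HasDerivAt.fun_finsetProd fun j _ => (qcn_differentiable n M (k j) v).hasDerivAt
  exact ((h1.mul h2).mul h4).mul h3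

/-- The points of summation lie in `[-1/2, 1/2]`. -/
theorem DGb8_vl (n M X : ℕ) (hM : 0 < M) (hn : 1 ≤ n) (hX : X + n ≤ M + 1) :
    |vl n M X| ≤ 1 / 2 := by
  have hM0 : (0 : ℝ) < M := by exact_mod_cast hM
  have hn0 : (1 : ℝ) ≤ n := by exact_mod_cast hn
  have h3 : (X : ℝ) + n ≤ M + 1 := by exact_mod_cast hX
  have hX0 : (0 : ℝ) ≤ X := Nat.cast_nonneg X
  rw [vl, bt, abs_le]
  have h4 : ((X : ℝ) + ((n : ℝ) - 1) / 2) / M ≤ 1 := by
    rw [div_le_one hM0]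
    linarith
  have h5 : 0 ≤ ((X : ℝ) + ((n : ℝ) - 1) / 2) / M := by
    apply div_nonneg _ hM0.le
    linarith
  constructor <;> linarith

/-- The constant. -/
noncomputable def DGb8_c (r : ℝ) (n a : ℕ) (M : ℝ) : ℝ :=
  (2 ^ (n - 2)) ^ 2 * (4 * Real.pi * |r| * M + 4 * Real.pi + 8 * Real.pi * n + 2 * a)

theorem DGb8_c_nonneg (r : ℝ) (n a : ℕ) (M : ℝ) (hM : 0 ≤ M) : 0 ≤ DGb8_c r n a M := by
  unfold DGb8_c
  have := Real.pi_pos
  positivity

theorem DGb8_c_le (r : ℝ) (n a : ℕ) (M : ℝ) (hM : 1 ≤ M) :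
    M * DGb8_c r n a M ≤ DGb8_c r n a 1 * M ^ 2 := by
  unfold DGb8_c
  have hpi := Real.pi_pos
  have h0 : 0 ≤ 4 * Real.pi + 8 * Real.pi * (n : ℝ) + 2 * (a : ℝ) := by positivity
  have h1 : (4 * Real.pi + 8 * Real.pi * (n : ℝ) + 2 * (a : ℝ)) * M ≤
      (4 * Real.pi + 8 * Real.pi * (n : ℝ) + 2 * (a : ℝ)) * M ^ 2 := by
    apply mul_le_mul_of_nonneg_left _ h0
    nlinarith
  have h2 : M * (4 * Real.pi * |r| * M + 4 * Real.pi + 8 * Real.pi * n + 2 * a) ≤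
      (4 * Real.pi * |r| * 1 + 4 * Real.pi + 8 * Real.pi * n + 2 * a) * M ^ 2 := by
    nlinarith
  have h3 : (0 : ℝ) ≤ (2 ^ (n - 2)) ^ 2 := by positivity
  calc M * ((2 ^ (n - 2)) ^ 2 * (4 * Real.pi * |r| * M + 4 * Real.pi + 8 * Real.pi * n + 2 * a))
      = (2 ^ (n - 2)) ^ 2 *
        (M * (4 * Real.pi * |r| * M + 4 * Real.pi + 8 * Real.pi * n + 2 * a)) := by ring
    _ ≤ (2 ^ (n - 2)) ^ 2 *
        ((4 * Real.pi * |r| * 1 + 4 * Real.pi + 8 * Real.pi * n + 2 * a) * M ^ 2) :=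
        mul_le_mul_of_nonneg_left h2 h3
    _ = _ := by ring

/-- The derivative at a summation point, from bounds for the slots. -/
theorem DGb8_deriv (r : ℝ) (n M : ℕ) (A : Finset (Fin m)) (k : Fin m → ℕ) (X : ℕ) (hM : 2 ≤ M)
    (hn : 2 ≤ n) (hX : X + n ≤ M + 1) (B : Fin m → ℝ)
    (h1 : ∀ j ∈ A, S M (k j) ^ 2 * ‖qcn n M (k j) ((vl n M X : ℝ) : ℂ)‖ ≤ B j)
    (h2 : ∀ j ∈ A, S M (k j) ^ 2 * ‖deriv (qcn n M (k j)) ((vl n M X : ℝ) : ℂ)‖ ≤ B j) :
    (∏ j ∈ A, S M (k j) ^ 2) * ‖deriv (NT8 r n M A k) ((vl n M X : ℝ) : ℂ)‖ ≤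
      DGb8_c r n A.card M * ∏ j ∈ A, B j := by
  have hM0 : (0 : ℝ) < M := by exact_mod_cast (by omega : 0 < M)
  have hx1 : |vl n M X| ≤ 1 / 2 := DGb8_vl n M X (by omega) (by omega) hX
  set x : ℝ := vl n M X with hx
  have hS : ∀ j ∈ A, 0 ≤ S M (k j) ^ 2 := fun j _ => sq_nonneg _
  have hB : ∀ j ∈ A, 0 ≤ B j := fun j hj =>
    (mul_nonneg (hS j hj) (norm_nonneg _)).trans (h1 j hj)
  have hP : (∏ j ∈ A, S M (k j) ^ 2) * ‖∏ j ∈ A, qcn n M (k j) (x : ℂ)‖ ≤ ∏ j ∈ A, B j := by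
    rw [_root_.norm_prod, ← Finset.prod_mul_distrib]
    exact Finset.prod_le_prod (fun j hj => mul_nonneg (hS j hj) (norm_nonneg _)) h1
  have hP' : (∏ j ∈ A, S M (k j) ^ 2) *
      ‖∑ j ∈ A, (∏ i ∈ A.erase j, qcn n M (k i) (x : ℂ)) • deriv (qcn n M (k j)) (x : ℂ)‖ ≤
      A.card * ∏ j ∈ A, B j := by
    calc (∏ j ∈ A, S M (k j) ^ 2) *
          ‖∑ j ∈ A, (∏ i ∈ A.erase j, qcn n M (k i) (x : ℂ)) • deriv (qcn n M (k j)) (x : ℂ)‖
        ≤ (∏ j ∈ A, S M (k j) ^ 2) *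
          ∑ j ∈ A, ‖(∏ i ∈ A.erase j, qcn n M (k i) (x : ℂ)) •
            deriv (qcn n M (k j)) (x : ℂ)‖ :=
          mul_le_mul_of_nonneg_left (norm_sum_le _ _) (Finset.prod_nonneg hS)
      _ = ∑ j ∈ A, (∏ j ∈ A, S M (k j) ^ 2) *
          ‖(∏ i ∈ A.erase j, qcn n M (k i) (x : ℂ)) • deriv (qcn n M (k j)) (x : ℂ)‖ := by
          rw [Finset.mul_sum]
      _ ≤ ∑ _j ∈ A, ∏ j ∈ A, B j := by
          refine Finset.sum_le_sum fun j hj => ?_
          rw [norm_smul, _root_.norm_prod, ← Finset.mul_prod_erase A (fun j => S M (k j) ^ 2) hj,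
            ← Finset.mul_prod_erase A B hj]
          calc S M (k j) ^ 2 * (∏ i ∈ A.erase j, S M (k i) ^ 2) *
                ((∏ i ∈ A.erase j, ‖qcn n M (k i) (x : ℂ)‖) * ‖deriv (qcn n M (k j)) (x : ℂ)‖)
              = (S M (k j) ^ 2 * ‖deriv (qcn n M (k j)) (x : ℂ)‖) *
                ∏ i ∈ A.erase j, (S M (k i) ^ 2 * ‖qcn n M (k i) (x : ℂ)‖) := by
                rw [Finset.prod_mul_distrib]; ring
            _ ≤ B j * ∏ i ∈ A.erase j, B i := by
                apply mul_le_mul (h2 j hj)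
                · exact Finset.prod_le_prod
                    (fun i hi => mul_nonneg (hS i (Finset.mem_of_mem_erase hi)) (norm_nonneg _))
                    (fun i hi => h1 i (Finset.mem_of_mem_erase hi))
                · exact Finset.prod_nonneg fun i hi =>
                    mul_nonneg (hS i (Finset.mem_of_mem_erase hi)) (norm_nonneg _)
                · exact hB j hj
      _ = A.card * ∏ j ∈ A, B j := by
          rw [Finset.sum_const, nsmul_eq_mul]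
  rw [(DGb8_hasDeriv r n M A k (x : ℂ)).deriv]
  have hE : ‖exp (2 * Real.pi * I * r * M * (x : ℂ) ^ 2)‖ = 1 := by
    have : 2 * (Real.pi : ℂ) * I * r * M * (x : ℂ) ^ 2 =
        ((2 * Real.pi * r * M * x ^ 2 : ℝ) : ℂ) * I := by
      push_cast; ring
    rw [this, norm_exp_ofReal_mul_I]
  have hs : ‖sin (2 * Real.pi * (x : ℂ))‖ ≤ 1 := by
    have : sin (2 * Real.pi * (x : ℂ)) = ((Real.sin (2 * Real.pi * x) : ℝ) : ℂ) := by
      push_cast; rfl
    rw [this, norm_real, Real.norm_eq_abs]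
    exact Real.abs_sin_le_one _
  have hc : ‖cos (2 * Real.pi * (x : ℂ))‖ ≤ 1 := by
    have : cos (2 * Real.pi * (x : ℂ)) = ((Real.cos (2 * Real.pi * x) : ℝ) : ℂ) := by
      push_cast; rfl
    rw [this, norm_real, Real.norm_eq_abs]
    exact Real.abs_cos_le_one _
  have hpi := Real.pi_pos
  obtain ⟨hb1, hb2⟩ := BnB8_real n M x
  set K : ℝ := 2 ^ (n - 2) with hK
  have hK0 : 0 ≤ K := by positivity
  have e2 : ‖2 * sin (2 * Real.pi * (x : ℂ))‖ ≤ 2 := by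
    rw [norm_mul, Complex.norm_ofNat]
    linarith
  have n1 : ‖exp (2 * Real.pi * I * r * M * (x : ℂ) ^ 2) *
        (2 * Real.pi * I * r * M * (2 * (x : ℂ))) * (2 * sin (2 * Real.pi * (x : ℂ))) +
      exp (2 * Real.pi * I * r * M * (x : ℂ) ^ 2) *
        (2 * (cos (2 * Real.pi * (x : ℂ)) * (2 * Real.pi)))‖ ≤
      4 * Real.pi * |r| * M + 4 * Real.pi := by
    refine (norm_add_le _ _).trans ?_
    rw [norm_mul, norm_mul, norm_mul (exp _) (2 * (cos _ * _)), hE]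
    have e1 : ‖(2 * Real.pi * I * r * M * (2 * (x : ℂ)))‖ = 4 * Real.pi * |r| * M * |x| := by
      simp only [norm_mul, norm_real, Real.norm_eq_abs, norm_I, Complex.norm_natCast,
        Complex.norm_ofNat]
      rw [abs_of_pos hpi]
      ring
    have e3 : ‖(2 * (cos (2 * Real.pi * (x : ℂ)) * (2 * Real.pi)))‖ ≤ 4 * Real.pi := by
      simp only [norm_mul, norm_real, Real.norm_eq_abs, Complex.norm_ofNat]
      rw [abs_of_pos hpi]
      nlinarith
    rw [e1, one_mul, one_mul]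
    have e4 : 4 * Real.pi * |r| * M * |x| * ‖2 * sin (2 * Real.pi * (x : ℂ))‖ ≤
        4 * Real.pi * |r| * M * (1 / 2) * 2 := by
      gcongr
    linarith
  have n2 : ‖exp (2 * Real.pi * I * r * M * (x : ℂ) ^ 2) * (2 * sin (2 * Real.pi * (x : ℂ)))‖ ≤
      2 := by
    rw [norm_mul, hE, one_mul]
    exact e2
  have n3 : ‖Bn n M (x : ℂ) ^ 2‖ ≤ K ^ 2 := by
    rw [norm_pow]
    exact pow_le_pow_left₀ (norm_nonneg _) hb1 2
  have n4 : ‖2 * Bn n M (x : ℂ) * deriv (Bn n M) (x : ℂ)‖ ≤ 4 * Real.pi * n * K ^ 2 := by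
    rw [norm_mul, norm_mul, Complex.norm_ofNat]
    calc 2 * ‖Bn n M (x : ℂ)‖ * ‖deriv (Bn n M) (x : ℂ)‖ ≤ 2 * K * (2 * Real.pi * n * K) := by
          gcongr
      _ = 4 * Real.pi * n * K ^ 2 := by ring
  have n5 : ‖(exp (2 * Real.pi * I * r * M * (x : ℂ) ^ 2) *
        (2 * Real.pi * I * r * M * (2 * (x : ℂ))) * (2 * sin (2 * Real.pi * (x : ℂ))) +
      exp (2 * Real.pi * I * r * M * (x : ℂ) ^ 2) *
        (2 * (cos (2 * Real.pi * (x : ℂ)) * (2 * Real.pi)))) * Bn n M (x : ℂ) ^ 2 +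
      exp (2 * Real.pi * I * r * M * (x : ℂ) ^ 2) * (2 * sin (2 * Real.pi * (x : ℂ))) *
        (2 * Bn n M (x : ℂ) * deriv (Bn n M) (x : ℂ))‖ ≤
      K ^ 2 * (4 * Real.pi * |r| * M + 4 * Real.pi + 8 * Real.pi * n) := by
    refine (norm_add_le _ _).trans ?_
    rw [norm_mul, norm_mul (_ * _) (2 * Bn n M (x : ℂ) * deriv (Bn n M) (x : ℂ))]
    have f1 := mul_le_mul n1 n3 (norm_nonneg _) (by positivity)
    have f2 := mul_le_mul n2 n4 (norm_nonneg _) (by positivity)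
    linarith
  have n6 : ‖exp (2 * Real.pi * I * r * M * (x : ℂ) ^ 2) * (2 * sin (2 * Real.pi * (x : ℂ))) *
      Bn n M (x : ℂ) ^ 2‖ ≤ 2 * K ^ 2 := by
    rw [norm_mul]
    exact mul_le_mul n2 n3 (norm_nonneg _) (by positivity)
  have hQ : 0 ≤ ∏ j ∈ A, S M (k j) ^ 2 := Finset.prod_nonneg hS
  have hBp : 0 ≤ ∏ j ∈ A, B j := Finset.prod_nonneg hB
  unfold DGb8_c
  rw [← hK]
  calc (∏ j ∈ A, S M (k j) ^ 2) * ‖_ * (∏ j ∈ A, qcn n M (k j) (x : ℂ)) + _ *
        (∑ j ∈ A, (∏ i ∈ A.erase j, qcn n M (k i) (x : ℂ)) • deriv (qcn n M (k j)) (x : ℂ))‖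
      ≤ (∏ j ∈ A, S M (k j) ^ 2) * ((K ^ 2 * (4 * Real.pi * |r| * M + 4 * Real.pi +
          8 * Real.pi * n)) * ‖∏ j ∈ A, qcn n M (k j) (x : ℂ)‖ + 2 * K ^ 2 *
          ‖∑ j ∈ A, (∏ i ∈ A.erase j, qcn n M (k i) (x : ℂ)) •
            deriv (qcn n M (k j)) (x : ℂ)‖) := by
        apply mul_le_mul_of_nonneg_left _ hQ
        refine (norm_add_le _ _).trans ?_
        rw [norm_mul, norm_mul]
        exact add_le_add (mul_le_mul_of_nonneg_right n5 (norm_nonneg _))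
          (mul_le_mul_of_nonneg_right n6 (norm_nonneg _))
    _ = (K ^ 2 * (4 * Real.pi * |r| * M + 4 * Real.pi + 8 * Real.pi * n)) *
          ((∏ j ∈ A, S M (k j) ^ 2) * ‖∏ j ∈ A, qcn n M (k j) (x : ℂ)‖) + 2 * K ^ 2 *
          ((∏ j ∈ A, S M (k j) ^ 2) *
          ‖∑ j ∈ A, (∏ i ∈ A.erase j, qcn n M (k i) (x : ℂ)) •
            deriv (qcn n M (k j)) (x : ℂ)‖) := by
        ring
    _ ≤ (K ^ 2 * (4 * Real.pi * |r| * M + 4 * Real.pi + 8 * Real.pi * n)) * (∏ j ∈ A, B j) +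
          2 * K ^ 2 * (A.card * ∏ j ∈ A, B j) := by
        gcongr
    _ = _ := by ring

theorem DG8_bound (r : ℝ) (n : ℕ) (hn : 2 ≤ n) (A : Finset (Fin m)) :
    ∃ C : ℝ, 0 < C ∧ ∃ D : ℕ, ∀ (M : ℕ)
    (k : Fin m → ℕ), 2 ≤ M → (∀ j ∈ A, k j + n ≤ M + 1) →
    (∏ j ∈ A, S M (k j) ^ 2) * ‖DG8 r n M A k‖ ≤
      C * (M : ℝ) ^ D * Real.exp (M * ∑ j ∈ A, eo M (some (k j))) := by
  obtain ⟨C, hC, D, h⟩ := slotX8 n hn
  have hpi := Real.pi_pos
  have hn0 : (0 : ℝ) < n := by exact_mod_cast (by omega : 0 < n)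
  refine ⟨DGb8_c r n A.card 1 * C ^ A.card, ?_, D * A.card + 2, fun M k hM hk => ?_⟩
  · unfold DGb8_c
    positivity
  have hM0 : (0 : ℝ) < M := by exact_mod_cast (by omega : 0 < M)
  have hM1 : (1 : ℝ) ≤ M := by exact_mod_cast (by omega : 1 ≤ M)
  have hQ : 0 ≤ ∏ j ∈ A, S M (k j) ^ 2 := Finset.prod_nonneg fun j _ => sq_nonneg _
  have hprod : ∏ j ∈ A, (C * (M : ℝ) ^ D * Real.exp (M * eo M (some (k j)))) =
      C ^ A.card * (M : ℝ) ^ (D * A.card) * Real.exp (M * ∑ j ∈ A, eo M (some (k j))) := by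
    rw [Finset.prod_mul_distrib, Finset.prod_const, mul_pow, ← pow_mul, ← Real.exp_sum,
      Finset.mul_sum]
  have hc0 := DGb8_c_nonneg r n A.card M hM0.le
  have hd : ∀ X ∈ Finset.range (M + 2 - n), (∏ j ∈ A, S M (k j) ^ 2) *
      ‖deriv (NT8 r n M A k) ((vl n M X : ℝ) : ℂ)‖ ≤
      DGb8_c r n A.card M *
      (C ^ A.card * (M : ℝ) ^ (D * A.card) * Real.exp (M * ∑ j ∈ A, eo M (some (k j)))) := by
    intro X hX
    rw [Finset.mem_range] at hX
    have hX' : X + n ≤ M + 1 := by omega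
    rw [← hprod]
    exact DGb8_deriv r n M A k X hM hn hX' _ (fun j hj => (h M (k j) X hM (hk j hj) hX').1)
      (fun j hj => (h M (k j) X hM (hk j hj) hX').2)
  unfold DG8
  calc (∏ j ∈ A, S M (k j) ^ 2) *
        ‖∑ X ∈ Finset.range (M + 2 - n), deriv (NT8 r n M A k) ((vl n M X : ℝ) : ℂ)‖
      ≤ (∏ j ∈ A, S M (k j) ^ 2) *
        ∑ X ∈ Finset.range (M + 2 - n), ‖deriv (NT8 r n M A k) ((vl n M X : ℝ) : ℂ)‖ :=
        mul_le_mul_of_nonneg_left (norm_sum_le _ _) hQ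
    _ = ∑ X ∈ Finset.range (M + 2 - n), (∏ j ∈ A, S M (k j) ^ 2) *
        ‖deriv (NT8 r n M A k) ((vl n M X : ℝ) : ℂ)‖ := by rw [Finset.mul_sum]
    _ ≤ ∑ _X ∈ Finset.range (M + 2 - n), DGb8_c r n A.card M *
        (C ^ A.card * (M : ℝ) ^ (D * A.card) * Real.exp (M * ∑ j ∈ A, eo M (some (k j)))) :=
        Finset.sum_le_sum hd
    _ = ((M + 2 - n : ℕ) : ℝ) * (DGb8_c r n A.card M *
        (C ^ A.card * (M : ℝ) ^ (D * A.card) *
          Real.exp (M * ∑ j ∈ A, eo M (some (k j))))) := by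
        rw [Finset.sum_const, Finset.card_range, nsmul_eq_mul]
    _ ≤ (M : ℝ) * (DGb8_c r n A.card M *
        (C ^ A.card * (M : ℝ) ^ (D * A.card) *
          Real.exp (M * ∑ j ∈ A, eo M (some (k j))))) := by
        apply mul_le_mul_of_nonneg_right
        · exact_mod_cast (by omega : M + 2 - n ≤ M)
        · exact mul_nonneg hc0 (by positivity)
    _ = (M * DGb8_c r n A.card M) *
        (C ^ A.card * (M : ℝ) ^ (D * A.card) *
          Real.exp (M * ∑ j ∈ A, eo M (some (k j)))) := by ring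
    _ ≤ (DGb8_c r n A.card 1 * (M : ℝ) ^ 2) *
        (C ^ A.card * (M : ℝ) ^ (D * A.card) *
          Real.exp (M * ∑ j ∈ A, eo M (some (k j)))) := by
        apply mul_le_mul_of_nonneg_right _ (by positivity)
        exact DGb8_c_le r n A.card M hM1
    _ = _ := by ring

theorem DG8_PG8 (r : ℝ) (n : ℕ) (hn : 2 ≤ n) (A : Finset (Fin m)) (hA : A.Nonempty) (Y : ℝ)
    (hY : 0 < Y) (hY1 : Y ≤ 1 / 10) :
    ∃ C : ℝ, 0 < C ∧ ∃ D : ℕ, ∀ (M k1 k2 l1 l2 : ℕ) (k : Fin m → ℕ), Win n M k1 k2 l1 l2 →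
    (∀ j ∈ A, k1 ≤ k j ∧ k j ≤ k2) →
    (∏ j ∈ A, S M (k j) ^ 2) * ‖DG8 r n M A k + 4 * Real.pi * I * M ^ 2 *
      PG8 r n M A (fun j => ((yk n M (k j) : ℝ) : ℂ)) (rho n M l2) Y‖ ≤
      C * (M : ℝ) ^ D * Real.exp (M * (4 * A.card * Fr (3 / 4) - 40 / 1000)) := by
  obtain ⟨C, hC, D, h⟩ := slotX8_out n hn
  have hpi := Real.pi_pos
  have hn0 : (0 : ℝ) < n := by exact_mod_cast (by omega : 0 < n)
  have hcard : (1 : ℝ) ≤ A.card := by exact_mod_cast hA.card_pos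
  refine ⟨DGb8_c r n A.card 1 * C ^ A.card, ?_, D * A.card + 2,
    fun M k1 k2 l1 l2 k hw hk => ?_⟩
  · unfold DGb8_c
    positivity
  obtain ⟨w1, w2, w3, w4, w5, w6, w7⟩ := win_facts n M k1 k2 l1 l2 hn hw
  have hbig := hw.big
  have hM : 2 ≤ M := by omega
  have hl := hw.hl
  have hl' := hw.hl'
  have hM0 : (0 : ℝ) < M := by exact_mod_cast (by omega : 0 < M)
  have hM1 : (1 : ℝ) ≤ M := by exact_mod_cast (by omega : 1 ≤ M)
  have hQ : 0 ≤ ∏ j ∈ A, S M (k j) ^ 2 := Finset.prod_nonneg fun j _ => sq_nonneg _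
  have hkM : ∀ j ∈ A, k j + n ≤ M + 1 := fun j hj => by have := (hk j hj).2; omega
  -- the inner part
  have hyk : ∀ j ∈ A, (195 / 1000 : ℝ) ≤ yk n M (k j) := by
    intro j hj
    have := (abs_le.1 (w3 (k j) (hk j hj).1 (hk j hj).2).1).1
    linarith
  have hNK : ∀ z : ℂ, |z.re| ≤ rho n M l2 →
      NT8 r n M A k z = KG8 r n M A (fun j => ((yk n M (k j) : ℝ) : ℂ)) z := by
    intro z hz
    refine NT8_eq_KG8 r n M hn A k z hkM (fun j hj => ?_) (BnB8_ne n M hbig z (by linarith))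
    have h1 := hyk j hj
    have h2 : 0 < 1 / (2 * (M : ℝ)) := by positivity
    linarith
  have hrho : 0 ≤ rho n M l2 := by linarith
  have hsum : ∑ l ∈ Finset.Icc l1 l2, deriv (NT8 r n M A k) ((vl n M l : ℝ) : ℂ) =
      -(4 * Real.pi * I) * M ^ 2 *
        PG8 r n M A (fun j => ((yk n M (k j) : ℝ) : ℂ)) (rho n M l2) Y := by
    rw [sum_l (NT8 r n M A k) n M l1 l2 Y (by omega) hl (by omega) hl' hY (rho n M l2) rfl
      (fun z _ _ => (DGb8_hasDeriv r n M A k z).differentiableAt) (NT8_odd r n M A k)]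
    congr 1
    unfold PG8 VC3.Path
    congr 1
    · congr 1
      · refine intervalIntegral.integral_congr fun t _ => ?_
        simp only
        rw [hNK]
        simp only [add_re, neg_re, ofReal_re, mul_re, I_re, mul_zero, ofReal_im, I_im, mul_one,
          sub_self, add_zero, abs_neg]
        exact (abs_of_nonneg hrho).le
      · refine intervalIntegral.integral_congr fun t ht => ?_
        simp only
        rw [hNK]
        simp only [add_re, ofReal_re, mul_re, I_re, mul_zero, ofReal_im, I_im, mul_one,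
          sub_self, add_zero]
        rw [Set.uIcc_of_le (by linarith)] at ht
        exact abs_le.2 ht
    · refine intervalIntegral.integral_congr fun t _ => ?_
      simp only
      rw [hNK]
      simp only [add_re, ofReal_re, mul_re, I_re, mul_zero, ofReal_im, I_im, mul_one,
        sub_self, add_zero]
      exact (abs_of_nonneg hrho).le
  have hsplit : DG8 r n M A k + 4 * Real.pi * I * M ^ 2 *
      PG8 r n M A (fun j => ((yk n M (k j) : ℝ) : ℂ)) (rho n M l2) Y =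
      ∑ X ∈ Finset.range (M + 2 - n) \ Finset.Icc l1 l2,
        deriv (NT8 r n M A k) ((vl n M X : ℝ) : ℂ) := by
    unfold DG8
    have hsub : Finset.Icc l1 l2 ⊆ Finset.range (M + 2 - n) := by
      intro X hX
      rw [Finset.mem_Icc] at hX
      rw [Finset.mem_range]
      omega
    rw [← Finset.sum_sdiff hsub, hsum]
    ring
  rw [hsplit]
  have hprod : ∏ _j ∈ A, (C * (M : ℝ) ^ D * Real.exp (M * (4 * Fr (3 / 4) - 40 / 1000))) ≤
      C ^ A.card * (M : ℝ) ^ (D * A.card) *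
        Real.exp (M * (4 * A.card * Fr (3 / 4) - 40 / 1000)) := by
    rw [Finset.prod_const, mul_pow, mul_pow, ← pow_mul, ← Real.exp_nat_mul]
    apply mul_le_mul_of_nonneg_left _ (by positivity)
    apply Real.exp_le_exp.2
    nlinarith
  have hc0 := DGb8_c_nonneg r n A.card M hM0.le
  have hd : ∀ X ∈ Finset.range (M + 2 - n) \ Finset.Icc l1 l2, (∏ j ∈ A, S M (k j) ^ 2) *
      ‖deriv (NT8 r n M A k) ((vl n M X : ℝ) : ℂ)‖ ≤
      DGb8_c r n A.card M *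
      (C ^ A.card * (M : ℝ) ^ (D * A.card) *
        Real.exp (M * (4 * A.card * Fr (3 / 4) - 40 / 1000))) := by
    intro X hX
    rw [Finset.mem_sdiff, Finset.mem_range] at hX
    have hX' : X + n ≤ M + 1 := by omega
    refine (DGb8_deriv r n M A k X hM hn hX'
      (fun _ => C * (M : ℝ) ^ D * Real.exp (M * (4 * Fr (3 / 4) - 40 / 1000)))
      (fun j hj => (h M k1 k2 l1 l2 (k j) X hw (hk j hj).1 (hk j hj).2 hX' hX.2).1)
      (fun j hj => (h M k1 k2 l1 l2 (k j) X hw (hk j hj).1 (hk j hj).2 hX' hX.2).2)).trans ?_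
    apply mul_le_mul_of_nonneg_left hprod hc0
  calc (∏ j ∈ A, S M (k j) ^ 2) *
        ‖∑ X ∈ Finset.range (M + 2 - n) \ Finset.Icc l1 l2,
          deriv (NT8 r n M A k) ((vl n M X : ℝ) : ℂ)‖
      ≤ (∏ j ∈ A, S M (k j) ^ 2) *
        ∑ X ∈ Finset.range (M + 2 - n) \ Finset.Icc l1 l2,
          ‖deriv (NT8 r n M A k) ((vl n M X : ℝ) : ℂ)‖ :=
        mul_le_mul_of_nonneg_left (norm_sum_le _ _) hQ
    _ = ∑ X ∈ Finset.range (M + 2 - n) \ Finset.Icc l1 l2, (∏ j ∈ A, S M (k j) ^ 2) *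
        ‖deriv (NT8 r n M A k) ((vl n M X : ℝ) : ℂ)‖ := by rw [Finset.mul_sum]
    _ ≤ ∑ _X ∈ Finset.range (M + 2 - n) \ Finset.Icc l1 l2,
        DGb8_c r n A.card M *
        (C ^ A.card * (M : ℝ) ^ (D * A.card) *
          Real.exp (M * (4 * A.card * Fr (3 / 4) - 40 / 1000))) :=
        Finset.sum_le_sum hd
    _ ≤ M * (DGb8_c r n A.card M *
        (C ^ A.card * (M : ℝ) ^ (D * A.card) *
          Real.exp (M * (4 * A.card * Fr (3 / 4) - 40 / 1000)))) := by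
        rw [Finset.sum_const, nsmul_eq_mul]
        apply mul_le_mul_of_nonneg_right
        · have : (Finset.range (M + 2 - n) \ Finset.Icc l1 l2).card ≤ M := by
            calc _ ≤ (Finset.range (M + 2 - n)).card := Finset.card_le_card Finset.sdiff_subset
              _ = M + 2 - n := Finset.card_range _
              _ ≤ M := by omega
          exact_mod_cast this
        · exact mul_nonneg hc0 (by positivity)
    _ = (M * DGb8_c r n A.card M) *
        (C ^ A.card * (M : ℝ) ^ (D * A.card) *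
          Real.exp (M * (4 * A.card * Fr (3 / 4) - 40 / 1000))) := by ring
    _ ≤ (DGb8_c r n A.card 1 * (M : ℝ) ^ 2) *
        (C ^ A.card * (M : ℝ) ^ (D * A.card) *
          Real.exp (M * (4 * A.card * Fr (3 / 4) - 40 / 1000))) := by
        apply mul_le_mul_of_nonneg_right _ (by positivity)
        exact DGb8_c_le r n A.card M hM1
    _ = _ := by ring

end Pool.Agent.H63.VC8
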