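import Pool.Agent.H63.VC4.SideN
import Pool.Agent.H63.VC7.SideG
import Pool.Agent.H63.VC8.BnB8

/-! # The vertical sides of the contour -/

namespace Pool.Agent.H63.VC8

open Pool.Agent.H63.VC hiding ext
open Pool.Agent.H63.VC3 Pool.Agent.H63.VC4 Pool.Agent.H63.VC6 Pool.Agent.H63.VC7 Complex

variable {m p : ℕ}

/-- Integer powers of a number in a compact interval. -/
theorem SideG8_zpow (c C : ℝ) (hc : 0 < c) (e : ℤ) : ∃ K : ℝ, 0 < K ∧ ∀ x : ℝ, c ≤ x → x ≤ C →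
    x ^ e ≤ K := by
  refine ⟨(max c C) ^ e + c ^ e, by positivity, fun x h1 h2 => ?_⟩
  have hx : 0 < x := hc.trans_le h1
  rcases le_total 0 e with h | h
  · have : x ^ e ≤ (max c C) ^ e := zpow_le_zpow_left₀ h hx.le (h2.trans (le_max_right _ _))
    have h0 : 0 < c ^ e := by positivity
    linarith
  · have : x ^ e ≤ c ^ e := by
      have h3 : c ^ (-e) ≤ x ^ (-e) := zpow_le_zpow_left₀ (by omega) hc.le h1
      rw [zpow_neg, zpow_neg] at h3
      exact (inv_le_inv₀ (by positivity) (by positivity)).1 h3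
    have h0 : 0 < (max c C) ^ e := by positivity
    linarith

theorem PG8_FG8 (r : ℝ) (n : ℕ) (hn : 2 ≤ n) (A : Finset (Fin m)) (hA : A.Nonempty)
    (hr : 10 * (A.card : ℝ) ≤ |r|) (Y : ℝ) (hY : 0 < Y) (hY' : Y ≤ 3 / 10 * A.card / r ^ 2) :
    ∃ C : ℝ, 0 < C ∧ ∃ D : ℕ, ∀ (M k1 k2 l1 l2 : ℕ) (k : Fin m → ℕ), Win n M k1 k2 l1 l2 →
    (∀ j ∈ A, k1 ≤ k j ∧ k j ≤ k2) →
    (∏ j ∈ A, S M (k j) ^ 2) *
      ‖PG8 r n M A (fun j => ((yk n M (k j) : ℝ) : ℂ)) (rho n M l2) Y -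
        FG8 r n M A (fun j => ((yk n M (k j) : ℝ) : ℂ)) (rho n M l2) Y‖ ≤
      C * (M : ℝ) ^ D * Real.exp (M * (4 * A.card * Fr (3 / 4) - 20 / 1000)) := by
  obtain ⟨C1, hC1, hQ⟩ := KBN_Qo_bound n
  obtain ⟨C2, hC2, hS⟩ := SideG_S n hn
  obtain ⟨c0, C0, hc0, hC0, hBn⟩ := BnB8_bound n
  obtain ⟨K, hK, hKz⟩ := SideG8_zpow c0 C0 hc0 (2 - (A.card : ℤ))
  have hc : 1 ≤ A.card := hA.card_pos
  have hc1 : (1 : ℝ) ≤ A.card := by exact_mod_cast hc
  have hR : (10 : ℝ) ≤ |r| := by linarith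
  have hR2 : (100 : ℝ) ≤ r ^ 2 := by
    rw [← sq_abs]
    nlinarith
  have hY3 : Y ≤ 3 / 1000 := by
    refine hY'.trans ?_
    rw [div_le_iff₀ (by positivity)]
    have h1 : r ^ 2 = |r| * |r| := by rw [← sq_abs, sq]
    rw [h1]
    nlinarith
  refine ⟨2 * Y * (2 * Real.exp (2 * Real.pi * (1 / 10))) * K * C1 ^ A.card * Real.exp n ^ A.card,
    by positivity, ⌈2 * C2⌉₊ * A.card, fun M k1 k2 l1 l2 k hw hk => ?_⟩
  obtain ⟨f1, f2, f3, f4, f5, f6, f7⟩ := win_facts n M k1 k2 l1 l2 hn hw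
  have hMbig : 1000 * (n + 1) ≤ M := hw.big
  have hMpos : 0 < M := by omega
  have hM0 : (0 : ℝ) < M := by exact_mod_cast hMpos
  have hM1 : (1 : ℝ) ≤ M := by exact_mod_cast hMpos
  set y : Fin m → ℂ := fun j => ((yk n M (k j) : ℝ) : ℂ) with hy
  set ρ : ℝ := rho n M l2 with hρ
  have f8 : ∀ j ∈ A, |yk n M (k j) - 1 / 4| ≤ 55 / 1000 := fun j hj =>
    (f3 (k j) (hk j hj).1 (hk j hj).2).1
  set E : ℝ := 4 * A.card * Fr (3 / 4) - 20 / 1000 - ∑ j ∈ A, 2 * Fr (yk n M (k j) + 1 / 2) with hE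
  -- the bound on a vertical side
  have side : ∀ σ : ℝ, (σ = ρ ∨ σ = -ρ) → ∀ t : ℝ, 0 ≤ t → t ≤ Y →
      ‖KG8 r n M A y ((σ : ℂ) + t * I) * om n M ((σ : ℂ) + t * I) * I‖ ≤
        2 * Real.exp (2 * Real.pi * (1 / 10)) * K * C1 ^ A.card * Real.exp (M * E) := by
    intro σ hσ t ht0 ht1
    have hom : ‖om n M ((σ : ℂ) + t * I)‖ ≤ Real.exp (-(2 * Real.pi * M * t)) := by
      obtain ⟨o1, o2, -, -⟩ := om_side n M l1 l2 hMpos hw.hl t ρ rfl
      rcases hσ with h | h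
      · rw [h]; exact o1
      · rw [h, Complex.ofReal_neg]; exact o2
    have hσabs : |σ| = ρ := by
      have : 0 ≤ ρ := by linarith
      rcases hσ with h | h
      · rw [h, abs_of_nonneg this]
      · rw [h, abs_neg, abs_of_nonneg this]
    have hσ1 : -ρ ≤ σ := by rw [← hσabs]; exact neg_abs_le σ
    have hσ2 : σ ≤ ρ := by rw [← hσabs]; exact le_abs_self σ
    have hre : ((σ : ℂ) + t * I).re = σ := by simp
    have him : ((σ : ℂ) + t * I).im = t := by simp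
    have hQj : ∀ j ∈ A, ‖Qo n M (some (y j)) ((σ : ℂ) + t * I)‖ ≤
        C1 * Real.exp (M * (4 * Fr (3 / 4) - 60 / 1000 - 2 * Fr (yk n M (k j) + 1 / 2))) := by
      intro j hj
      have g8 := f8 j hj
      rw [abs_le] at g8
      have h1 := hQ M (by omega) (some (y j)) ((σ : ℂ) + t * I) (by
        intro z hz
        have hz' : z = y j := (Option.mem_some_iff.mp hz).symm
        have hz1 : z.re = yk n M (k j) := by rw [hz', hy, Complex.ofReal_re]
        have hz3 : z.im = 0 := by rw [hz', hy, Complex.ofReal_im]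
        have w1 : (z - ((σ : ℂ) + t * I)).re = z.re - σ := by
          rw [Complex.sub_re, hre]
        have w2 : (z + ((σ : ℂ) + t * I)).re = z.re + σ := by
          rw [Complex.add_re, hre]
        rw [w1, w2, hz3, abs_zero, hz1]
        refine ⟨by linarith, by linarith, by linarith, by linarith, by norm_num⟩)
        (by rw [him, abs_of_nonneg ht0]; linarith)
      have h2 := SideG_slot (yk n M (k j)) t σ (f8 j hj) (by rw [hσabs]; exact f6)
        (by rw [hσabs]; linarith) ht0 (ht1.trans hY3)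
      refine h1.trans ?_
      have h3 : C1 / M ≤ C1 := div_le_self hC1.le hM1
      have h4 : (po (some (y j)) ((σ : ℂ) + t * I)).re ≤
          4 * Fr (3 / 4) - 60 / 1000 - 2 * Fr (yk n M (k j) + 1 / 2) := by
        rw [hy]
        linarith
      gcongr
    have hprod : ‖∏ j ∈ A, Qo n M (some (y j)) ((σ : ℂ) + t * I)‖ ≤ C1 ^ A.card *
        Real.exp (M * (∑ j ∈ A, (4 * Fr (3 / 4) - 60 / 1000 - 2 * Fr (yk n M (k j) + 1 / 2)))) := by
      rw [_root_.norm_prod]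
      refine (Finset.prod_le_prod (fun j _ => norm_nonneg _) hQj).trans (le_of_eq ?_)
      rw [Finset.prod_mul_distrib, Finset.prod_const, ← Real.exp_sum, Finset.mul_sum]
    have hs : ‖2 * Complex.sin (2 * Real.pi * ((σ : ℂ) + t * I))‖ ≤
        2 * Real.exp (2 * Real.pi * (1 / 10)) := by
      rw [norm_mul]
      have h2 : ‖(2 : ℂ)‖ = 2 := by simp
      rw [h2]
      refine mul_le_mul_of_nonneg_left ((KB_norm_sin_le _).trans (Real.exp_le_exp.2 ?_))
        (by norm_num)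
      have h7 : (2 * (Real.pi : ℂ) * ((σ : ℂ) + t * I)).im = 2 * Real.pi * t := by
        have : (2 * (Real.pi : ℂ)) = ((2 * Real.pi : ℝ) : ℂ) := by push_cast; ring
        rw [this, Complex.im_ofReal_mul, him]
      rw [h7, abs_of_nonneg (by positivity)]
      exact mul_le_mul_of_nonneg_left (by linarith) (by positivity)
    have hex : ‖exp (2 * Real.pi * I * r * M * ((σ : ℂ) + t * I) ^ 2)‖ =
        Real.exp (M * (-4 * Real.pi * r * σ * t)) := by
      rw [Complex.norm_exp]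
      congr 1
      have h9 : (2 * Real.pi * I * r * M * ((σ : ℂ) + t * I) ^ 2 : ℂ) =
          ((M * (-4 * Real.pi * r * σ * t) : ℝ) : ℂ) +
            ((M * (2 * Real.pi * r * (σ ^ 2 - t ^ 2)) : ℝ) : ℂ) * I := by
        push_cast
        linear_combination (4 * (Real.pi : ℂ) * r * M * σ * t +
          2 * Real.pi * r * M * t ^ 2 * I) * I_sq
      rw [h9, Complex.add_re, Complex.ofReal_re, Complex.re_ofReal_mul, Complex.I_re, mul_zero,
        add_zero]
    have hph := SideG_phase r σ ρ t Y A.card hc hr hσabs (by linarith) ht0 ht1 hY'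
    have hBz : ‖Bn n M ((σ : ℂ) + t * I) ^ (2 - (A.card : ℤ))‖ ≤ K := by
      obtain ⟨b1, b2⟩ := hBn M ((σ : ℂ) + t * I) hMbig
        (by rw [hre, hσabs]; linarith) (by rw [him, abs_of_nonneg ht0]; linarith)
      rw [norm_zpow]
      exact hKz _ b1 b2
    rw [norm_mul, norm_mul, Complex.norm_I, mul_one]
    unfold KG8
    rw [norm_mul, norm_mul, norm_mul, hex]
    calc Real.exp (M * (-4 * Real.pi * r * σ * t)) *
          ‖2 * Complex.sin (2 * Real.pi * ((σ : ℂ) + t * I))‖ *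
          ‖Bn n M ((σ : ℂ) + t * I) ^ (2 - (A.card : ℤ))‖ *
          ‖∏ j ∈ A, Qo n M (some (y j)) ((σ : ℂ) + t * I)‖ * ‖om n M ((σ : ℂ) + t * I)‖
        ≤ Real.exp (M * (-4 * Real.pi * r * σ * t)) * (2 * Real.exp (2 * Real.pi * (1 / 10))) * K *
          (C1 ^ A.card * Real.exp (M * (∑ j ∈ A, (4 * Fr (3 / 4) - 60 / 1000 -
            2 * Fr (yk n M (k j) + 1 / 2))))) * Real.exp (-(2 * Real.pi * M * t)) := by
          gcongr
      _ = 2 * Real.exp (2 * Real.pi * (1 / 10)) * K * C1 ^ A.card *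
          (Real.exp (M * (-4 * Real.pi * r * σ * t)) *
            Real.exp (M * (∑ j ∈ A, (4 * Fr (3 / 4) - 60 / 1000 -
              2 * Fr (yk n M (k j) + 1 / 2)))) * Real.exp (-(2 * Real.pi * M * t))) := by ring
      _ ≤ _ := by
          rw [← Real.exp_add, ← Real.exp_add]
          refine mul_le_mul_of_nonneg_left (Real.exp_le_exp.2 ?_) (by positivity)
          rw [hE, Finset.sum_sub_distrib, Finset.sum_const, nsmul_eq_mul]
          have h0 : (M : ℝ) * (-4 * Real.pi * r * σ * t - 2 * Real.pi * t - 60 / 1000 * A.card) ≤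
              M * (-(20 / 1000)) := mul_le_mul_of_nonneg_left hph hM0.le
          nlinarith
  set B : ℝ := 2 * Real.exp (2 * Real.pi * (1 / 10)) * K * C1 ^ A.card * Real.exp (M * E) with hB
  have hB0 : 0 ≤ B := by positivity
  have i1 : ‖∫ t in (0 : ℝ)..Y, KG8 r n M A y (-(ρ : ℂ) + t * I) *
      om n M (-(ρ : ℂ) + t * I) * I‖ ≤ B * |Y - 0| := by
    apply intervalIntegral.norm_integral_le_of_norm_le_const
    intro t ht
    rw [Set.uIoc_of_le hY.le] at ht
    have := side (-ρ) (Or.inr rfl) t ht.1.le ht.2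
    rwa [Complex.ofReal_neg] at this
  have i2 : ‖∫ t in (0 : ℝ)..Y, KG8 r n M A y ((ρ : ℂ) + t * I) *
      om n M ((ρ : ℂ) + t * I) * I‖ ≤ B * |Y - 0| := by
    apply intervalIntegral.norm_integral_le_of_norm_le_const
    intro t ht
    rw [Set.uIoc_of_le hY.le] at ht
    exact side ρ (Or.inl rfl) t ht.1.le ht.2
  rw [sub_zero, abs_of_pos hY] at i1 i2
  have hdiff : PG8 r n M A y ρ Y - FG8 r n M A y ρ Y =
      (∫ t in (0 : ℝ)..Y, KG8 r n M A y (-(ρ : ℂ) + t * I) * om n M (-(ρ : ℂ) + t * I) * I) -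
      ∫ t in (0 : ℝ)..Y, KG8 r n M A y ((ρ : ℂ) + t * I) * om n M ((ρ : ℂ) + t * I) * I := by
    unfold PG8 FG8 VC3.Path
    ring
  have hPF : ‖PG8 r n M A y ρ Y - FG8 r n M A y ρ Y‖ ≤ 2 * Y * B := by
    rw [hdiff]
    refine (norm_sub_le _ _).trans ?_
    linarith
  -- the size of `S`
  have hSp : ∏ j ∈ A, S M (k j) ^ 2 ≤ ((M : ℝ) ^ (⌈2 * C2⌉₊ * A.card) * (Real.exp n ^ A.card *
      Real.exp (M * ∑ j ∈ A, 2 * Fr (yk n M (k j) + 1 / 2)))) := by
    refine (Finset.prod_le_prod (fun j _ => by positivity) fun j hj =>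
      hS M k1 k2 l1 l2 (k j) hw (hk j hj).1 (hk j hj).2).trans (le_of_eq ?_)
    rw [Finset.prod_mul_distrib, Finset.prod_mul_distrib, Finset.prod_const, Finset.prod_const,
      ← Real.exp_sum, Finset.mul_sum, ← pow_mul]
  calc (∏ j ∈ A, S M (k j) ^ 2) * ‖PG8 r n M A y ρ Y - FG8 r n M A y ρ Y‖
      ≤ ((M : ℝ) ^ (⌈2 * C2⌉₊ * A.card) * (Real.exp n ^ A.card *
          Real.exp (M * ∑ j ∈ A, 2 * Fr (yk n M (k j) + 1 / 2)))) * (2 * Y * B) :=
        mul_le_mul hSp hPF (norm_nonneg _) (by positivity)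
    _ = 2 * Y * (2 * Real.exp (2 * Real.pi * (1 / 10))) * K * C1 ^ A.card * Real.exp n ^ A.card *
        (M : ℝ) ^ (⌈2 * C2⌉₊ * A.card) *
        (Real.exp (M * ∑ j ∈ A, 2 * Fr (yk n M (k j) + 1 / 2)) * Real.exp (M * E)) := by
        rw [hB]; ring
    _ = _ := by
        rw [← Real.exp_add, ← mul_add, hE]
        congr 3
        ring


end Pool.Agent.H63.VC8
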