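import Pool.Agent.H63.VC8.HybM8
import Pool.Agent.H63.VC8.QcLL8
import Pool.Agent.H63.VC7.MainPart

/-! # The main part as one integral -/

namespace Pool.Agent.H63.VC8

open Pool.Agent.H63.VC hiding ext
open Pool.Agent.H63.VC3 Pool.Agent.H63.VC4 Pool.Agent.H63.VC6 Pool.Agent.H63.VC7 Complex

variable {m p : ℕ}
  {s t : Fin m → Fin p} {r : Fin p → ℝ} {y : Fin m → ℂ} {v : Fin p → ℂ}

/-- Restriction to the window. -/
theorem MainPart8_restrict (s t : Fin m → Fin p) (r : Fin p → ℝ) (Y : Fin p → ℝ)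
    (n g M k1 k2 l2 : ℕ) (hk2 : k2 < M + 2 - n) :
    ∑ k ∈ Fintype.piFinset (fun _ : Fin m => Finset.range (M + 2 - n)),
        (∏ j, Cc n g M (yk n M (k j))) * ∏ i, GD8 (r i) (Y i) n M k1 k2 l2 (inc s t i) k =
    (-(4 * Real.pi * I * M ^ 2)) ^ p *
      ∑ k ∈ Fintype.piFinset (fun _ : Fin m => Finset.Icc k1 k2),
        (∏ j, Cc n g M (yk n M (k j))) *
          ∏ i, FG8 (r i) n M (inc s t i) (fun j => ((yk n M (k j) : ℝ) : ℂ)) (rho n M l2) (Y i) := by
  rw [Finset.mul_sum]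
  symm
  refine Finset.sum_subset_zero_on_sdiff ?_ ?_ ?_
  · refine Fintype.piFinset_subset _ _ fun _ k hk => ?_
    rw [Finset.mem_Icc] at hk
    exact Finset.mem_range.2 (by omega)
  · intro k hk
    rw [Finset.mem_sdiff, Fintype.mem_piFinset, Fintype.mem_piFinset, not_forall] at hk
    obtain ⟨-, j, hj⟩ := hk
    rw [Finset.mem_Icc] at hj
    have h1 : GD8 (r (s j)) (Y (s j)) n M k1 k2 l2 (inc s t (s j)) k = 0 := by
      rw [GD8, if_neg]
      intro h
      exact hj (h j (mem_inc_s s t j))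
    rw [Finset.prod_eq_zero (Finset.mem_univ (s j)) h1, mul_zero]
  · intro k hk
    have h1 : ∀ i, GD8 (r i) (Y i) n M k1 k2 l2 (inc s t i) k = -(4 * Real.pi * I * M ^ 2) *
        FG8 (r i) n M (inc s t i) (fun j => ((yk n M (k j) : ℝ) : ℂ)) (rho n M l2) (Y i) := by
      intro i
      rw [GD8, if_pos]
      intro j _
      have := Fintype.mem_piFinset.1 hk j
      rwa [Finset.mem_Icc] at this
    simp only [h1]
    rw [Finset.prod_mul_distrib, Finset.prod_const, Finset.card_univ, Fintype.card_fin]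
    ring

theorem MainPart8_diff (n g : ℕ) (hn : 2 ≤ n) (hg : 1 ≤ g) (hgn : g < n) (hc : CritG s t r y v) :
    ∃ C : ℝ, 0 < C ∧ ∃ M0 : ℕ, ∀ M k1 k2 l1 l2 : ℕ, M0 ≤ M → Win n M k1 k2 l1 l2 →
    ‖∑ k ∈ Fintype.piFinset (fun _ : Fin m => Finset.Icc k1 k2),
        (∏ j, Cc n g M (yk n M (k j))) *
          ∏ i, FG8 (r i) n M (inc s t i) (fun j => ((yk n M (k j) : ℝ) : ℂ)) (rho n M l2)
            (v i).im -
      (M : ℂ) ^ m * MG8 s t r n g M (fun j => (y j).im)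
        (fun i => (v i).im) ((k1 + bt n) / M - 1 / 2) ((k2 + 1 + bt n) / M - 1 / 2)
        (rho n M l2)‖ ≤
      C * (M : ℝ) ^ m * Real.exp (M * ((VG s t r y v).re - 1 / 500)) := by
  obtain ⟨C, hC, M0, hB⟩ := core_main8 n g hn hg hgn hc
  refine ⟨C, hC, M0 + 3000, ?_⟩
  intro M k1 k2 l1 l2 hM0 hw
  have hMpos : 0 < M := by omega
  have hbig := hw.big
  obtain ⟨-, -, hkk, -, -, hρ1, hρ2⟩ := win_facts n M k1 k2 l1 l2 hn hw
  have hcore := hB M k1 k2 l1 l2 (by omega) hw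
  rw [← VG_re hc.st] at hcore
  obtain ⟨ρ, hρ⟩ : ∃ ρ, ρ = rho n M l2 := ⟨_, rfl⟩
  obtain ⟨y1, hy1⟩ : ∃ y1 : ℝ, y1 = (k1 + bt n) / M - 1 / 2 := ⟨_, rfl⟩
  obtain ⟨y2, hy2⟩ : ∃ y2 : ℝ, y2 = (k2 + 1 + bt n) / M - 1 / 2 := ⟨_, rfl⟩
  have a1 : 1 / 4 - 55 / 1000 ≤ y1 := by rw [hy1]; exact hw.a1
  have a4 : y2 ≤ 1 / 4 + 55 / 1000 := by rw [hy2]; exact hw.a4
  rw [← hy1, ← hy2, ← hρ]
  rw [← hy1, ← hy2] at hcore
  rw [← hρ] at hρ1 hρ2
  have hykm : ∀ k ∈ Fintype.piFinset (fun _ : Fin m => Finset.Icc k1 k2), ∀ j,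
      195 / 1000 ≤ yk n M (k j) ∧ yk n M (k j) ≤ 305 / 1000 := by
    intro k hk j
    have h0 := Fintype.mem_piFinset.1 hk j
    rw [Finset.mem_Icc] at h0
    have h1 := (hkk (k j) h0.1 h0.2).1
    rw [abs_le] at h1
    constructor <;> linarith [h1.1, h1.2]
  refine FLmainN_diff y1 y2 ρ (by linarith) (by linarith)
    (Fintype.piFinset (fun _ : Fin m => Finset.Icc k1 k2))
    (fun k => ∏ j, Cc n g M (yk n M (k j)))
    (fun k i a => KG8 (r i) n M (inc s t i) (fun j => ((yk n M (k j) : ℝ) : ℂ))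
      (a + (v i).im * I) * om n M (a + (v i).im * I)) ?_
    (fun q => GN8 s t r n g M ∅ ∅ (fun j => q.1 j + (y j).im * I) (fun i => q.2 i + (v i).im * I)) ?_
    ((M : ℂ) ^ m) _ (by positivity) ?_
  · intro k hk i a ha
    have hare : |((a : ℂ) + (v i).im * I).re| ≤ 15 / 100 := by
      rw [FLmainN_re, abs_le]
      constructor <;> linarith [ha.1, ha.2]
    have h1 := KG8_continuousAt (r i) n M hbig (inc s t i) (fun j => ((yk n M (k j) : ℝ) : ℂ))
      (a + (v i).im * I) hare (fun j _ => MainPart_ok _ _ (by rw [ofReal_re]; exact hykm k hk j) hare)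
    have h2 := om_continuousAt n M (a + (v i).im * I) (FLmainN_ww_ne n M hMpos _
      (by rw [FLmainN_im]; exact hc.imv i))
    have h3 : ContinuousAt (fun a : ℝ => (a : ℂ) + (v i).im * I) a := by fun_prop
    have h4 : ContinuousAt (fun a : ℝ => (((fun j => ((yk n M (k j) : ℝ) : ℂ)),
        (a : ℂ) + (v i).im * I) : (Fin m → ℂ) × ℂ)) a := continuousAt_const.prodMk h3
    have h5 : ContinuousAt (fun a : ℝ => KG8 (r i) n M (inc s t i)
        (fun j => ((yk n M (k j) : ℝ) : ℂ)) (a + (v i).im * I)) a :=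
      ContinuousAt.comp (f := fun a : ℝ => (((fun j => ((yk n M (k j) : ℝ) : ℂ)),
        (a : ℂ) + (v i).im * I) : (Fin m → ℂ) × ℂ))
        (g := fun z : (Fin m → ℂ) × ℂ => KG8 (r i) n M (inc s t i) z.1 z.2) h1 h4
    exact (h5.mul (ContinuousAt.comp (f := fun a : ℝ => (a : ℂ) + (v i).im * I)
      h2 h3)).continuousWithinAt
  · intro q hq
    have hq1 : ∀ j, |((q.1 j : ℂ) + (y j).im * I).re - 1 / 4| ≤ 55 / 1000 := by
      intro j
      have := Set.mem_univ_pi.1 hq.1 j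
      rw [FLmainN_re, abs_le]
      constructor <;> linarith [this.1, this.2]
    have hq2 : ∀ i, |((q.2 i : ℂ) + (v i).im * I).re| ≤ 15 / 100 := by
      intro i
      have := Set.mem_univ_pi.1 hq.2 i
      rw [FLmainN_re, abs_le]
      constructor <;> linarith [this.1, this.2]
    have e1 := GN8_continuousAt s t r n g M hn hg hgn hbig ∅ ∅ (fun j => q.1 j + (y j).im * I)
      (fun i => q.2 i + (v i).im * I) hq1 hq2
      (fun i => FLmainN_ww_ne n M hMpos _ (by rw [FLmainN_im]; exact hc.imv i))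
    refine ContinuousAt.continuousWithinAt ?_
    refine ContinuousAt.comp (f := fun q : (Fin m → ℝ) × (Fin p → ℝ) =>
      ((fun j => q.1 j + (y j).im * I, fun i => q.2 i + (v i).im * I) :
        (Fin m → ℂ) × (Fin p → ℂ)))
      (g := fun z : (Fin m → ℂ) × (Fin p → ℂ) => GN8 s t r n g M ∅ ∅ z.1 z.2) e1 ?_
    fun_prop
  · intro a ha
    have h1 := hcore a (fun i => by
        have := ha i
        rw [abs_le]
        constructor <;> linarith [this.1, this.2])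
    have h2 : ∀ k : Fin m → ℕ, GN8 s t r n g M ∅ ∅ (fun j => ((yk n M (k j) : ℝ) : ℂ))
        (fun i => a i + (v i).im * I) = (∏ j, Cc n g M (yk n M (k j))) *
        ∏ i, (KG8 (r i) n M (inc s t i) (fun j => ((yk n M (k j) : ℝ) : ℂ))
          (a i + (v i).im * I) * om n M (a i + (v i).im * I)) := by
      intro k
      rw [GN8, Finset.compl_empty, Finset.compl_empty]
    simp only [h2] at h1
    exact h1

theorem main_part8 (n g : ℕ) (hn : 2 ≤ n) (hg : 1 ≤ g) (hgn : g < n) (hc : CritG s t r y v) :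
    ∃ C : ℝ, 0 < C ∧ ∃ D M0 : ℕ, ∀ M k1 k2 l1 l2 : ℕ, M0 ≤ M → Win n M k1 k2 l1 l2 →
    ‖∑ k ∈ Fintype.piFinset (fun _ : Fin m => Finset.range (M + 2 - n)),
        (∏ j, Cc n g M (yk n M (k j))) * ∏ i, GD8 (r i) (v i).im n M k1 k2 l2 (inc s t i) k -
      (-(4 * Real.pi * I * M ^ 2)) ^ p * ((M : ℂ) ^ m * MG8 s t r n g M (fun j => (y j).im)
        (fun i => (v i).im) ((k1 + bt n) / M - 1 / 2) ((k2 + 1 + bt n) / M - 1 / 2)
        (rho n M l2))‖ ≤
      C * (M : ℝ) ^ D * Real.exp (M * ((VG s t r y v).re - 1 / 500)) := by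
  obtain ⟨C, hC, M0, hB⟩ := MainPart8_diff n g hn hg hgn hc
  refine ⟨(4 * Real.pi) ^ p * C, by positivity, 2 * p + m, M0, ?_⟩
  intro M k1 k2 l1 l2 hM0 hw
  have hk2 : k2 < M + 2 - n := by
    have := (win_facts n M k1 k2 l1 l2 hn hw).1
    omega
  rw [MainPart8_restrict s t r (fun i => (v i).im) n g M k1 k2 l2 hk2, ← mul_sub, norm_mul, norm_pow]
  have h1 : ‖(-(4 * Real.pi * I * M ^ 2) : ℂ)‖ = 4 * Real.pi * (M : ℝ) ^ 2 := by
    rw [norm_neg, norm_mul, norm_mul, norm_mul, norm_I, mul_one, norm_pow, Complex.norm_natCast,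
      Complex.norm_real, Real.norm_of_nonneg Real.pi_pos.le]
    simp
  rw [h1]
  have h2 := hB M k1 k2 l1 l2 hM0 hw
  calc (4 * Real.pi * (M : ℝ) ^ 2) ^ p * _ ≤ (4 * Real.pi * (M : ℝ) ^ 2) ^ p *
        (C * (M : ℝ) ^ m * Real.exp (M * ((VG s t r y v).re - 1 / 500))) :=
        mul_le_mul_of_nonneg_left h2 (by positivity)
    _ = _ := by
      rw [mul_pow, ← pow_mul, pow_add]
      ring

end Pool.Agent.H63.VC8
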