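import Pool.Agent.H63.VC.Asym
import Pool.Agent.H63.VC.EndB
import Pool.Agent.H63.VC.Riem
import Pool.Agent.H63.VC.SlowL
import Pool.Agent.H63.VC.SlowU
import Pool.Agent.H63.VC.Small
import Pool.Agent.H63.VC3.CritB
import Pool.Agent.H63.VC3.Upper
import Pool.Agent.H63.VC4.KBN
import Pool.Agent.H63.VC4.UpperN
import Pool.Agent.H63.VC6.LocU
import Pool.Agent.H63.VC6.SlotU
import Pool.Agent.H63.VC7.SlotXa
import Pool.Agent.H63.VC8.Defs8

/-! # The slot factor at the lattice points -/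

namespace Pool.Agent.H63.VC8

open Pool.Agent.H63.VC hiding ext
open Pool.Agent.H63.VC3 Pool.Agent.H63.VC4 Pool.Agent.H63.VC6 Pool.Agent.H63.VC7 Complex

variable {m p : ℕ}

private noncomputable def SlotXa8_f (n M i : ℕ) (v : ℂ) : ℂ :=
  2 * cos (Real.pi * (v + (i + bt n) / M))

private noncomputable def SlotXa8_g (n M i : ℕ) (v : ℂ) : ℂ :=
  2 * cos (Real.pi * (v - (i + bt n) / M))

private lemma SlotXa8_qc (n M k : ℕ) : qcn n M k = fun v => (1 / (M : ℂ)) *
    ((∏ i ∈ Finset.range (M + 1 - n - k), SlotXa8_f n M i v) *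
      ∏ i ∈ Finset.range (M + 1 - n - k), SlotXa8_g n M i v) := by
  funext v
  unfold qcn
  rw [← Finset.prod_mul_distrib]
  congr 1
  refine Finset.prod_congr rfl fun i _ => ?_
  unfold SlotXa8_f SlotXa8_g
  ring

private lemma SlotXa8_fd (n M i : ℕ) (v : ℂ) :
    HasDerivAt (SlotXa8_f n M i) (-(2 * Real.pi) * sin (Real.pi * (v + (i + bt n) / M))) v := by
  unfold SlotXa8_f
  have h1 : HasDerivAt (fun v : ℂ => (Real.pi : ℂ) * (v + (i + bt n) / M)) ((Real.pi : ℂ) * 1) v :=
    ((hasDerivAt_id v).add_const _).const_mul _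
  have h2 := (h1.ccos).const_mul (2 : ℂ)
  convert! h2 using 1
  ring

private lemma SlotXa8_gd (n M i : ℕ) (v : ℂ) :
    HasDerivAt (SlotXa8_g n M i) (-(2 * Real.pi) * sin (Real.pi * (v - (i + bt n) / M))) v := by
  unfold SlotXa8_g
  have h1 : HasDerivAt (fun v : ℂ => (Real.pi : ℂ) * (v - (i + bt n) / M)) ((Real.pi : ℂ) * 1) v :=
    ((hasDerivAt_id v).sub_const _).const_mul _
  have h2 := (h1.ccos).const_mul (2 : ℂ)
  convert! h2 using 1
  ring

private lemma SlotXa8_sin_le (x : ℝ) : ‖-(2 * (Real.pi : ℂ)) * sin (x : ℂ)‖ ≤ 2 * Real.pi := by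
  rw [norm_mul, norm_neg, ← ofReal_sin, norm_real]
  have h1 : ‖(2 * (Real.pi : ℂ))‖ = 2 * Real.pi := by
    rw [norm_mul, norm_real, Real.norm_eq_abs, abs_of_pos Real.pi_pos]
    norm_num
  rw [h1, Real.norm_eq_abs]
  have := Real.abs_sin_le_one x
  nlinarith [Real.pi_pos]

private lemma SlotXa8_fb (n M i : ℕ) (x : ℝ) :
    ‖-(2 * (Real.pi : ℂ)) * sin (Real.pi * ((x : ℂ) + (i + bt n) / M))‖ ≤ 2 * Real.pi := by
  have := SlotXa8_sin_le (Real.pi * (x + (i + bt n) / M))
  push_cast at this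
  exact this

private lemma SlotXa8_gb (n M i : ℕ) (x : ℝ) :
    ‖-(2 * (Real.pi : ℂ)) * sin (Real.pi * ((x : ℂ) - (i + bt n) / M))‖ ≤ 2 * Real.pi := by
  have := SlotXa8_sin_le (Real.pi * (x - (i + bt n) / M))
  push_cast at this
  exact this

private lemma SlotXa8_vl (n M X : ℕ) : vl n M X = (X + bt n) / M - 1 / 2 := rfl

private lemma SlotXa8_fv (n M X i : ℕ) (hn : 2 ≤ n) :
    SlotXa8_f n M i ((vl n M X : ℝ) : ℂ) = ((sg M (X + n - 1 + i) : ℝ) : ℂ) := by
  unfold SlotXa8_f sg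
  rw [SlotXa8_vl]
  have e0 : ((X + n - 1 + i : ℕ) : ℝ) = X + 2 * bt n + i := by
    unfold bt
    rw [Nat.cast_add, Nat.cast_sub (by omega)]
    push_cast
    ring
  have e : (Real.pi : ℂ) * ((((X + bt n) / M - 1 / 2 : ℝ) : ℂ) + (i + bt n) / M) =
      ((Real.pi * ((X + n - 1 + i : ℕ) : ℝ) / M : ℝ) : ℂ) - Real.pi / 2 := by
    rw [e0]
    push_cast
    ring
  rw [e, cos_sub_pi_div_two, ← ofReal_sin]
  push_cast
  ring

private lemma SlotXa8_gv (n M X i : ℕ) :
    SlotXa8_g n M i ((vl n M X : ℝ) : ℂ) = ((2 * Real.sin (Real.pi * ((X : ℝ) - i) / M) : ℝ) : ℂ) := by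
  unfold SlotXa8_g
  rw [SlotXa8_vl]
  have e : (Real.pi : ℂ) * ((((X + bt n) / M - 1 / 2 : ℝ) : ℂ) - (i + bt n) / M) =
      ((Real.pi * ((X : ℝ) - i) / M : ℝ) : ℂ) - Real.pi / 2 := by
    push_cast
    ring
  rw [e, cos_sub_pi_div_two, ← ofReal_sin]
  push_cast
  ring

private lemma SlotXa8_gv1 (n M X i : ℕ) (h : i ≤ X) :
    SlotXa8_g n M i ((vl n M X : ℝ) : ℂ) = ((sg M (X - i) : ℝ) : ℂ) := by
  rw [SlotXa8_gv]
  unfold sg
  rw [Nat.cast_sub h]

private lemma SlotXa8_gv2 (n M X i : ℕ) (h : X ≤ i) :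
    SlotXa8_g n M i ((vl n M X : ℝ) : ℂ) = -((sg M (i - X) : ℝ) : ℂ) := by
  rw [SlotXa8_gv]
  unfold sg
  rw [Nat.cast_sub h, ← ofReal_neg]
  congr 1
  have : Real.pi * ((X : ℝ) - i) / M = -(Real.pi * ((i : ℝ) - X) / M) := by ring
  rw [this, Real.sin_neg]
  ring

private lemma SlotXa8_g0 (n M X : ℕ) : SlotXa8_g n M X ((vl n M X : ℝ) : ℂ) = 0 := by
  rw [SlotXa8_gv]
  simp

private lemma SlotXa8_prodF (n M X t : ℕ) (hn : 2 ≤ n) (hX : X + n - 2 < M) :
    ∏ i ∈ Finset.range t, sg M (X + n - 1 + i) = S M (X + n - 2 + t) / S M (X + n - 2) := by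
  have h1 := S_split (M := M) (k := X + n - 2) (l := X + n - 2 + t) (by omega)
  rw [Finset.prod_Ico_eq_prod_range] at h1
  have h2 : X + n - 2 + t + 1 - (X + n - 2 + 1) = t := by omega
  rw [h2] at h1
  rw [h1, mul_div_cancel_left₀ _ (S_pos hX).ne']
  refine Finset.prod_congr rfl fun i _ => ?_
  congr 1
  omega

private lemma SlotXa8_prodG (M X : ℕ) : ∀ t : ℕ, t ≤ X →
    S M X = S M (X - t) * ∏ i ∈ Finset.range t, sg M (X - i) := by
  intro t
  induction t with
  | zero => intro _; simp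
  | succ t ih =>
    intro ht
    rw [Finset.prod_range_succ, ih (by omega)]
    have h1 : X - t = (X - (t + 1)) + 1 := by omega
    rw [h1, S_succ, ← h1]
    ring

/-- The norm of the derivative of a product. -/
private lemma SlotXa8_prod_bound (t : ℕ) (h h' : ℕ → ℂ) (c D : ℝ) (hc : 0 < c) (hD : 0 ≤ D)
    (h1 : ∀ i < t, c ≤ ‖h i‖) (h2 : ∀ i < t, ‖h' i‖ ≤ D) :
    ‖∑ i ∈ Finset.range t, (∏ j ∈ (Finset.range t).erase i, h j) • h' i‖ ≤
      t * (D / c) * ‖∏ i ∈ Finset.range t, h i‖ := by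
  refine (norm_sum_le _ _).trans ?_
  have h3 : ∀ i ∈ Finset.range t, ‖(∏ j ∈ (Finset.range t).erase i, h j) • h' i‖ ≤
      (D / c) * ‖∏ i ∈ Finset.range t, h i‖ := by
    intro i hi
    rw [← Finset.mul_prod_erase _ _ hi, norm_smul, norm_mul]
    have hi' := Finset.mem_range.1 hi
    have e1 := h1 i hi'
    have e2 := h2 i hi'
    have e3 : (1 : ℝ) ≤ ‖h i‖ / c := by rw [le_div_iff₀ hc]; linarith
    calc ‖∏ j ∈ (Finset.range t).erase i, h j‖ * ‖h' i‖
        ≤ ‖∏ j ∈ (Finset.range t).erase i, h j‖ * D := by gcongr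
      _ ≤ ‖∏ j ∈ (Finset.range t).erase i, h j‖ * D * (‖h i‖ / c) :=
          le_mul_of_one_le_right (by positivity) e3
      _ = D / c * (‖h i‖ * ‖∏ j ∈ (Finset.range t).erase i, h j‖) := by ring
  refine (Finset.sum_le_sum h3).trans ?_
  rw [Finset.sum_const, Finset.card_range, nsmul_eq_mul, mul_assoc]

private lemma SlotXa8_Fd (n M t : ℕ) (v : ℂ) :
    HasDerivAt (fun v => ∏ i ∈ Finset.range t, SlotXa8_f n M i v)
      (∑ i ∈ Finset.range t, (∏ j ∈ (Finset.range t).erase i, SlotXa8_f n M j v) •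
        (-(2 * Real.pi) * sin (Real.pi * (v + (i + bt n) / M)))) v :=
  HasDerivAt.fun_finsetProd fun i _ => SlotXa8_fd n M i v

private lemma SlotXa8_Gd (n M t : ℕ) (v : ℂ) :
    HasDerivAt (fun v => ∏ i ∈ Finset.range t, SlotXa8_g n M i v)
      (∑ i ∈ Finset.range t, (∏ j ∈ (Finset.range t).erase i, SlotXa8_g n M j v) •
        (-(2 * Real.pi) * sin (Real.pi * (v - (i + bt n) / M)))) v :=
  HasDerivAt.fun_finsetProd fun i _ => SlotXa8_gd n M i v

private lemma SlotXa8_qcd (n M k : ℕ) (v : ℂ) :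
    deriv (qcn n M k) v = (1 / (M : ℂ)) *
      ((∑ i ∈ Finset.range (M + 1 - n - k),
          (∏ j ∈ (Finset.range (M + 1 - n - k)).erase i, SlotXa8_f n M j v) •
          (-(2 * Real.pi) * sin (Real.pi * (v + (i + bt n) / M)))) *
        (∏ i ∈ Finset.range (M + 1 - n - k), SlotXa8_g n M i v) +
      (∏ i ∈ Finset.range (M + 1 - n - k), SlotXa8_f n M i v) *
        (∑ i ∈ Finset.range (M + 1 - n - k),
          (∏ j ∈ (Finset.range (M + 1 - n - k)).erase i, SlotXa8_g n M j v) •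
          (-(2 * Real.pi) * sin (Real.pi * (v - (i + bt n) / M))))) := by
  rw [SlotXa8_qc]
  exact (((SlotXa8_Fd n M (M + 1 - n - k) v).fun_mul (SlotXa8_Gd n M (M + 1 - n - k) v)).const_mul _).deriv

private lemma SlotXa8_normF (n M X t : ℕ) (hn : 2 ≤ n) (ht : X + n - 2 + t < M) :
    ‖∏ i ∈ Finset.range t, SlotXa8_f n M i ((vl n M X : ℝ) : ℂ)‖ =
      S M (X + n - 2 + t) / S M (X + n - 2) := by
  rw [← SlotXa8_prodF n M X t hn (by omega), _root_.norm_prod]
  refine Finset.prod_congr rfl fun i hi => ?_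
  have hi' := Finset.mem_range.1 hi
  rw [SlotXa8_fv n M X i hn, norm_real, Real.norm_eq_abs, abs_of_pos (sg_pos (by omega) (by omega))]

theorem qcn_norm (n M k X : ℕ) (hn : 2 ≤ n) (hM : 2 ≤ M) (hk : k + n ≤ M + 1)
    (hX : 2 * X + n ≤ M + 1) :
    (M + 1 - n - k ≤ X →
      ‖qcn n M k ((vl n M X : ℝ) : ℂ)‖ = S M X / S M (X + n - 2) *
        (S M (X + (M - 1 - k)) / (M * S M (X - (M + 1 - n - k)))) ∧
      ‖deriv (qcn n M k) ((vl n M X : ℝ) : ℂ)‖ ≤ 2 * Real.pi * (M : ℝ) ^ 2 *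
        (S M X / S M (X + n - 2) *
          (S M (X + (M - 1 - k)) / (M * S M (X - (M + 1 - n - k)))))) ∧
    (X < M + 1 - n - k → X ≤ k → qcn n M k ((vl n M X : ℝ) : ℂ) = 0 ∧
      ‖deriv (qcn n M k) ((vl n M X : ℝ) : ℂ)‖ =
        2 * Real.pi / M * (S M X / S M (X + n - 2) *
          (S M (X + (M - 1 - k)) * S M (M - n - k - X)))) ∧
    (k < X → qcn n M k ((vl n M X : ℝ) : ℂ) = 0 ∧
      deriv (qcn n M k) ((vl n M X : ℝ) : ℂ) = 0) := by
  have hM0 : (0 : ℝ) < M := by exact_mod_cast (by omega : 0 < M)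
  have hXM : X < M := by omega
  have hSX := S_pos hXM
  have hXn : X + n - 2 < M := by omega
  have hSXn := S_pos hXn
  refine ⟨fun ht => ?_, fun ht hXk => ?_, fun hkX => ?_⟩
  · set t := M + 1 - n - k with htdef
    have hidx : X + n - 2 + t = X + (M - 1 - k) := by omega
    have hlt : X + n - 2 + t < M := by omega
    have hF := SlotXa8_normF n M X t hn hlt
    rw [hidx] at hF
    have hGe := SlotXa8_prodG M X t ht
    have hG : ‖∏ i ∈ Finset.range t, SlotXa8_g n M i ((vl n M X : ℝ) : ℂ)‖ =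
        S M X / S M (X - t) := by
      have hp := S_pos (M := M) (k := X - t) (by omega)
      rw [hGe, mul_div_cancel_left₀ _ hp.ne', _root_.norm_prod]
      refine Finset.prod_congr rfl fun i hi => ?_
      have hi' := Finset.mem_range.1 hi
      rw [SlotXa8_gv1 n M X i (by omega), norm_real, Real.norm_eq_abs,
        abs_of_pos (sg_pos (by omega) (by omega))]
    have hp := S_pos (M := M) (k := X - t) (by omega)
    have hFG : ‖∏ i ∈ Finset.range t, SlotXa8_f n M i ((vl n M X : ℝ) : ℂ)‖ *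
        ‖∏ i ∈ Finset.range t, SlotXa8_g n M i ((vl n M X : ℝ) : ℂ)‖ =
        S M X / S M (X + n - 2) * (S M (X + (M - 1 - k)) / S M (X - t)) := by
      rw [hF, hG]
      field_simp
    refine ⟨?_, ?_⟩
    · rw [SlotXa8_qc]
      simp only
      rw [← htdef, norm_mul, norm_mul, hFG, norm_div, norm_one, _root_.norm_natCast]
      field_simp
    · rw [SlotXa8_qcd, ← htdef, norm_mul, norm_div, norm_one, _root_.norm_natCast]
      have b1 := SlotXa8_prod_bound t (fun i => SlotXa8_f n M i ((vl n M X : ℝ) : ℂ))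
        (fun i => -(2 * (Real.pi : ℂ)) * sin (Real.pi * (((vl n M X : ℝ) : ℂ) + (i + bt n) / M)))
        (1 / M) (2 * Real.pi) (by positivity) (by positivity)
        (fun i hi => by
          rw [SlotXa8_fv n M X i hn, norm_real, Real.norm_eq_abs,
            abs_of_pos (sg_pos (by omega) (by omega))]
          exact sg_ge (by omega) (by omega))
        (fun i _ => SlotXa8_fb n M i _)
      have b2 := SlotXa8_prod_bound t (fun i => SlotXa8_g n M i ((vl n M X : ℝ) : ℂ))
        (fun i => -(2 * (Real.pi : ℂ)) * sin (Real.pi * (((vl n M X : ℝ) : ℂ) - (i + bt n) / M)))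
        (1 / M) (2 * Real.pi) (by positivity) (by positivity)
        (fun i hi => by
          rw [SlotXa8_gv1 n M X i (by omega), norm_real, Real.norm_eq_abs,
            abs_of_pos (sg_pos (by omega) (by omega))]
          exact sg_ge (by omega) (by omega))
        (fun i _ => SlotXa8_gb n M i _)
      have htM : 2 * (t : ℝ) ≤ M := by exact_mod_cast (by omega : 2 * t ≤ M)
      set F := ∏ i ∈ Finset.range t, SlotXa8_f n M i ((vl n M X : ℝ) : ℂ) with hFd
      set G := ∏ i ∈ Finset.range t, SlotXa8_g n M i ((vl n M X : ℝ) : ℂ) with hGd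
      refine (mul_le_mul_of_nonneg_left (norm_add_le _ _) (by positivity)).trans ?_
      rw [norm_mul, norm_mul]
      have c1 := mul_le_mul_of_nonneg_right b1 (norm_nonneg G)
      have c2 := mul_le_mul_of_nonneg_left b2 (norm_nonneg F)
      have c3 : (1 / (M : ℝ)) * (t * (2 * Real.pi / (1 / M)) * ‖F‖ * ‖G‖ +
          ‖F‖ * (t * (2 * Real.pi / (1 / M)) * ‖G‖)) = 4 * Real.pi * t * (‖F‖ * ‖G‖) := by
        field_simp
        ring
      refine (mul_le_mul_of_nonneg_left (add_le_add c1 c2) (by positivity)).trans ?_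
      rw [c3, hFG]
      have c4 : 2 * Real.pi * (M : ℝ) ^ 2 * (S M X / S M (X + n - 2) *
          (S M (X + (M - 1 - k)) / (M * S M (X - t)))) =
          2 * Real.pi * M * (S M X / S M (X + n - 2) * (S M (X + (M - 1 - k)) / S M (X - t))) := by
        field_simp
      rw [c4]
      have hq : 0 ≤ S M X / S M (X + n - 2) * (S M (X + (M - 1 - k)) / S M (X - t)) := by
        rw [← hFG]; positivity
      refine mul_le_mul_of_nonneg_right ?_ hq
      nlinarith [Real.pi_pos]
  · set t := M + 1 - n - k with htdef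
    have hidx : X + n - 2 + t = X + (M - 1 - k) := by omega
    have hlt : X + n - 2 + t < M := by omega
    have hF := SlotXa8_normF n M X t hn hlt
    rw [hidx] at hF
    have hG0 : ∏ i ∈ Finset.range t, SlotXa8_g n M i ((vl n M X : ℝ) : ℂ) = 0 :=
      Finset.prod_eq_zero (Finset.mem_range.2 ht) (SlotXa8_g0 n M X)
    refine ⟨?_, ?_⟩
    · rw [SlotXa8_qc]
      simp only
      rw [← htdef, hG0]
      simp
    · rw [SlotXa8_qcd, ← htdef, hG0, mul_zero, zero_add]
      have hs : ∑ i ∈ Finset.range t,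
          (∏ j ∈ (Finset.range t).erase i, SlotXa8_g n M j ((vl n M X : ℝ) : ℂ)) •
          (-(2 * (Real.pi : ℂ)) * sin (Real.pi * (((vl n M X : ℝ) : ℂ) - (i + bt n) / M))) =
          (∏ j ∈ (Finset.range t).erase X, SlotXa8_g n M j ((vl n M X : ℝ) : ℂ)) •
          (-(2 * (Real.pi : ℂ)) * sin (Real.pi * (((vl n M X : ℝ) : ℂ) - (X + bt n) / M))) := by
        refine Finset.sum_eq_single X ?_ ?_
        · intro i hi hiX
          rw [Finset.prod_eq_zero (Finset.mem_erase.2 ⟨fun h => hiX h.symm,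
            Finset.mem_range.2 ht⟩) (SlotXa8_g0 n M X), zero_smul]
        · intro h
          exact absurd (Finset.mem_range.2 ht) h
      rw [hs]
      have hsin : -(2 * (Real.pi : ℂ)) * sin (Real.pi * (((vl n M X : ℝ) : ℂ) - (X + bt n) / M)) =
          2 * Real.pi := by
        rw [SlotXa8_vl]
        have e : (Real.pi : ℂ) * ((((X + bt n) / M - 1 / 2 : ℝ) : ℂ) - (X + bt n) / M) =
            -(Real.pi / 2) := by
          push_cast
          ring
        rw [e, sin_neg, sin_pi_div_two]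
        ring
      rw [hsin]
      have hsplit : (Finset.range t).erase X = Finset.range X ∪ Finset.Ico (X + 1) t := by
        ext i
        simp only [Finset.mem_erase, Finset.mem_range, Finset.mem_union, Finset.mem_Ico]
        omega
      have hdisj : Disjoint (Finset.range X) (Finset.Ico (X + 1) t) := by
        rw [Finset.disjoint_left]
        intro i hi hi2
        rw [Finset.mem_range] at hi
        rw [Finset.mem_Ico] at hi2
        omega
      have hP1 : ‖∏ j ∈ Finset.range X, SlotXa8_g n M j ((vl n M X : ℝ) : ℂ)‖ = S M X := by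
        have h1 := SlotXa8_prodG M X X le_rfl
        rw [Nat.sub_self, S_zero, one_mul] at h1
        rw [h1, _root_.norm_prod]
        refine Finset.prod_congr rfl fun i hi => ?_
        have hi' := Finset.mem_range.1 hi
        rw [SlotXa8_gv1 n M X i (by omega), norm_real, Real.norm_eq_abs,
          abs_of_pos (sg_pos (by omega) (by omega))]
      have hP2 : ‖∏ j ∈ Finset.Ico (X + 1) t, SlotXa8_g n M j ((vl n M X : ℝ) : ℂ)‖ =
          S M (M - n - k - X) := by
        rw [Finset.prod_Ico_eq_prod_range, _root_.norm_prod]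
        unfold S
        rw [Finset.prod_Ico_eq_prod_range]
        have e1 : t - (X + 1) = M - n - k - X + 1 - 1 := by omega
        rw [e1]
        refine Finset.prod_congr rfl fun i hi => ?_
        have hi' := Finset.mem_range.1 hi
        rw [SlotXa8_gv2 n M X _ (by omega), norm_neg, norm_real, Real.norm_eq_abs]
        have e2 : X + 1 + i - X = 1 + i := by omega
        rw [e2, abs_of_pos (sg_pos (by omega) (by omega))]
      rw [norm_mul, norm_mul, norm_smul, hF, hsplit, Finset.prod_union hdisj, norm_mul, hP1, hP2,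
        norm_div, norm_one, _root_.norm_natCast]
      have hpi : ‖(2 * (Real.pi : ℂ))‖ = 2 * Real.pi := by
        rw [norm_mul, norm_real, Real.norm_eq_abs, abs_of_pos Real.pi_pos]
        norm_num
      rw [hpi]
      field_simp
  · set t := M + 1 - n - k with htdef
    have hG0 : ∏ i ∈ Finset.range t, SlotXa8_g n M i ((vl n M X : ℝ) : ℂ) = 0 :=
      Finset.prod_eq_zero (Finset.mem_range.2 (by omega : X < t)) (SlotXa8_g0 n M X)
    have hf0 : SlotXa8_f n M (M + 1 - n - X) ((vl n M X : ℝ) : ℂ) = 0 := by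
      rw [SlotXa8_fv n M X _ hn]
      have e : X + n - 1 + (M + 1 - n - X) = M := by omega
      rw [e]
      unfold sg
      rw [mul_div_assoc, div_self hM0.ne', mul_one, Real.sin_pi]
      simp
    have hF0 : ∏ i ∈ Finset.range t, SlotXa8_f n M i ((vl n M X : ℝ) : ℂ) = 0 :=
      Finset.prod_eq_zero (Finset.mem_range.2 (by omega : M + 1 - n - X < t)) hf0
    refine ⟨?_, ?_⟩
    · rw [SlotXa8_qc]
      simp only
      rw [← htdef, hG0]
      simp
    · rw [SlotXa8_qcd, ← htdef, hG0, hF0]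
      simp

private lemma SlotXa8_even (n M k : ℕ) (v : ℂ) : qcn n M k (-v) = qcn n M k v := by
  unfold qcn
  congr 1
  refine Finset.prod_congr rfl fun i _ => ?_
  have e1 : (Real.pi : ℂ) * (-v + (i + bt n) / M) = -(Real.pi * (v - (i + bt n) / M)) := by ring
  have e2 : (Real.pi : ℂ) * (-v - (i + bt n) / M) = -(Real.pi * (v + (i + bt n) / M)) := by ring
  rw [e1, e2, cos_neg, cos_neg]
  ring

theorem qcn_reflect (n M k X : ℕ) (hn : 2 ≤ n) (hX : X + n ≤ M + 1) :
    qcn n M k ((vl n M (M + 1 - n - X) : ℝ) : ℂ) = qcn n M k ((vl n M X : ℝ) : ℂ) ∧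
      deriv (qcn n M k) ((vl n M (M + 1 - n - X) : ℝ) : ℂ) =
        -deriv (qcn n M k) ((vl n M X : ℝ) : ℂ) := by
  have hM0 : (M : ℝ) ≠ 0 := by exact_mod_cast (by omega : M ≠ 0)
  have e : ((vl n M (M + 1 - n - X) : ℝ) : ℂ) = -((vl n M X : ℝ) : ℂ) := by
    rw [← ofReal_neg]
    congr 1
    rw [SlotXa8_vl, SlotXa8_vl, Nat.sub_sub, Nat.cast_sub (by omega)]
    unfold bt
    push_cast
    field_simp
    ring
  rw [e]
  refine ⟨SlotXa8_even n M k _, ?_⟩
  have h1 : (fun v => qcn n M k (-v)) = qcn n M k := funext fun v => SlotXa8_even n M k v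
  have h2 := deriv_comp_neg (f := qcn n M k) (x := ((vl n M X : ℝ) : ℂ))
  rw [h1] at h2
  rw [h2, neg_neg]

end Pool.Agent.H63.VC8
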